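import Mathlib

/-! Averages, noise kernels and flips on the discrete cube. -/

set_option linter.unusedSectionVars false

namespace Pool.Agent.H71Z.KK

open Finset

section Avg

variable {Ω : Type*} [Fintype Ω] [Nonempty Ω]

/-- Uniform average. -/
noncomputable def E (g : Ω → ℝ) : ℝ := (∑ x, g x) / (Fintype.card Ω : ℝ)

lemma card_pos' : (0 : ℝ) < (Fintype.card Ω : ℝ) := by exact_mod_cast Fintype.card_pos

lemma E_add (f g : Ω → ℝ) : E (fun x => f x + g x) = E f + E g := by
  simp [E, sum_add_distrib, add_div]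

lemma E_sub (f g : Ω → ℝ) : E (fun x => f x - g x) = E f - E g := by
  simp [E, sum_sub_distrib, sub_div]

lemma E_neg (f : Ω → ℝ) : E (fun x => - f x) = - E f := by
  simp [E, sum_neg_distrib, neg_div]

lemma E_const_mul (c : ℝ) (f : Ω → ℝ) : E (fun x => c * f x) = c * E f := by
  simp [E, ← mul_sum, mul_div_assoc]

lemma E_mul_const (c : ℝ) (f : Ω → ℝ) : E (fun x => f x * c) = E f * c := by
  simp only [mul_comm _ c, E_const_mul]

lemma E_div_const (c : ℝ) (f : Ω → ℝ) : E (fun x => f x / c) = E f / c := by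
  simp only [div_eq_mul_inv, E_mul_const]

lemma E_const (c : ℝ) : E (fun _ : Ω => c) = c := by
  have := card_pos' (Ω := Ω)
  simp only [E, sum_const, card_univ, nsmul_eq_mul]
  field_simp

lemma E_mono {f g : Ω → ℝ} (h : ∀ x, f x ≤ g x) : E f ≤ E g :=
  div_le_div_of_nonneg_right (sum_le_sum fun x _ => h x) card_pos'.le

lemma E_nonneg {f : Ω → ℝ} (h : ∀ x, 0 ≤ f x) : 0 ≤ E f :=
  div_nonneg (sum_nonneg fun x _ => h x) card_pos'.le

lemma E_congr {f g : Ω → ℝ} (h : ∀ x, f x = g x) : E f = E g := by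
  rw [show f = g from funext h]

lemma E_sum {κ : Type*} (s : Finset κ) (f : κ → Ω → ℝ) :
    E (fun x => ∑ i ∈ s, f i x) = ∑ i ∈ s, E (f i) := by
  simp only [E]
  rw [sum_comm, sum_div]

lemma E_comm {Ω' : Type*} [Fintype Ω'] [Nonempty Ω'] (f : Ω → Ω' → ℝ) :
    E (fun x => E (fun y => f x y)) = E (fun y => E (fun x => f x y)) := by
  simp only [E, ← sum_div]
  rw [sum_comm, div_div, div_div, mul_comm]

lemma single_le_E {f : Ω → ℝ} (h : ∀ x, 0 ≤ f x) (x : Ω) :
    f x ≤ (Fintype.card Ω : ℝ) * E f := by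
  have := card_pos' (Ω := Ω)
  have h2 : f x ≤ ∑ y, f y := single_le_sum (fun y _ => h y) (mem_univ x)
  rw [E]; field_simp; exact h2

lemma E_pos {f : Ω → ℝ} (h : ∀ x, 0 ≤ f x) {x : Ω} (hx : 0 < f x) : 0 < E f := by
  have h1 := single_le_E h x
  have := card_pos' (Ω := Ω)
  by_contra hn
  have : E f ≤ 0 := not_lt.mp hn
  nlinarith

lemma eq_zero_of_E_le {f : Ω → ℝ} (h : ∀ x, 0 ≤ f x) (h0 : E f ≤ 0) (x : Ω) : f x = 0 := by
  by_contra hne
  have := E_pos h (lt_of_le_of_ne (h x) (Ne.symm hne))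
  linarith

lemma E_cs (k a b : Ω → ℝ) (hk : ∀ x, 0 ≤ k x) :
    (E (fun x => k x * (a x * b x))) ^ 2 ≤
      E (fun x => k x * a x ^ 2) * E (fun x => k x * b x ^ 2) := by
  have hN := card_pos' (Ω := Ω)
  have h := sum_mul_sq_le_sq_mul_sq univ (fun x => √(k x) * a x) (fun x => √(k x) * b x)
  have e1 : ∀ x, √(k x) * a x * (√(k x) * b x) = k x * (a x * b x) := fun x => by
    have := Real.mul_self_sqrt (hk x)
    calc _ = (√(k x) * √(k x)) * (a x * b x) := by ring
      _ = _ := by rw [this]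
  have e2 : ∀ (c : Ω → ℝ) x, (√(k x) * c x) ^ 2 = k x * c x ^ 2 := fun c x => by
    rw [mul_pow, Real.sq_sqrt (hk x)]
  simp only [e1, e2] at h
  simp only [E]
  rw [div_pow, div_mul_div_comm, ← sq]
  exact div_le_div_of_nonneg_right h (by positivity)

lemma continuous_E {X : Type*} [TopologicalSpace X] {f : X → Ω → ℝ}
    (h : ∀ x, Continuous fun t => f t x) : Continuous fun t => E (f t) := by
  unfold E
  exact (continuous_finsetSum _ fun x _ => h x).div_const _

end Avg

section Cube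

variable {ι : Type*} [Fintype ι] [DecidableEq ι]

/-- The sign of a bit. -/
def sg (b : Bool) : ℝ := if b then 1 else -1

/-- Flip coordinate `i`. -/
def fl (i : ι) (x : ι → Bool) : ι → Bool := Function.update x i (!(x i))

/-- The noise kernel with correlation `r j` in coordinate `j`. -/
noncomputable def ker (r : ι → ℝ) (x y : ι → Bool) : ℝ := ∏ j, (1 + r j * (sg (x j) * sg (y j)))

/-- The noise operator. -/
noncomputable def T (r : ι → ℝ) (f : (ι → Bool) → ℝ) (x : ι → Bool) : ℝ :=
  E (fun y => ker r x y * f y)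

lemma sg_true : sg true = 1 := rfl

lemma sg_false : sg false = -1 := rfl

lemma sg_not (b : Bool) : sg (!b) = - sg b := by cases b <;> simp [sg]

lemma sg_mul_self (b : Bool) : sg b * sg b = 1 := by cases b <;> simp [sg]

lemma sg_mul_cases (a b : Bool) : sg a * sg b = 1 ∨ sg a * sg b = -1 := by
  cases a <;> cases b <;> simp [sg]

@[simp] lemma fl_self (i : ι) (x : ι → Bool) : fl i x i = !(x i) := by simp [fl]

lemma fl_ne {i j : ι} (h : j ≠ i) (x : ι → Bool) : fl i x j = x j := by simp [fl, h]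

@[simp] lemma fl_fl (i : ι) (x : ι → Bool) : fl i (fl i x) = x := by
  funext j
  by_cases h : j = i
  · subst h; simp
  · rw [fl_ne h, fl_ne h]

lemma E_fl (i : ι) (g : (ι → Bool) → ℝ) : E (fun x => g (fl i x)) = E g := by
  unfold E
  congr 1
  exact Fintype.sum_equiv (Function.Involutive.toPerm (fl i) (fl_fl i)) _ _ (fun x => rfl)

lemma E_symm (i : ι) (g : (ι → Bool) → ℝ) : E (fun x => (g x + g (fl i x)) / 2) = E g := by
  rw [E_div_const, E_add, E_fl]; ring

lemma E_antisymm (i : ι) (g : (ι → Bool) → ℝ) (h : ∀ x, g (fl i x) = - g x) : E g = 0 := by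
  have h1 := E_fl i g
  simp only [h] at h1
  rw [E_neg] at h1
  linarith

lemma E_prod (g : ι → Bool → ℝ) :
    E (fun y : ι → Bool => ∏ j, g j (y j)) = ∏ j, ((g j true + g j false) / 2) := by
  unfold E
  have h := Finset.prod_univ_sum (fun _ : ι => (univ : Finset Bool)) g
  simp only [Fintype.piFinset_univ] at h
  rw [← h, prod_div_distrib]
  simp

lemma ker_symm (r : ι → ℝ) (x y : ι → Bool) : ker r x y = ker r y x := by
  unfold ker; simp only [mul_comm]

lemma ker_fac_nonneg {t : ℝ} (h0 : 0 ≤ t) (h1 : t ≤ 1) (a b : Bool) :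
    0 ≤ 1 + t * (sg a * sg b) := by
  rcases sg_mul_cases a b with h | h <;> rw [h] <;> linarith

lemma ker_nonneg {r : ι → ℝ} (h0 : ∀ j, 0 ≤ r j) (h1 : ∀ j, r j ≤ 1) (x y : ι → Bool) :
    0 ≤ ker r x y :=
  prod_nonneg fun j _ => ker_fac_nonneg (h0 j) (h1 j) _ _

lemma ker_pos {r : ι → ℝ} (h0 : ∀ j, 0 ≤ r j) (h1 : ∀ j, r j < 1) (x y : ι → Bool) :
    0 < ker r x y :=
  prod_pos fun j _ => by
    rcases sg_mul_cases (x j) (y j) with h | h <;> rw [h] <;> linarith [h0 j, h1 j]

lemma one_le_ker_diag {r : ι → ℝ} (h0 : ∀ j, 0 ≤ r j) (x : ι → Bool) : 1 ≤ ker r x x := by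
  unfold ker
  calc (1 : ℝ) = ∏ _j : ι, (1 : ℝ) := by simp
    _ ≤ _ := prod_le_prod (fun _ _ => zero_le_one) fun j _ => by
        rw [sg_mul_self]; linarith [h0 j]

lemma E_ker (r : ι → ℝ) (x : ι → Bool) : E (fun y => ker r x y) = 1 := by
  unfold ker
  rw [E_prod (fun j b => 1 + r j * (sg (x j) * sg b))]
  refine prod_eq_one fun j _ => ?_
  rw [sg_true, sg_false]; ring

lemma ker_conv (r s : ι → ℝ) (x y : ι → Bool) :
    E (fun v => ker r x v * ker s v y) = ker (fun j => r j * s j) x y := by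
  unfold ker
  simp only [← prod_mul_distrib]
  rw [E_prod (fun j b => (1 + r j * (sg (x j) * sg b)) * (1 + s j * (sg b * sg (y j))))]
  refine prod_congr rfl fun j _ => ?_
  rw [sg_true, sg_false]; ring

/-- The part of the kernel away from coordinate `i`. -/
noncomputable def kerOff (i : ι) (r : ι → ℝ) (x y : ι → Bool) : ℝ :=
  ∏ j ∈ univ.erase i, (1 + r j * (sg (x j) * sg (y j)))

lemma ker_eq (i : ι) (r : ι → ℝ) (x y : ι → Bool) :
    ker r x y = kerOff i r x y * (1 + r i * (sg (x i) * sg (y i))) := by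
  unfold ker kerOff
  rw [prod_erase_mul _ _ (mem_univ i)]

lemma kerOff_nonneg (i : ι) {r : ι → ℝ} (h0 : ∀ j, 0 ≤ r j) (h1 : ∀ j, r j ≤ 1)
    (x y : ι → Bool) : 0 ≤ kerOff i r x y :=
  prod_nonneg fun j _ => ker_fac_nonneg (h0 j) (h1 j) _ _

lemma kerOff_fl_right (i : ι) (r : ι → ℝ) (x y : ι → Bool) :
    kerOff i r x (fl i y) = kerOff i r x y :=
  prod_congr rfl fun j hj => by rw [fl_ne (ne_of_mem_erase hj)]

lemma kerOff_fl_left (i : ι) (r : ι → ℝ) (x y : ι → Bool) :
    kerOff i r (fl i x) y = kerOff i r x y :=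
  prod_congr rfl fun j hj => by rw [fl_ne (ne_of_mem_erase hj)]

lemma kerOff_update (i : ι) (r : ι → ℝ) (t : ℝ) (x y : ι → Bool) :
    kerOff i (Function.update r i t) x y = kerOff i r x y :=
  prod_congr rfl fun j hj => by rw [Function.update_of_ne (ne_of_mem_erase hj)]

lemma ker_fl_right (i : ι) (r : ι → ℝ) (x y : ι → Bool) :
    ker r x (fl i y) = kerOff i r x y * (1 - r i * (sg (x i) * sg (y i))) := by
  rw [ker_eq i, kerOff_fl_right, fl_self, sg_not]; ring

lemma ker_fl_left (i : ι) (r : ι → ℝ) (x y : ι → Bool) :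
    ker r (fl i x) y = kerOff i r x y * (1 - r i * (sg (x i) * sg (y i))) := by
  rw [ker_eq i, kerOff_fl_left, fl_self, sg_not]; ring

lemma ker_fl_swap (i : ι) (r : ι → ℝ) (x y : ι → Bool) :
    ker r (fl i x) y = ker r x (fl i y) := by
  rw [ker_fl_left, ker_fl_right]

lemma T_fl (i : ι) (r : ι → ℝ) (f : (ι → Bool) → ℝ) (x : ι → Bool) :
    T r f (fl i x) = T r (fun y => f (fl i y)) x := by
  unfold T
  rw [← E_fl i (fun y => ker r x y * f (fl i y))]
  refine E_congr fun y => ?_
  rw [ker_fl_swap, fl_fl]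

lemma T_add (r : ι → ℝ) (f g : (ι → Bool) → ℝ) (x : ι → Bool) :
    T r (fun y => f y + g y) x = T r f x + T r g x := by
  unfold T; rw [← E_add]; exact E_congr fun y => by ring

lemma T_sub (r : ι → ℝ) (f g : (ι → Bool) → ℝ) (x : ι → Bool) :
    T r (fun y => f y - g y) x = T r f x - T r g x := by
  unfold T; rw [← E_sub]; exact E_congr fun y => by ring

lemma T_const_mul (r : ι → ℝ) (c : ℝ) (f : (ι → Bool) → ℝ) (x : ι → Bool) :
    T r (fun y => c * f y) x = c * T r f x := by
  unfold T; rw [← E_const_mul]; exact E_congr fun y => by ring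

lemma T_div_const (r : ι → ℝ) (c : ℝ) (f : (ι → Bool) → ℝ) (x : ι → Bool) :
    T r (fun y => f y / c) x = T r f x / c := by
  unfold T; rw [← E_div_const]; exact E_congr fun y => by ring

lemma T_const (r : ι → ℝ) (c : ℝ) (x : ι → Bool) : T r (fun _ => c) x = c := by
  unfold T; rw [E_mul_const, E_ker, one_mul]

lemma T_mono {r : ι → ℝ} (h0 : ∀ j, 0 ≤ r j) (h1 : ∀ j, r j ≤ 1) {f g : (ι → Bool) → ℝ}
    (h : ∀ y, f y ≤ g y) (x : ι → Bool) : T r f x ≤ T r g x :=
  E_mono fun y => mul_le_mul_of_nonneg_left (h y) (ker_nonneg h0 h1 x y)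

lemma T_nonneg {r : ι → ℝ} (h0 : ∀ j, 0 ≤ r j) (h1 : ∀ j, r j ≤ 1) {f : (ι → Bool) → ℝ}
    (h : ∀ y, 0 ≤ f y) (x : ι → Bool) : 0 ≤ T r f x :=
  E_nonneg fun y => mul_nonneg (ker_nonneg h0 h1 x y) (h y)

lemma T_pos {r : ι → ℝ} (h0 : ∀ j, 0 ≤ r j) (h1 : ∀ j, r j < 1) {f : (ι → Bool) → ℝ}
    (h : ∀ y, 0 ≤ f y) {y : ι → Bool} (hy : 0 < f y) (x : ι → Bool) : 0 < T r f x :=
  E_pos (fun y => mul_nonneg (ker_pos h0 h1 x y).le (h y)) (mul_pos (ker_pos h0 h1 x y) hy)

lemma abs_T_le {r : ι → ℝ} (h0 : ∀ j, 0 ≤ r j) (h1 : ∀ j, r j ≤ 1) (f : (ι → Bool) → ℝ)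
    (x : ι → Bool) : |T r f x| ≤ T r (fun y => |f y|) x := by
  rw [abs_le]
  constructor
  · have := T_mono h0 h1 (f := fun y => (-1) * |f y|) (g := f)
      (fun y => by linarith [neg_abs_le (f y)]) x
    rw [T_const_mul] at this; linarith
  · exact T_mono h0 h1 (fun y => le_abs_self _) x

lemma T_selfadj (r : ι → ℝ) (f g : (ι → Bool) → ℝ) :
    E (fun x => f x * T r g x) = E (fun x => T r f x * g x) := by
  unfold T
  simp only [← E_const_mul, ← E_mul_const]
  rw [E_comm]
  refine E_congr fun y => E_congr fun x => ?_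
  rw [ker_symm r x y]; ring

lemma E_T (r : ι → ℝ) (g : (ι → Bool) → ℝ) : E (T r g) = E g := by
  have := T_selfadj r (fun _ => 1) g
  simp only [one_mul, T_const] at this
  exact this

lemma T_T (r s : ι → ℝ) (f : (ι → Bool) → ℝ) (x : ι → Bool) :
    T r (T s f) x = T (fun j => r j * s j) f x := by
  unfold T
  simp only [← E_const_mul]
  rw [E_comm]
  refine E_congr fun y => ?_
  rw [← ker_conv, ← E_mul_const]
  exact E_congr fun v => by ring

lemma E_sq_T (s : ι → ℝ) (f g : (ι → Bool) → ℝ) :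
    E (fun x => T s f x * T s g x) = E (fun x => f x * T (fun j => s j * s j) g x) := by
  rw [← T_selfadj]
  exact E_congr fun x => by rw [T_T]

/-- `T r` is affine in each correlation. -/
lemma ker_affine (i : ι) (r : ι → ℝ) (x y : ι → Bool) :
    ker r x y = r i * ker (Function.update r i 1) x y
      + (1 - r i) * ker (Function.update r i 0) x y := by
  rw [ker_eq i r, ker_eq i (Function.update r i 1), ker_eq i (Function.update r i 0),
    kerOff_update, kerOff_update]
  simp only [Function.update_self]; ring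

lemma T_affine (i : ι) (r : ι → ℝ) (f : (ι → Bool) → ℝ) (x : ι → Bool) :
    T r f x = r i * T (Function.update r i 1) f x + (1 - r i) * T (Function.update r i 0) f x := by
  unfold T
  rw [← E_const_mul, ← E_const_mul, ← E_add]
  exact E_congr fun y => by rw [ker_affine i r]; ring

/-- One step of noise in coordinate `i`. -/
lemma T_step (i : ι) (r : ι → ℝ) (f : (ι → Bool) → ℝ) (x : ι → Bool) :
    T r f x = (1 + r i) / 2 * T (Function.update r i 1) f x
      + (1 - r i) / 2 * T (Function.update r i 1) f (fl i x) := by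
  unfold T
  rw [← E_const_mul, ← E_const_mul, ← E_add]
  refine E_congr fun y => ?_
  rw [ker_fl_left, ker_eq i r, ker_eq i (Function.update r i 1), kerOff_update]
  simp only [Function.update_self]; ring

lemma ker_one (x y : ι → Bool) :
    ker (fun _ => (1 : ℝ)) x y = if y = x then (Fintype.card (ι → Bool) : ℝ) else 0 := by
  unfold ker
  split_ifs with h
  · subst h
    simp only [sg_mul_self]
    simp; norm_num
  · obtain ⟨j, hj⟩ := Function.ne_iff.mp h
    refine prod_eq_zero (mem_univ j) ?_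
    revert hj
    cases y j <;> cases x j <;> simp [sg]

lemma T_one (f : (ι → Bool) → ℝ) (x : ι → Bool) : T (fun _ => 1) f x = f x := by
  have := card_pos' (Ω := ι → Bool)
  unfold T E
  simp only [ker_one, ite_mul, zero_mul, sum_ite_eq', mem_univ, if_true]
  field_simp

/-- Correlation vector of the operator that averages over the coordinates in `U`. -/
def off (U : Finset ι) : ι → ℝ := fun j => if j ∈ U then 0 else 1

lemma off_nonneg (U : Finset ι) (j : ι) : 0 ≤ off U j := by unfold off; split_ifs <;> norm_num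

lemma off_le_one (U : Finset ι) (j : ι) : off U j ≤ 1 := by unfold off; split_ifs <;> norm_num

lemma off_empty : off (∅ : Finset ι) = fun _ => 1 := by funext j; simp [off]

lemma off_insert {U : Finset ι} {i : ι} (hi : i ∉ U) :
    Function.update (off (insert i U)) i 1 = off U := by
  funext j
  by_cases h : j = i
  · subst h; simp [off, hi]
  · simp [off, h]

lemma T_off_insert {U : Finset ι} {i : ι} (hi : i ∉ U) (f : (ι → Bool) → ℝ) (x : ι → Bool) :
    T (off (insert i U)) f x = (T (off U) f x + T (off U) f (fl i x)) / 2 := by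
  rw [T_step i, off_insert hi]
  simp [off]; ring

lemma ker_off_ne_zero {U : Finset ι} {x y : ι → Bool} (h : ker (off U) x y ≠ 0) :
    ∀ j, j ∉ U → x j = y j := by
  intro j hj
  have := (prod_ne_zero_iff.mp h) j (mem_univ j)
  simp only [off, hj, if_false] at this
  revert this
  cases y j <;> cases x j <;> simp [sg]

lemma T_congr_off {r : ι → ℝ} {U : Finset ι} (hr : ∀ j ∈ U, r j = 0) (f : (ι → Bool) → ℝ)
    {x y : ι → Bool} (h : ∀ j, j ∉ U → x j = y j) : T r f x = T r f y := by
  unfold T ker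
  refine E_congr fun z => ?_
  congr 1
  refine prod_congr rfl fun j _ => ?_
  by_cases hj : j ∈ U
  · simp [hr j hj]
  · rw [h j hj]

/-- A function that only depends on the coordinates outside `U` factors out of the average. -/
lemma T_off_mul {U : Finset ι} (h f : (ι → Bool) → ℝ)
    (hh : ∀ x y : ι → Bool, (∀ j, j ∉ U → x j = y j) → h x = h y) (x : ι → Bool) :
    T (off U) (fun y => h y * f y) x = h x * T (off U) f x := by
  unfold T
  rw [← E_const_mul]
  refine E_congr fun y => ?_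
  by_cases hk : ker (off U) x y = 0
  · simp [hk]
  · rw [hh x y (ker_off_ne_zero hk)]; ring

lemma E_mul_off {U : Finset ι} (h f : (ι → Bool) → ℝ)
    (hh : ∀ x y : ι → Bool, (∀ j, j ∉ U → x j = y j) → h x = h y) :
    E (fun x => h x * f x) = E (fun x => h x * T (off U) f x) := by
  rw [← E_T (off U) (fun x => h x * f x)]
  exact E_congr fun x => T_off_mul h f hh x

lemma off_zero (U : Finset ι) : ∀ j ∈ U, off U j = 0 := fun j hj => by simp [off, hj]

end Cube

end Pool.Agent.H71Z.KK
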