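import Pool.Agent.H71Z.KK.Main

/-! The density increment statement on the cube. -/

namespace Pool.Agent.H71Z.KK

open Finset

lemma rpow_le_half_pow {α L' : ℝ} (hα : 0 < α) (m : ℕ) (h : (m : ℝ) ≤ L' * Real.logb 2 α⁻¹) :
    α ^ L' ≤ (1 / 2 : ℝ) ^ m := by
  have h2 : 0 < Real.log 2 := Real.log_pos (by norm_num)
  rw [Real.rpow_def_of_pos hα, ← Real.exp_log (by positivity : 0 < (1 / 2 : ℝ) ^ m),
    Real.exp_le_exp, Real.log_pow, one_div, Real.log_inv]
  rw [Real.logb, Real.log_inv, ← mul_div_assoc, le_div_iff₀ h2] at h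
  linarith

lemma incr_le_exp {α L : ℝ} (hα : 0 < α) (hα2 : α ≤ 1 / 2) (hL : 0 < L) :
    (1 + 2 / 5) * α ≤ Real.exp (-(Real.log 2 / (2 * L) * (L * Real.logb 2 α⁻¹))) := by
  have h2 : 0 < Real.log 2 := Real.log_pos (by norm_num)
  have e : -(Real.log 2 / (2 * L) * (L * Real.logb 2 α⁻¹)) = Real.log α / 2 := by
    rw [Real.logb, Real.log_inv]; field_simp
  rw [e]
  have h3 : Real.exp (Real.log α / 2) ^ 2 = α := by
    rw [← Real.exp_nat_mul, show ((2 : ℕ) : ℝ) * (Real.log α / 2) = Real.log α by push_cast; ring,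
      Real.exp_log hα]
  refine (abs_le_of_sq_le_sq' ?_ (Real.exp_pos _).le).2
  rw [h3]; nlinarith

theorem cube_incr (L : ℝ) (hL : 0 < L) : ∃ L' : ℝ, 0 < L' ∧
    ∀ n : ℕ, ∀ A : Finset (Fin n → Bool), A.Nonempty → (A.card : ℝ) / 2 ^ n ≤ 1 / 2 →
      (((A ×ˢ (univ : Finset (Fin n))).filter (fun p => fl p.2 p.1 ∉ A)).card : ℝ)
        ≤ L * (A.card : ℝ) * Real.logb 2 ((2 : ℝ) ^ n / (A.card : ℝ)) →
      ∃ S : Finset (Fin n), ∃ c : Fin n → Bool,
        ((A.card : ℝ) / 2 ^ n) ^ L' ≤ (1 / 2 : ℝ) ^ S.card ∧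
        (1 + 2 / 5) * (A.card : ℝ) ≤
          2 ^ S.card * ((A.filter (fun x => ∀ i ∈ S, x i = c i)).card : ℝ) := by
  have h2 : 0 < Real.log 2 := Real.log_pos (by norm_num)
  obtain ⟨K, hK, H⟩ := cube_count (ε := Real.log 2 / (2 * L)) (by positivity)
  refine ⟨K * L, by positivity, fun n A hA hα hb => ?_⟩
  have hcard : (0 : ℝ) < A.card := by exact_mod_cast hA.card_pos
  have hα0 : 0 < (A.card : ℝ) / 2 ^ n := by positivity
  have einv : (2 : ℝ) ^ n / (A.card : ℝ) = ((A.card : ℝ) / 2 ^ n)⁻¹ := by rw [inv_div]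
  rw [einv] at hb
  obtain ⟨S, x, -, h1, h3⟩ := H (Fin n) A hA (L * Real.logb 2 ((A.card : ℝ) / 2 ^ n)⁻¹)
    (by linarith)
  refine ⟨S, x, rpow_le_half_pow hα0 _ (by linarith), ?_⟩
  rw [Fintype.card_fin] at h3
  have h4 := mul_le_mul_of_nonneg_right (incr_le_exp hα0 hα hL) (by positivity : (0 : ℝ) ≤ 2 ^ n)
  have h5 : (1 + 2 / 5) * (A.card : ℝ) = (1 + 2 / 5) * ((A.card : ℝ) / 2 ^ n) * 2 ^ n := by
    field_simp
  rw [h5]
  refine (h4.trans h3).trans (le_of_eq ?_)
  congr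

lemma card_filter_agree_le {n : ℕ} (A : Finset (Finset (Fin n)))
    (hA : IsUpperSet (A : Set (Finset (Fin n)))) (S : Finset (Fin n)) (c : Fin n → Bool) :
    (A.filter (fun X => ∀ i ∈ S, decide (i ∈ X) = c i)).card ≤ (A.filter (fun X => S ⊆ X)).card := by
  refine card_le_card_of_injOn (fun X => X ∪ S) ?_ ?_
  · intro X hX
    have hX' := mem_filter.mp (mem_coe.mp hX)
    refine mem_coe.mpr (mem_filter.mpr ⟨?_, subset_union_right⟩)
    exact hA (show X ≤ X ∪ S from subset_union_left) hX'.1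
  · intro X hX Y hY hXY
    have hX' := (mem_filter.mp (mem_coe.mp hX)).2
    have hY' := (mem_filter.mp (mem_coe.mp hY)).2
    ext i
    by_cases hi : i ∈ S
    · have := (hX' i hi).trans (hY' i hi).symm
      simpa using this
    · have : i ∈ X ∪ S ↔ i ∈ Y ∪ S := by
        have h : X ∪ S = Y ∪ S := hXY
        rw [h]
      simpa [hi] using this

/-- The indicator vector of a set. -/
def vec {n : ℕ} (X : Finset (Fin n)) : Fin n → Bool := fun i => decide (i ∈ X)

lemma vec_inj {n : ℕ} : Function.Injective (vec (n := n)) := by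
  intro X Y h
  ext i
  simpa [vec] using congrFun h i

lemma vec_symmDiff {n : ℕ} (X : Finset (Fin n)) (i : Fin n) :
    vec (symmDiff X {i}) = fl i (vec X) := by
  funext j
  by_cases h : j = i
  · subst h
    simp [vec, mem_symmDiff]
  · rw [fl_ne h]; simp [vec, mem_symmDiff, h]

theorem up_incr (L : ℝ) (hL : 0 < L) : ∃ L' : ℝ, 0 < L' ∧
    ∀ n : ℕ, ∀ A : Finset (Finset (Fin n)), IsUpperSet (A : Set (Finset (Fin n))) →
      (A.card : ℝ) / 2 ^ n ≤ 1 / 2 →
      (((A ×ˢ (univ : Finset (Fin n))).filter (fun p => symmDiff p.1 {p.2} ∉ A)).card : ℝ)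
        ≤ L * (A.card : ℝ) * Real.logb 2 ((2 : ℝ) ^ n / (A.card : ℝ)) →
      ∃ S : Finset (Fin n),
        ((A.card : ℝ) / 2 ^ n) ^ L' ≤ (1 / 2 : ℝ) ^ S.card ∧
        (1 + 2 / 5) * (A.card : ℝ) ≤ 2 ^ S.card * ((A.filter (fun X => S ⊆ X)).card : ℝ) := by
  obtain ⟨L', hL', H⟩ := cube_incr L hL
  refine ⟨L', hL', fun n A hup hα hb => ?_⟩
  rcases A.eq_empty_or_nonempty with rfl | hA
  · refine ⟨∅, ?_, by simp⟩
    simp [Real.zero_rpow hL'.ne']
  have hc : (A.image vec).card = A.card := card_image_of_injective _ vec_inj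
  have hbd : ((A.image vec ×ˢ (univ : Finset (Fin n))).filter
      (fun p => fl p.2 p.1 ∉ A.image vec)).card
      = ((A ×ˢ (univ : Finset (Fin n))).filter (fun p => symmDiff p.1 {p.2} ∉ A)).card := by
    symm
    refine card_bij (fun p _ => (vec p.1, p.2)) ?_ ?_ ?_
    · intro p hp
      simp only [mem_filter, mem_product, mem_univ, and_true] at hp ⊢
      refine ⟨mem_image_of_mem _ hp.1, ?_⟩
      rw [← vec_symmDiff, vec_inj.mem_finset_image]
      exact hp.2
    · intro p _ p' _ h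
      simp only [Prod.mk.injEq] at h
      exact Prod.ext (vec_inj h.1) h.2
    · intro p hp
      simp only [mem_filter, mem_product, mem_univ, and_true] at hp
      obtain ⟨X, hX, hXp⟩ := mem_image.mp hp.1
      refine ⟨(X, p.2), ?_, by simp [hXp]⟩
      simp only [mem_filter, mem_product, mem_univ, and_true]
      refine ⟨hX, fun hn => hp.2 ?_⟩
      rw [← hXp, ← vec_symmDiff]
      exact mem_image_of_mem _ hn
  obtain ⟨S, c, h1, h2⟩ := H n (A.image vec) (hA.image _) (by rwa [hc]) (by rwa [hc, hbd])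
  rw [hc] at h1 h2
  refine ⟨S, h1, h2.trans (mul_le_mul_of_nonneg_left ?_ (by positivity))⟩
  rw [filter_image, card_image_of_injective _ vec_inj]
  exact_mod_cast card_filter_agree_le A hup S c

end Pool.Agent.H71Z.KK
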