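import Pool.Agent.H71Z.KK.Ineq

/-! Gradient estimates for a nonnegative function and its noisy version. -/

set_option linter.unusedSectionVars false

namespace Pool.Agent.H71Z.KK

open Finset

variable {ι : Type*} [Fintype ι] [DecidableEq ι]

/-- Symmetric part along direction `i`. -/
noncomputable def sy (i : ι) (f : (ι → Bool) → ℝ) (x : ι → Bool) : ℝ := (f x + f (fl i x)) / 2

/-- Antisymmetric part along direction `i`. -/
noncomputable def ay (i : ι) (f : (ι → Bool) → ℝ) (x : ι → Bool) : ℝ := (f x - f (fl i x)) / 2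

/-- Relative gradient along direction `i`. -/
noncomputable def rg (i : ι) (f : (ι → Bool) → ℝ) (x : ι → Bool) : ℝ := ay i f x / sy i f x

lemma sy_fl (i : ι) (f : (ι → Bool) → ℝ) (x : ι → Bool) : sy i f (fl i x) = sy i f x := by
  simp only [sy, fl_fl]; ring

lemma ay_fl (i : ι) (f : (ι → Bool) → ℝ) (x : ι → Bool) : ay i f (fl i x) = - ay i f x := by
  simp only [ay, fl_fl]; ring

lemma rg_fl (i : ι) (f : (ι → Bool) → ℝ) (x : ι → Bool) : rg i f (fl i x) = - rg i f x := by
  simp only [rg, sy_fl, ay_fl]; ring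

lemma sy_nonneg (i : ι) {f : (ι → Bool) → ℝ} (hf : ∀ x, 0 ≤ f x) (x : ι → Bool) :
    0 ≤ sy i f x := by
  have := hf x; have := hf (fl i x); unfold sy; linarith

lemma sy_pos (i : ι) {f : (ι → Bool) → ℝ} (hf : ∀ x, 0 < f x) (x : ι → Bool) :
    0 < sy i f x := by
  have := hf x; have := hf (fl i x); unfold sy; linarith

lemma abs_ay_le (i : ι) {f : (ι → Bool) → ℝ} (hf : ∀ x, 0 ≤ f x) (x : ι → Bool) :
    |ay i f x| ≤ sy i f x := by
  have := hf x; have := hf (fl i x); unfold sy ay; rw [abs_le]; constructor <;> linarith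

lemma sy_mul_rg (i : ι) {f : (ι → Bool) → ℝ} (hf : ∀ x, 0 ≤ f x) (x : ι → Bool) :
    sy i f x * rg i f x = ay i f x := by
  unfold rg
  rcases (sy_nonneg i hf x).eq_or_lt with h | h
  · have := abs_ay_le i hf x
    rw [← h] at this ⊢
    rw [abs_nonpos_iff.mp this]; simp
  · field_simp

lemma abs_rg_le (i : ι) {f : (ι → Bool) → ℝ} (hf : ∀ x, 0 ≤ f x) (x : ι → Bool) :
    |rg i f x| ≤ 1 := by
  unfold rg
  rw [abs_div, abs_of_nonneg (sy_nonneg i hf x)]
  exact div_le_one_of_le₀ (abs_ay_le i hf x) (sy_nonneg i hf x)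

lemma sy_T (i : ι) (r : ι → ℝ) (f : (ι → Bool) → ℝ) (x : ι → Bool) :
    sy i (T r f) x = T r (sy i f) x := by
  unfold sy
  rw [T_div_const, T_add, T_fl]

lemma ay_T (i : ι) (r : ι → ℝ) (f : (ι → Bool) → ℝ) (x : ι → Bool) :
    ay i (T r f) x = T r (ay i f) x := by
  unfold ay
  rw [T_div_const, T_sub, T_fl]

lemma E_mul_sy (i : ι) (f h : (ι → Bool) → ℝ) (hh : ∀ x, h (fl i x) = h x) :
    E (fun x => f x * h x) = E (fun x => sy i f x * h x) := by
  rw [← E_symm i (fun x => f x * h x)]
  exact E_congr fun x => by rw [hh, sy]; ring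

lemma abs_T_ay {r : ι → ℝ} (h0 : ∀ j, 0 ≤ r j) (h1 : ∀ j, r j ≤ 1) (i : ι)
    (f : (ι → Bool) → ℝ) (x : ι → Bool) :
    |T r (ay i f) x| ≤ r i * T r (fun y => |ay i f y|) x := by
  have e1 : T r (ay i f) x
      = E (fun y => kerOff i r x y * (r i * (sg (x i) * sg (y i))) * ay i f y) := by
    unfold T
    rw [← E_symm i (fun y => ker r x y * ay i f y)]
    refine E_congr fun y => ?_
    rw [ker_fl_right, ay_fl, ker_eq i]; ring
  have e2 : T r (fun y => |ay i f y|) x = E (fun y => kerOff i r x y * |ay i f y|) := by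
    unfold T
    rw [← E_symm i (fun y => ker r x y * |ay i f y|)]
    refine E_congr fun y => ?_
    rw [ker_fl_right, ay_fl, ker_eq i, abs_neg]; ring
  have hb : ∀ y, |kerOff i r x y * (r i * (sg (x i) * sg (y i))) * ay i f y|
      = r i * (kerOff i r x y * |ay i f y|) := by
    intro y
    rw [abs_mul, abs_mul, abs_mul, abs_of_nonneg (kerOff_nonneg i h0 h1 x y),
      abs_of_nonneg (h0 i)]
    rcases sg_mul_cases (x i) (y i) with h | h <;> rw [h] <;> simp <;> ring
  rw [e1, e2, ← E_const_mul, abs_le]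
  constructor
  · rw [← E_neg]
    exact E_mono fun y => by rw [← hb]; exact neg_abs_le _
  · exact E_mono fun y => by rw [← hb]; exact le_abs_self _

lemma T_jensen {r : ι → ℝ} (h0 : ∀ j, 0 ≤ r j) (h1 : ∀ j, r j ≤ 1) {a z : (ι → Bool) → ℝ}
    (ha : ∀ y, 0 ≤ a y) (hz : ∀ y, 0 ≤ z y) {q : ℝ} (hq : 1 ≤ q) (x : ι → Bool)
    (hx : 0 < T r a x) :
    (T r (fun y => a y * z y) x / T r a x) ^ q ≤ T r (fun y => a y * z y ^ q) x / T r a x := by
  have hN := card_pos' (Ω := ι → Bool)
  have h := Real.rpow_arith_mean_le_arith_mean_rpow univ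
    (fun y => ker r x y * a y / (Fintype.card (ι → Bool) : ℝ) / T r a x) z
    (fun y _ => div_nonneg (div_nonneg (mul_nonneg (ker_nonneg h0 h1 x y) (ha y)) hN.le) hx.le)
    (by
      rw [← sum_div, ← sum_div, div_eq_one_iff_eq hx.ne']; rfl)
    (fun y _ => hz y) hq
  have e : ∀ t : (ι → Bool) → ℝ,
      ∑ y, ker r x y * a y / (Fintype.card (ι → Bool) : ℝ) / T r a x * t y
        = T r (fun y => a y * t y) x / T r a x := by
    intro t
    conv_rhs => rw [T, E, sum_div, sum_div]
    exact sum_congr rfl fun y _ => by ring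
  rw [e z, e (fun y => z y ^ q)] at h
  exact h

/-- Noise contracts the relative gradient. -/
lemma grad_contract {ρ q : ℝ} (h0 : 0 ≤ ρ) (h1 : ρ ≤ 1) (hq : 1 ≤ q) (i : ι)
    {f : (ι → Bool) → ℝ} (hf : ∀ x, 0 ≤ f x) (hF : ∀ x, 0 < T (fun _ => ρ) f x) :
    E (fun x => sy i f x * sy i (T (fun _ => ρ) f) x * |rg i (T (fun _ => ρ) f) x| ^ q)
      ≤ ρ * E (fun x => sy i f x * sy i (T (fun _ => ρ) f) x * |rg i f x| ^ q) := by
  have hS : ∀ x, 0 < T (fun _ => ρ) (sy i f) x := fun x => by
    rw [← sy_T]; exact sy_pos i hF x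
  have hρq : ρ ^ q ≤ ρ := by
    rcases h0.eq_or_lt with h | h
    · rw [← h, Real.zero_rpow (by linarith)]
    · conv_rhs => rw [← Real.rpow_one ρ]
      exact Real.rpow_le_rpow_of_exponent_ge h h1 hq
  have hsy := sy_nonneg i hf
  have hp : ∀ x, sy i f x * sy i (T (fun _ => ρ) f) x * |rg i (T (fun _ => ρ) f) x| ^ q
      ≤ ρ * (sy i f x * T (fun _ => ρ) (fun y => sy i f y * |rg i f y| ^ q) x) := by
    intro x
    have hj := T_jensen (r := fun _ => ρ) (fun _ => h0) (fun _ => h1) hsy
      (fun y => abs_nonneg (rg i f y)) hq x (hS x)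
    have e : (fun y => |ay i f y|) = fun y => sy i f y * |rg i f y| := by
      funext y; rw [← sy_mul_rg i hf y, abs_mul, abs_of_nonneg (hsy y)]
    have hb := abs_T_ay (r := fun _ => ρ) (fun _ => h0) (fun _ => h1) i f x
    rw [e] at hb
    have hT0 : 0 ≤ T (fun _ => ρ) (fun y => sy i f y * |rg i f y|) x :=
      T_nonneg (fun _ => h0) (fun _ => h1) (fun y => mul_nonneg (hsy y) (abs_nonneg _)) x
    have hT1 : 0 ≤ T (fun _ => ρ) (fun y => sy i f y * |rg i f y| ^ q) x :=
      T_nonneg (fun _ => h0) (fun _ => h1)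
        (fun y => mul_nonneg (hsy y) (Real.rpow_nonneg (abs_nonneg _) _)) x
    have hu : |rg i (T (fun _ => ρ) f) x| ≤
        ρ * (T (fun _ => ρ) (fun y => sy i f y * |rg i f y|) x / T (fun _ => ρ) (sy i f) x) := by
      rw [rg, sy_T, ay_T, abs_div, abs_of_pos (hS x), ← mul_div_assoc]
      exact div_le_div_of_nonneg_right hb (hS x).le
    have hu2 := Real.rpow_le_rpow (abs_nonneg _) hu (by linarith : 0 ≤ q)
    rw [Real.mul_rpow h0 (div_nonneg hT0 (hS x).le)] at hu2
    have hu3 : |rg i (T (fun _ => ρ) f) x| ^ q ≤ ρ *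
        (T (fun _ => ρ) (fun y => sy i f y * |rg i f y| ^ q) x / T (fun _ => ρ) (sy i f) x) :=
      hu2.trans (mul_le_mul hρq hj (Real.rpow_nonneg (div_nonneg hT0 (hS x).le) _) h0)
    rw [sy_T]
    have := mul_le_mul_of_nonneg_left hu3 (mul_nonneg (hsy x) (hS x).le)
    refine this.trans (le_of_eq ?_)
    have := (hS x).ne'
    field_simp
  refine (E_mono hp).trans (le_of_eq ?_)
  rw [E_const_mul, T_selfadj]
  congr 1
  exact E_congr fun x => by rw [sy_T]; ring

lemma nu_le_two (i : ι) {f F : (ι → Bool) → ℝ} (hf : ∀ x, 0 ≤ f x) (hF : ∀ x, 0 ≤ F x)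
    (h : (ι → Bool) → ℝ) (h0 : ∀ x, 0 ≤ h x) (hh : ∀ x, h (fl i x) = h x) :
    E (fun x => f x * F x * h x) ≤ 2 * E (fun x => sy i f x * sy i F x * h x) := by
  rw [E_mul_sy i (fun x => f x * F x) h hh, ← E_const_mul]
  refine E_mono fun x => ?_
  rw [← mul_assoc]
  refine mul_le_mul_of_nonneg_right ?_ (h0 x)
  unfold sy
  nlinarith [mul_nonneg (hf x) (hF (fl i x)), mul_nonneg (hf (fl i x)) (hF x)]

lemma mgf_ker {ρ : ℝ} (h0 : 0 ≤ ρ) (h1 : ρ ≤ 1) (θ : ι → ℝ) (hθ : ∀ i, |θ i| ≤ 1 / 2)
    (x : ι → Bool) :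
    E (fun y => ker (fun _ => ρ) x y *
      Real.exp (∑ i, (θ i * (sg (x i) * sg (y i) - ρ) - θ i ^ 2))) ≤ 1 := by
  unfold ker
  simp only [Real.exp_sum, ← prod_mul_distrib]
  rw [E_prod (fun i b => (1 + ρ * (sg (x i) * sg b)) *
    Real.exp (θ i * (sg (x i) * sg b - ρ) - θ i ^ 2))]
  refine prod_le_one (fun i _ => ?_) (fun i _ => ?_)
  · have := ker_fac_nonneg h0 h1 (x i) true
    have := ker_fac_nonneg h0 h1 (x i) false
    positivity
  · have := mgf_two_point h0 h1 (hθ i)
    cases x i
    · simp only [sg_true, sg_false]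
      refine le_trans (le_of_eq ?_) this
      ring_nf
    · simp only [sg_true, sg_false]
      refine le_trans (le_of_eq ?_) this
      ring_nf

lemma T_mul_sign (ρ : ℝ) (i : ι) (f : (ι → Bool) → ℝ) (x : ι → Bool) :
    ρ * T (fun _ => ρ) (fun y => f y * (sg (x i) * sg (y i) - ρ)) x
      = (1 - ρ ^ 2) * ay i (T (fun _ => ρ) f) x := by
  unfold ay T
  rw [← E_sub, ← E_div_const, ← E_const_mul, ← E_const_mul]
  refine E_congr fun y => ?_
  rw [ker_fl_left, ker_eq i]
  rcases sg_mul_cases (x i) (y i) with h | h <;> simp only [h] <;> ring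

/-- The total squared relative gradient of the noisy function is bounded by an entropy. -/
lemma energy {ρ : ℝ} (h0 : 0 < ρ) (h1 : ρ < 1) {f : (ι → Bool) → ℝ} (hf : ∀ x, 0 ≤ f x)
    (hF : ∀ x, 0 < T (fun _ => ρ) f x) :
    (1 - ρ) ^ 2 / 8 *
      ∑ i, E (fun x => sy i f x * sy i (T (fun _ => ρ) f) x * rg i (T (fun _ => ρ) f) x ^ 2)
      ≤ E (fun x => f x * T (fun _ => ρ) f x *
          (Real.log (f x) - Real.log (T (fun _ => ρ) f x))) := by
  set F := T (fun _ => ρ) f with hFdef
  set t : ℝ := (1 - ρ ^ 2) / 4 with ht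
  have ht0 : 0 < t := by rw [ht]; nlinarith
  have ht1 : t ≤ 1 / 4 := by rw [ht]; nlinarith
  have hF0 : ∀ x, 0 ≤ F x := fun x => (hF x).le
  have hk := ker_nonneg (r := fun _ : ι => ρ) (fun _ => h0.le) (fun _ => h1.le)
  set S : (ι → Bool) → (ι → Bool) → ℝ := fun x y =>
    ∑ i, (t * rg i F x * (sg (x i) * sg (y i) - ρ) - (t * rg i F x) ^ 2) with hS
  have key : ∀ x y, f x * (ker (fun _ => ρ) x y * f y) *
      (S x y + Real.log (F x) - Real.log (f y)) ≤
      f x * F x * (ker (fun _ => ρ) x y * Real.exp (S x y)) - f x * (ker (fun _ => ρ) x y * f y) := by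
    intro x y
    rcases (hf y).eq_or_lt with h | h
    · rw [← h]
      have := mul_nonneg (mul_nonneg (hf x) (hF0 x)) (mul_nonneg (hk x y) (Real.exp_pos (S x y)).le)
      simpa using this
    · have g := gibbs (f x * (ker (fun _ => ρ) x y * f y))
        (S x y + Real.log (F x) - Real.log (f y))
        (mul_nonneg (hf x) (mul_nonneg (hk x y) (hf y)))
      rw [Real.exp_sub, Real.exp_add, Real.exp_log (hF x), Real.exp_log h] at g
      refine g.trans (le_of_eq ?_)
      field_simp
  have s1 := E_mono fun x => E_mono (key x)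
  have r1 : E (fun x => E (fun y => f x * F x * (ker (fun _ => ρ) x y * Real.exp (S x y))
      - f x * (ker (fun _ => ρ) x y * f y))) ≤ 0 := by
    rw [← E_const (Ω := ι → Bool) 0]
    refine E_mono fun x => ?_
    rw [E_sub, E_const_mul, E_const_mul]
    have hm := mgf_ker h0.le h1.le (fun i => t * rg i F x) (fun i => by
      rw [abs_mul, abs_of_pos ht0]
      have := abs_rg_le i hF0 x
      nlinarith) x
    have := mul_le_mul_of_nonneg_left hm (mul_nonneg (hf x) (hF0 x))
    have e : E (fun y => ker (fun _ => ρ) x y * f y) = F x := rfl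
    rw [e]
    linarith
  have l1 : E (fun x => E (fun y => f x * (ker (fun _ => ρ) x y * f y) *
      (S x y + Real.log (F x) - Real.log (f y))))
      = ∑ i, (t * E (fun x => f x * (rg i F x *
            T (fun _ => ρ) (fun y => f y * (sg (x i) * sg (y i) - ρ)) x))
          - t ^ 2 * E (fun x => f x * F x * rg i F x ^ 2))
        + E (fun x => f x * F x * Real.log (F x))
        - E (fun x => f x * T (fun _ => ρ) (fun y => f y * Real.log (f y)) x) := by
    simp only [← E_const_mul t, ← E_const_mul (t ^ 2), ← E_sub]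
    rw [← E_sum, ← E_add, ← E_sub]
    refine E_congr fun x => ?_
    have e : F x = E (fun y => ker (fun _ => ρ) x y * f y) := rfl
    have e1 : ∀ i, t * (f x * (rg i F x *
            T (fun _ => ρ) (fun y => f y * (sg (x i) * sg (y i) - ρ)) x))
          - t ^ 2 * (f x * F x * rg i F x ^ 2)
        = E (fun y => f x * (ker (fun _ => ρ) x y * f y) *
          (t * rg i F x * (sg (x i) * sg (y i) - ρ) - (t * rg i F x) ^ 2)) := by
      intro i
      have : t ^ 2 * (f x * F x * rg i F x ^ 2) = (t ^ 2 * f x * rg i F x ^ 2) * F x := by ring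
      rw [this]
      conv_lhs => rw [e]
      unfold T
      rw [← E_const_mul, ← E_const_mul, ← E_const_mul, ← E_const_mul, ← E_sub]
      exact E_congr fun y => by ring
    have e2 : f x * F x * Real.log (F x)
        = E (fun y => f x * (ker (fun _ => ρ) x y * f y) * Real.log (F x)) := by
      rw [E_mul_const, E_const_mul, ← e]
    simp only [e1]
    rw [← E_sum, e2]
    unfold T
    rw [← E_const_mul, ← E_add, ← E_sub]
    refine E_congr fun y => ?_
    rw [← mul_sum]
    simp only [hS]; ring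
  have l2 : E (fun x => f x * T (fun _ => ρ) (fun y => f y * Real.log (f y)) x)
      = E (fun x => f x * F x * Real.log (f x)) := by
    rw [T_selfadj]; exact E_congr fun x => by rw [← hFdef]; ring
  have l3 : ∀ i, (1 - ρ) ^ 2 / 8 * E (fun x => sy i f x * sy i F x * rg i F x ^ 2) ≤
      t * E (fun x => f x * (rg i F x *
            T (fun _ => ρ) (fun y => f y * (sg (x i) * sg (y i) - ρ)) x))
          - t ^ 2 * E (fun x => f x * F x * rg i F x ^ 2) := by
    intro i
    set B := E (fun x => sy i f x * sy i F x * rg i F x ^ 2) with hB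
    have hB0 : 0 ≤ B := E_nonneg fun x =>
      mul_nonneg (mul_nonneg (sy_nonneg i hf x) (sy_nonneg i hF0 x)) (sq_nonneg _)
    have a1 : E (fun x => f x * F x * rg i F x ^ 2) ≤ 2 * B :=
      nu_le_two i hf hF0 _ (fun x => sq_nonneg _) (fun x => by rw [rg_fl]; ring)
    have a2 : ρ * E (fun x => f x * (rg i F x *
            T (fun _ => ρ) (fun y => f y * (sg (x i) * sg (y i) - ρ)) x)) = (1 - ρ ^ 2) * B := by
      have b1 : B = E (fun x => f x * (rg i F x * ay i F x)) := by
        rw [E_mul_sy i f _ (fun x => by rw [rg_fl, ay_fl]; ring), hB]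
        exact E_congr fun x => by rw [← sy_mul_rg i hF0 x]; ring
      rw [b1, ← E_const_mul, ← E_const_mul]
      refine E_congr fun x => ?_
      have := T_mul_sign ρ i f x
      rw [← hFdef] at this
      calc _ = f x * rg i F x *
            (ρ * T (fun _ => ρ) (fun y => f y * (sg (x i) * sg (y i) - ρ)) x) := by ring
        _ = _ := by rw [this]; ring
    set X := E (fun x => f x * (rg i F x *
            T (fun _ => ρ) (fun y => f y * (sg (x i) * sg (y i) - ρ)) x))
    have h4t : 1 - ρ ^ 2 = 4 * t := by rw [ht]; ring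
    rw [h4t] at a2
    have hX0 : 0 ≤ X := by
      have : 0 ≤ ρ * X := by rw [a2]; positivity
      exact nonneg_of_mul_nonneg_right this h0
    have a3 : 4 * t * B ≤ X := by nlinarith
    have a4 : (1 - ρ) ^ 2 / 8 ≤ 2 * t ^ 2 := by
      have : 1 - ρ ≤ 4 * t := by rw [← h4t]; nlinarith
      nlinarith
    have a5 := mul_le_mul_of_nonneg_right a4 hB0
    have a6 := mul_le_mul_of_nonneg_left a3 ht0.le
    have a7 := mul_le_mul_of_nonneg_left a1 (sq_nonneg t)
    nlinarith
  rw [l1, l2] at s1
  have l4 := sum_le_sum fun i (_ : i ∈ univ) => l3 i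
  rw [← mul_sum] at l4
  have e : E (fun x => f x * F x * (Real.log (f x) - Real.log (F x)))
      = E (fun x => f x * F x * Real.log (f x)) - E (fun x => f x * F x * Real.log (F x)) := by
    rw [← E_sub]; exact E_congr fun x => by ring
  rw [e]
  linarith

/-- From small gradients in the directions of `U` to large density in the subcubes spanned
by `U`. -/
lemma density_bound {σ : ℝ} (h0 : 0 ≤ σ) (h1 : σ ≤ 1) (A : Finset (ι → Bool)) (U : Finset ι)
    {f : (ι → Bool) → ℝ} (hf : ∀ x, 0 ≤ f x) (hfA : ∀ x, x ∉ A → f x = 0)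
    (hg : ∀ x, 0 < T (fun _ => σ) f x) (hF : ∀ x, 0 < T (fun _ => σ * σ) f x)
    (hn : E (fun x => f x * T (fun _ => σ * σ) f x) = 1) :
    - E (fun x => f x * T (fun _ => σ * σ) f x * Real.log (T (off U) (ind A) x)) ≤
      ∑ i ∈ U, E (fun x => (T (fun _ => σ) f x - T (fun _ => σ) f (fl i x)) ^ 2)
      + E (fun x => f x * T (fun _ => σ * σ) f x *
          (Real.log (f x) - Real.log (T (fun _ => σ * σ) f x))) := by
  set F := T (fun _ => σ * σ) f with hFdef
  set g := T (fun _ => σ) f with hgdef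
  set a := T (off U) (ind A) with ha
  set H := T (off U) (fun y => g y ^ 2) with hH
  have hk := ker_nonneg (r := fun _ : ι => σ) (fun _ => h0) (fun _ => h1)
  have hTg : ∀ x, T (fun _ => σ) g x = F x := fun x => T_T _ _ f x
  have hg2 : E (fun x => g x ^ 2) = 1 := by
    rw [← hn, ← E_sq_T (fun _ => σ) f f]; exact E_congr fun x => by ring
  have hHpos : ∀ v, 0 < H v := fun v =>
    E_pos (fun y => mul_nonneg (ker_nonneg (off_nonneg U) (off_le_one U) v y) (sq_nonneg _))
      (x := v) (mul_pos (by linarith [one_le_ker_diag (off_nonneg U) v]) (pow_pos (hg v) 2))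
  have ha0 : ∀ x, 0 ≤ a x := T_nonneg (off_nonneg U) (off_le_one U) (ind_nonneg A)
  have key : ∀ x v, f x * (ker (fun _ => σ) x v * g v) *
      ((Real.log (H v) - Real.log (g v ^ 2)) + (Real.log (F x) - Real.log (f x) - Real.log (a x)))
      ≤ (a x)⁻¹ * ind A x * (ker (fun _ => σ) x v * H v) + f x * F x * ker (fun _ => σ) x v
        - 2 * (f x * (ker (fun _ => σ) x v * g v)) := by
    intro x v
    rcases (hf x).eq_or_lt with h | h
    · rw [← h]
      have := mul_nonneg (mul_nonneg (inv_nonneg.mpr (ha0 x)) (ind_nonneg A x))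
        (mul_nonneg (hk x v) (hHpos v).le)
      simpa using this
    · have hx : x ∈ A := by
        by_contra hx; rw [hfA x hx] at h; exact lt_irrefl _ h
      have hax : 0 < a x := T_ind_pos A U hx
      have hp : 0 ≤ f x * (ker (fun _ => σ) x v * g v) :=
        mul_nonneg (hf x) (mul_nonneg (hk x v) (hg v).le)
      have g1 := gibbs _ (Real.log (H v) - Real.log (a x) - Real.log (g v) - Real.log (f x)) hp
      have g2 := gibbs _ (Real.log (F x) - Real.log (g v)) hp
      rw [Real.exp_sub, Real.exp_sub, Real.exp_sub, Real.exp_log (hHpos v), Real.exp_log hax,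
        Real.exp_log (hg v), Real.exp_log h] at g1
      rw [Real.exp_sub, Real.exp_log (hF x), Real.exp_log (hg v)] at g2
      have hgv := (hg v).ne'
      have e1 : f x * (ker (fun _ => σ) x v * g v) * (H v / a x / g v / f x)
          = (a x)⁻¹ * ind A x * (ker (fun _ => σ) x v * H v) := by
        simp only [ind, hx, if_true]; field_simp
      have e2 : f x * (ker (fun _ => σ) x v * g v) * (F x / g v)
          = f x * F x * ker (fun _ => σ) x v := by field_simp
      rw [e1] at g1; rw [e2] at g2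
      rw [Real.log_pow]
      push_cast
      linarith
  have s1 := E_mono fun x => E_mono (key x)
  have r1 : E (fun x => E (fun v => (a x)⁻¹ * ind A x * (ker (fun _ => σ) x v * H v)
      + f x * F x * ker (fun _ => σ) x v - 2 * (f x * (ker (fun _ => σ) x v * g v))))
      = E (fun x => ((a x)⁻¹ * T (fun _ => σ) H x) * ind A x) - 1 := by
    rw [← hn, ← E_sub]
    refine E_congr fun x => ?_
    rw [E_sub, E_add, E_const_mul, E_const_mul, E_const_mul, E_const_mul, E_ker]
    have e : E (fun v => ker (fun _ => σ) x v * g v) = F x := hTg x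
    have e' : E (fun v => ker (fun _ => σ) x v * H v) = T (fun _ => σ) H x := rfl
    rw [e, e']; ring
  have r2 : E (fun x => ((a x)⁻¹ * T (fun _ => σ) H x) * ind A x) ≤ 1 := by
    rw [E_mul_off (U := U) _ (ind A) (fun x y hxy => by
      rw [ha, T_off_inv U _ x y hxy, hH, T_T, T_T,
        T_congr_off (U := U) (fun j hj => by simp [off, hj]) _ hxy])]
    rw [← hg2, ← E_T (off U) (fun y => g y ^ 2), ← hH, ← E_T (fun _ => σ) H]
    refine E_mono fun x => ?_
    rw [← ha]
    have hTH : 0 ≤ T (fun _ => σ) H x :=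
      T_nonneg (fun _ => h0) (fun _ => h1) (fun v => (hHpos v).le) x
    rcases (ha0 x).eq_or_lt with h | h
    · rw [← h]; simpa using hTH
    · exact le_of_eq (by field_simp)
  have l1 : E (fun x => E (fun v => f x * (ker (fun _ => σ) x v * g v) *
      ((Real.log (H v) - Real.log (g v ^ 2)) + (Real.log (F x) - Real.log (f x) - Real.log (a x)))))
      = E (fun x => f x * T (fun _ => σ)
          (fun v => g v * (Real.log (H v) - Real.log (g v ^ 2))) x)
        + E (fun x => f x * F x * (Real.log (F x) - Real.log (f x) - Real.log (a x))) := by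
    rw [← E_add]
    refine E_congr fun x => ?_
    rw [← hTg x]
    unfold T
    rw [← E_const_mul, ← E_const_mul, ← E_mul_const, ← E_add]
    exact E_congr fun v => by ring
  have l2 : E (fun x => f x * T (fun _ => σ)
          (fun v => g v * (Real.log (H v) - Real.log (g v ^ 2))) x)
      = E (fun x => g x ^ 2 * Real.log (H x)) - E (fun x => g x ^ 2 * Real.log (g x ^ 2)) := by
    rw [T_selfadj, ← E_sub]
    exact E_congr fun x => by rw [← hgdef]; ring
  have l3 : E (fun x => f x * F x * (Real.log (F x) - Real.log (f x) - Real.log (a x)))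
      = - E (fun x => f x * F x * (Real.log (f x) - Real.log (F x)))
        - E (fun x => f x * F x * Real.log (a x)) := by
    rw [← E_neg, ← E_sub]
    exact E_congr fun x => by ring
  have hl := lsi g U
  rw [r1, l1, l2, l3] at s1
  rw [← hH] at hl
  linarith

end Pool.Agent.H71Z.KK
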