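import Mathlib

/-! From product measures to product sets. -/

set_option linter.unusedSectionVars false

namespace Pool.Agent.H71Z.KK

open Finset

lemma top_set {κ : Type*} [Fintype κ] [DecidableEq κ] (ν g : κ → ℝ) (h0 : ∀ u, 0 ≤ ν u)
    (h1 : ∑ u, ν u = 1) (t : ℕ) (ht : 1 ≤ t) (htk : t ≤ Fintype.card κ)
    (hν : ∀ u, ν u * t ≤ 1) : ∃ T : Finset κ, T.card = t ∧ (∑ u, ν u * g u) * t ≤ ∑ u ∈ T, g u := by
  obtain ⟨T, hT, hmax⟩ := exists_max_image (powersetCard t (univ : Finset κ))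
    (fun T => ∑ u ∈ T, g u) (powersetCard_nonempty.mpr (by simpa using htk))
  have hc : T.card = t := (mem_powersetCard.mp hT).2
  have hne : T.Nonempty := card_pos.mp (by omega)
  obtain ⟨a, ha, hmin⟩ := exists_min_image T g hne
  have hout : ∀ b, b ∉ T → g b ≤ g a := by
    intro b hb
    have hb' : b ∉ T.erase a := fun h => hb (mem_of_mem_erase h)
    have := hmax (insert b (T.erase a)) (mem_powersetCard.mpr ⟨subset_univ _, by
      rw [card_insert_of_notMem hb', card_erase_of_mem ha]; omega⟩)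
    rw [sum_insert hb', ← add_sum_erase T g ha] at this
    linarith
  refine ⟨T, hc, ?_⟩
  have ht0 : (0 : ℝ) ≤ t := Nat.cast_nonneg t
  have e1 : (∑ u, ν u * g u) * t = ∑ u ∈ T, ν u * t * g u + ∑ u ∈ Tᶜ, ν u * t * g u := by
    rw [sum_add_sum_compl, sum_mul]; exact sum_congr rfl fun u _ => by ring
  have e2 : ∑ u ∈ T, ν u * t * g a + ∑ u ∈ Tᶜ, ν u * t * g a = t * g a := by
    rw [sum_add_sum_compl, ← sum_mul, ← sum_mul, h1, one_mul]
  have a1 : ∑ u ∈ Tᶜ, ν u * t * g u ≤ ∑ u ∈ Tᶜ, ν u * t * g a :=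
    sum_le_sum fun u hu => mul_le_mul_of_nonneg_left (hout u (mem_compl.mp hu))
      (mul_nonneg (h0 u) ht0)
  have a2 : ∑ u ∈ T, ν u * t * g u - ∑ u ∈ T, ν u * t * g a ≤ ∑ u ∈ T, g u - ∑ _u ∈ T, g a := by
    rw [← sum_sub_distrib, ← sum_sub_distrib]
    refine sum_le_sum fun u hu => ?_
    have := mul_le_mul_of_nonneg_right (hν u) (sub_nonneg.mpr (hmin u hu))
    linarith
  rw [sum_const, hc, nsmul_eq_mul] at a2
  linarith

lemma top_set_real {κ : Type*} [Fintype κ] [DecidableEq κ] (ν g : κ → ℝ) (h0 : ∀ u, 0 ≤ ν u)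
    (h1 : ∑ u, ν u = 1) (b : ℝ) (hb : ∀ u, ν u ≤ b) :
    ∃ T : Finset κ, T.Nonempty ∧ 1 ≤ 2 * b * T.card ∧ (∑ u, ν u * g u) * T.card ≤ ∑ u ∈ T, g u := by
  have hk : (1 : ℝ) ≤ Fintype.card κ * b := by
    rw [← h1]
    calc ∑ u, ν u ≤ ∑ _u : κ, b := sum_le_sum fun u _ => hb u
      _ = _ := by simp
  have hb0 : 0 < b := by
    by_contra hn
    have : (Fintype.card κ : ℝ) * b ≤ 0 :=
      mul_nonpos_of_nonneg_of_nonpos (Nat.cast_nonneg _) (not_lt.mp hn)
    linarith
  have hk1 : 1 ≤ Fintype.card κ := by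
    rcases Nat.eq_zero_or_pos (Fintype.card κ) with h | h
    · rw [h] at hk; simp at hk; linarith
    · exact h
  have hle1 : ∀ u, ν u ≤ 1 := fun u => by
    rw [← h1]; exact single_le_sum (fun v _ => h0 v) (mem_univ u)
  rcases le_or_gt 1 b⁻¹ with h | h
  · have hf1 : 1 ≤ ⌊b⁻¹⌋₊ := Nat.le_floor (by simpa using h)
    have hf2 : (⌊b⁻¹⌋₊ : ℝ) ≤ b⁻¹ := Nat.floor_le (by positivity)
    have hf3 : b⁻¹ < ⌊b⁻¹⌋₊ + 1 := Nat.lt_floor_add_one _
    have hf4 : (1 : ℝ) ≤ ⌊b⁻¹⌋₊ := by exact_mod_cast hf1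
    have hbb : b * b⁻¹ = 1 := mul_inv_cancel₀ hb0.ne'
    obtain ⟨T, hT, hg⟩ := top_set ν g h0 h1 ⌊b⁻¹⌋₊ hf1 (by
      have : b⁻¹ ≤ Fintype.card κ := by
        rw [inv_le_iff_one_le_mul₀ hb0]; exact hk
      exact_mod_cast hf2.trans this) (fun u => by
      calc ν u * ⌊b⁻¹⌋₊ ≤ b * b⁻¹ := mul_le_mul (hb u) hf2 (by positivity) hb0.le
        _ = 1 := hbb)
    refine ⟨T, card_pos.mp (by omega), ?_, by rwa [hT]⟩
    rw [hT]
    have := mul_le_mul_of_nonneg_left (by linarith : b⁻¹ ≤ 2 * (⌊b⁻¹⌋₊ : ℝ)) hb0.le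
    linarith
  · obtain ⟨T, hT, hg⟩ := top_set ν g h0 h1 1 le_rfl hk1 (fun u => by simpa using hle1 u)
    refine ⟨T, card_pos.mp (by omega), ?_, by rwa [hT]⟩
    rw [hT]
    have : 1 < b := by
      rwa [inv_lt_one_iff₀, or_iff_right (not_le.mpr hb0)] at h
    push_cast; linarith

variable {ι κ : Type*} [Fintype ι] [DecidableEq ι] [Fintype κ] [DecidableEq κ]

/-- The mass of `A` under a product of weights. -/
noncomputable def pmass (A : Finset (ι → κ)) (μ : ι → κ → ℝ) : ℝ := ∑ x ∈ A, ∏ i, μ i (x i)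

lemma prod_update_eq (μ : ι → κ → ℝ) (i : ι) (a : κ → ℝ) (x : ι → κ) :
    ∏ j, Function.update μ i a j (x j) = a (x i) * ∏ j ∈ univ.erase i, μ j (x j) := by
  rw [← mul_prod_erase univ _ (mem_univ i), Function.update_self]
  congr 1
  exact prod_congr rfl fun j hj => by rw [Function.update_of_ne (ne_of_mem_erase hj)]

lemma pmass_update (A : Finset (ι → κ)) (μ : ι → κ → ℝ) (i : ι) (a : κ → ℝ) :
    pmass A (Function.update μ i a) =
      ∑ u, a u * ∑ x ∈ A, (if x i = u then ∏ j ∈ univ.erase i, μ j (x j) else 0) := by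
  unfold pmass
  simp only [prod_update_eq, mul_sum]
  rw [sum_comm]
  refine sum_congr rfl fun x _ => ?_
  simp

/-- Uniform weight on a set. -/
noncomputable def unif (T : Finset κ) (u : κ) : ℝ := if u ∈ T then (T.card : ℝ)⁻¹ else 0

lemma unif_nonneg (T : Finset κ) (u : κ) : 0 ≤ unif T u := by
  unfold unif; split_ifs <;> positivity

lemma sum_unif_mul (T : Finset κ) (g : κ → ℝ) : ∑ u, unif T u * g u = (∑ u ∈ T, g u) / T.card := by
  unfold unif
  simp only [ite_mul, zero_mul]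
  rw [← sum_filter, ← mul_sum, div_eq_inv_mul]
  simp

lemma replace_aux (A : Finset (ι → κ)) (ν : ι → κ → ℝ) (h0 : ∀ i u, 0 ≤ ν i u) (l : ℝ)
    (hl : 0 ≤ l) (P : ι → Finset κ → Prop)
    (hP : ∀ i, ∀ g : κ → ℝ, (∀ u, 0 ≤ g u) →
      ∃ T, P i T ∧ ∑ u, ν i u * g u ≤ l * ∑ u, unif T u * g u) (U : Finset ι) :
    ∃ T : ι → Finset κ, (∀ i ∈ U, P i (T i)) ∧
      pmass A ν ≤ l ^ U.card * pmass A (fun i => if i ∈ U then unif (T i) else ν i) := by
  induction U using Finset.induction_on with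
  | empty => exact ⟨fun _ => ∅, by simp, by simp⟩
  | insert i U hi ih =>
    obtain ⟨T, hT, hle⟩ := ih
    set μ : ι → κ → ℝ := fun i => if i ∈ U then unif (T i) else ν i with hμ
    have hμ0 : ∀ j u, 0 ≤ μ j u := fun j u => by
      simp only [hμ]; split_ifs
      · exact unif_nonneg _ _
      · exact h0 _ _
    obtain ⟨T0, hT0, h2⟩ := hP i
      (fun u => ∑ x ∈ A, (if x i = u then ∏ j ∈ univ.erase i, μ j (x j) else 0))
      (fun u => sum_nonneg fun x _ => by
        split_ifs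
        · exact prod_nonneg fun j _ => hμ0 _ _
        · exact le_rfl)
    rw [← pmass_update, ← pmass_update] at h2
    have e1 : Function.update μ i (ν i) = μ := by
      funext j
      by_cases h : j = i
      · subst h; simp [hμ, hi]
      · simp [h]
    have e2 : Function.update μ i (unif T0) =
        fun j => if j ∈ insert i U then unif (Function.update T i T0 j) else ν j := by
      funext j
      by_cases h : j = i
      · subst h; simp
      · simp [h, hμ]
    rw [e1, e2] at h2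
    refine ⟨Function.update T i T0, fun j hj => ?_, ?_⟩
    · by_cases h : j = i
      · subst h; simpa using hT0
      · rw [Function.update_of_ne h]; exact hT j (by simpa [h] using hj)
    · rw [card_insert_of_notMem hi, pow_succ, mul_assoc]
      exact hle.trans (mul_le_mul_of_nonneg_left h2 (by positivity))

lemma pmass_unif (A : Finset (ι → κ)) (T : ι → Finset κ) :
    pmass A (fun i => unif (T i)) =
      ((A ∩ Fintype.piFinset T).card : ℝ) / ((Fintype.piFinset T).card : ℝ) := by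
  unfold pmass
  have e : ∀ x : ι → κ, ∏ i, unif (T i) (x i) =
      if x ∈ Fintype.piFinset T then ((Fintype.piFinset T).card : ℝ)⁻¹ else 0 := by
    intro x
    split_ifs with h
    · rw [Fintype.card_piFinset]
      push_cast
      rw [← prod_inv_distrib]
      exact prod_congr rfl fun i _ => by simp [unif, Fintype.mem_piFinset.mp h i]
    · rw [Fintype.mem_piFinset] at h
      push Not at h
      obtain ⟨i, hi⟩ := h
      exact prod_eq_zero (mem_univ i) (by simp [unif, hi])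
  simp only [e]
  rw [← sum_filter, sum_const, nsmul_eq_mul, filter_mem_eq_inter, div_eq_mul_inv]

/-- A product measure can be replaced by the uniform measure on a product set. -/
theorem replace (A : Finset (ι → κ)) (ν : ι → κ → ℝ) (h0 : ∀ i u, 0 ≤ ν i u) (l : ℝ)
    (hl : 0 ≤ l) (P : ι → Finset κ → Prop)
    (hP : ∀ i, ∀ g : κ → ℝ, (∀ u, 0 ≤ g u) →
      ∃ T, P i T ∧ ∑ u, ν i u * g u ≤ l * ((∑ u ∈ T, g u) / T.card)) :
    ∃ T : ι → Finset κ, (∀ i, P i (T i)) ∧ pmass A ν ≤ l ^ Fintype.card ι *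
      (((A ∩ Fintype.piFinset T).card : ℝ) / ((Fintype.piFinset T).card : ℝ)) := by
  obtain ⟨T, hT, h⟩ := replace_aux A ν h0 l hl P (by simpa only [sum_unif_mul] using hP) univ
  refine ⟨T, fun i => hT i (mem_univ i), ?_⟩
  simpa only [mem_univ, if_true, pmass_unif, card_univ] using h

lemma sum_update (F : (ι → κ) → ℝ) (i : ι) :
    ∑ ω : ι → κ, ∑ o : κ, F (Function.update ω i o) = Fintype.card κ * ∑ ω, F ω := by
  have h := Fintype.sum_equiv (Function.Involutive.toPerm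
    (fun p : (ι → κ) × κ => (Function.update p.1 i p.2, p.1 i)) (fun p => by simp))
    (fun p => F (Function.update p.1 i p.2)) (fun p => F p.1) (fun p => rfl)
  rw [Fintype.sum_prod_type, Fintype.sum_prod_type] at h
  rw [h, mul_sum]
  simp

/-- Summing over a product of fibres. -/
lemma sum_comp_eq {Ω : Type*} [Fintype Ω] [DecidableEq Ω] (ψ : ι → Ω → κ) (W : ι → Finset Ω)
    (G : (ι → κ) → ℝ) :
    ∑ ω ∈ Fintype.piFinset W, G (fun i => ψ i (ω i)) =
      ∑ x : ι → κ, G x * ∏ i, (((W i).filter fun o => ψ i o = x i).card : ℝ) := by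
  rw [← sum_fiberwise (s := Fintype.piFinset W) (g := fun ω : ι → Ω => fun i => ψ i (ω i))]
  refine sum_congr rfl fun x _ => ?_
  rw [sum_congr rfl (g := fun _ => G x) (fun ω hω => by rw [(mem_filter.mp hω).2]), sum_const,
    nsmul_eq_mul, mul_comm]
  congr 1
  rw [← Nat.cast_prod, ← Fintype.card_piFinset]
  congr 2
  ext ω
  simp only [mem_filter, Fintype.mem_piFinset, funext_iff]
  exact ⟨fun h i => ⟨h.1 i, h.2 i⟩, fun h => ⟨fun i => (h i).1, fun i => (h i).2⟩⟩

end Pool.Agent.H71Z.KK
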