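import Pool.Agent.H71Z.KK.Basic

/-! Binary encoding of a path. -/

set_option linter.unusedSectionVars false

namespace Pool.Agent.H71Z.KK

open Finset

/-- Value of a bit string. -/
def bval {m : ℕ} (b : Fin m → Bool) : ℕ := ∑ j, if b j then 2 ^ (j : ℕ) else 0

/-- Bit strings as numbers below `2 ^ m`. -/
def bitEquiv (m : ℕ) : (Fin m → Bool) ≃ Fin (2 ^ m) :=
  (Equiv.arrowCongr (Equiv.refl _) finTwoEquiv.symm).trans finFunctionFinEquiv

lemma bitEquiv_val {m : ℕ} (b : Fin m → Bool) : (bitEquiv m b : ℕ) = bval b := by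
  unfold bitEquiv bval
  rw [Equiv.trans_apply, finFunctionFinEquiv_apply]
  refine sum_congr rfl fun j _ => ?_
  simp only [Equiv.arrowCongr_apply, Equiv.refl_symm, Equiv.coe_refl, Function.comp, id]
  cases b j <;> simp [finTwoEquiv]

lemma bval_fl {m : ℕ} (b : Fin m → Bool) (j : Fin m) :
    bval (fl j b) = bval b + 2 ^ (j : ℕ) ∨ bval b = bval (fl j b) + 2 ^ (j : ℕ) := by
  unfold bval
  rw [← add_sum_erase univ _ (mem_univ j), ← add_sum_erase univ
    (fun j => if b j then 2 ^ (j : ℕ) else 0) (mem_univ j)]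
  have e : ∑ x ∈ univ.erase j, (if fl j b x then 2 ^ (x : ℕ) else 0)
      = ∑ x ∈ univ.erase j, (if b x then 2 ^ (x : ℕ) else 0) :=
    sum_congr rfl fun x hx => by rw [fl_ne (ne_of_mem_erase hx)]
  rw [e, fl_self]
  cases b j <;> simp <;> omega

/-- A block index together with a bit string, as a number. -/
def cellEquiv (H m : ℕ) : Fin H × (Fin m → Bool) ≃ Fin (H * 2 ^ m) :=
  (Equiv.prodCongr (Equiv.refl _) (bitEquiv m)).trans finProdFinEquiv

/-- The number encoded by a block index and a bit string. -/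
def cval {H m : ℕ} (o : Fin H × (Fin m → Bool)) : ℕ := cellEquiv H m o

lemma cval_eq {H m : ℕ} (o : Fin H × (Fin m → Bool)) : cval o = bval o.2 + 2 ^ m * o.1 := by
  obtain ⟨t, b⟩ := o
  simp [cval, cellEquiv, finProdFinEquiv, bitEquiv_val]

lemma cval_inj {H m : ℕ} : Function.Injective (cval (H := H) (m := m)) :=
  fun _ _ h => (cellEquiv H m).injective (Fin.ext h)

lemma cval_lt {H m : ℕ} (o : Fin H × (Fin m → Bool)) : cval o < H * 2 ^ m := (cellEquiv H m o).2

lemma cval_surj {H m a : ℕ} (ha : a < H * 2 ^ m) : ∃ o : Fin H × (Fin m → Bool), cval o = a :=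
  ⟨(cellEquiv H m).symm ⟨a, ha⟩, by simp [cval]⟩

lemma cval_fl {H m : ℕ} (o : Fin H × (Fin m → Bool)) (j : Fin m) :
    cval (o.1, fl j o.2) = cval o + 2 ^ (j : ℕ) ∨ cval o = cval (o.1, fl j o.2) + 2 ^ (j : ℕ) := by
  rw [cval_eq, cval_eq]
  rcases bval_fl o.2 j with h | h
  · left; simp only [h]; ring
  · right; simp only; omega

lemma card_le_of_cval {H m : ℕ} (P : Fin H × (Fin m → Bool) → Prop) [DecidablePred P] (a b : ℕ)
    (h : ∀ o, P o → a ≤ cval o ∧ cval o < b) : (univ.filter P).card ≤ b - a := by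
  rw [← Nat.card_Ico]
  exact card_le_card_of_injOn cval (fun o ho => by
    simpa using h o (mem_filter.mp (mem_coe.mp ho)).2) cval_inj.injOn

/-- The successor on a path, constant at the last vertex. -/
def nxt {k : ℕ} (u : Fin k) : Fin k := ⟨min (u + 1) (k - 1), by have := u.2; omega⟩

lemma exists_change {k : ℕ} (g : Fin k → Prop) (u v : Fin k) (huv : u ≤ v) (h : ¬ (g u ↔ g v)) :
    ∃ c : Fin k, u ≤ c ∧ c < v ∧ ¬ (g c ↔ g (nxt c)) := by
  by_contra hc
  push Not at hc
  have key : ∀ d : ℕ, ∀ w : Fin k, (w : ℕ) = u + d → w ≤ v → (g u ↔ g w) := by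
    intro d
    induction d with
    | zero => intro w hw _; rw [show w = u from Fin.ext (by simpa using hw)]
    | succ d ih =>
      intro w hw hwv
      have hlt : (u : ℕ) + d < k := by have := w.2; omega
      have h1 := ih ⟨u + d, hlt⟩ rfl (by rw [Fin.le_def] at hwv ⊢; simp only; omega)
      have h2 := hc ⟨u + d, hlt⟩ (by rw [Fin.le_def]; simp)
        (by rw [Fin.le_def] at hwv; rw [Fin.lt_def]; simp only; omega)
      have h3 : nxt ⟨u + d, hlt⟩ = w := Fin.ext (by have := w.2; simp only [nxt]; omega)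
      rw [h3] at h2
      exact h1.trans h2
  exact h (key (v - u) v (by rw [Fin.le_def] at huv; omega) le_rfl)

/-- The cell map from the fine path to the coarse path. -/
def cell {H m k : ℕ} (hk : 0 < k) (o : Fin H × (Fin m → Bool)) : Fin k :=
  ⟨min (cval o / (H * 2 ^ m / k)) (k - 1), by omega⟩

lemma cell_fiber_le {H m k : ℕ} (hk : 0 < k) (hD : 0 < H * 2 ^ m / k) (u : Fin k) :
    (univ.filter fun o : Fin H × (Fin m → Bool) => cell hk o = u).card ≤ H * 2 ^ m / k + k := by
  set D := H * 2 ^ m / k with hDdef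
  refine (card_le_of_cval _ (u * D) (u * D + D + k) fun o ho => ?_).trans (by omega)
  have h1 : min (cval o / D) (k - 1) = u := congrArg Fin.val ho
  have h2 := cval_lt o
  have h3 : H * 2 ^ m < k * D + k := by
    have := Nat.lt_mul_div_succ (H * 2 ^ m) hk
    rw [← hDdef] at this; linarith
  have h4 := Nat.div_mul_le_self (cval o) D
  have h5 := Nat.lt_mul_div_succ (cval o) hD
  constructor
  · exact le_trans (Nat.mul_le_mul_right D (by omega)) h4
  · rcases le_total (cval o / D) (k - 1) with h | h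
    · rw [min_eq_left h] at h1
      rw [← h1]; nlinarith
    · rw [min_eq_right h] at h1
      have : k = u + 1 := by omega
      have e : k * D = u * D + D := by
        calc k * D = (u + 1) * D := congrArg (· * D) this
          _ = _ := by ring
      omega

lemma cell_fiber_ge {H m k : ℕ} (hk : 0 < k) (hD : 0 < H * 2 ^ m / k) (u : Fin k) :
    H * 2 ^ m / k ≤ (univ.filter fun o : Fin H × (Fin m → Bool) => cell hk o = u).card := by
  set D := H * 2 ^ m / k with hDdef
  have hsub : Ico (u * D) (u * D + D) ⊆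
      (univ.filter fun o : Fin H × (Fin m → Bool) => cell hk o = u).image cval := by
    intro a ha
    rw [mem_Ico] at ha
    have h1 : k * D ≤ H * 2 ^ m := Nat.mul_div_le _ _
    have h2 : (u + 1) * D ≤ k * D := Nat.mul_le_mul_right D u.2
    obtain ⟨o, ho⟩ := cval_surj (H := H) (m := m) (a := a) (by nlinarith)
    refine mem_image.mpr ⟨o, mem_filter.mpr ⟨mem_univ _, Fin.ext ?_⟩, ho⟩
    have h3 : a / D = u := by
      rw [Nat.div_eq_iff hD]; constructor <;> omega
    have := u.2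
    simp only [cell, ho, ← hDdef, h3]; omega
  have := (card_le_card hsub).trans card_image_le
  simpa using this

lemma cell_sep {H m k : ℕ} (hk : 0 < k) (hD : 0 < H * 2 ^ m / k) {o o' : Fin H × (Fin m → Bool)}
    {c : Fin k} (h1 : cell hk o ≤ c) (h2 : c < cell hk o') :
    cval o < (c + 1) * (H * 2 ^ m / k) ∧ (c + 1) * (H * 2 ^ m / k) ≤ cval o' := by
  rw [Fin.le_def] at h1
  rw [Fin.lt_def] at h2
  simp only [cell] at h1 h2
  constructor
  · rw [← Nat.div_lt_iff_lt_mul hD]; omega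
  · rw [← Nat.le_div_iff_mul_le hD]; omega

lemma cell_changes {H m k : ℕ} (hk : 0 < k) (hD : 0 < H * 2 ^ m / k) (g : Fin k → Prop)
    [DecidablePred g] :
    ∑ o : Fin H × (Fin m → Bool), ∑ j : Fin m,
        (if g (cell hk o) ∧ ¬ g (cell hk (o.1, fl j o.2)) then (1 : ℝ) else 0)
      ≤ 2 * 2 ^ m * ∑ c : Fin k, (if ¬ (g c ↔ g (nxt c)) then (1 : ℝ) else 0) := by
  set D := H * 2 ^ m / k with hDdef
  have h1 : ∀ (j : Fin m) (o : Fin H × (Fin m → Bool)),
      (if g (cell hk o) ∧ ¬ g (cell hk (o.1, fl j o.2)) then (1 : ℝ) else 0) ≤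
      ∑ c : Fin k, (if ¬ (g c ↔ g (nxt c)) then (1 : ℝ) else 0) *
        (if (c + 1) * D - 2 ^ (j : ℕ) ≤ cval o ∧ cval o < (c + 1) * D + 2 ^ (j : ℕ)
          then (1 : ℝ) else 0) := by
    intro j o
    have hnn : ∀ c : Fin k, 0 ≤ (if ¬ (g c ↔ g (nxt c)) then (1 : ℝ) else 0) *
        (if (c + 1) * D - 2 ^ (j : ℕ) ≤ cval o ∧ cval o < (c + 1) * D + 2 ^ (j : ℕ)
          then (1 : ℝ) else 0) := fun c => by split_ifs <;> norm_num
    by_cases hb : g (cell hk o) ∧ ¬ g (cell hk (o.1, fl j o.2))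
    · rw [if_pos hb]
      have hfl := cval_fl o j
      obtain ⟨c, hc1, hc2⟩ : ∃ c : Fin k, ¬ (g c ↔ g (nxt c)) ∧
          ((c + 1) * D - 2 ^ (j : ℕ) ≤ cval o ∧ cval o < (c + 1) * D + 2 ^ (j : ℕ)) := by
        rcases le_total (cell hk o) (cell hk (o.1, fl j o.2)) with h | h
        · obtain ⟨c, a1, a2, a3⟩ := exists_change g _ _ h (fun hh => hb.2 (hh.mp hb.1))
          have := cell_sep hk hD a1 a2
          rw [← hDdef] at this
          refine ⟨c, a3, ?_⟩
          generalize ((c : ℕ) + 1) * D = θ at this ⊢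
          generalize 2 ^ (j : ℕ) = P at hfl ⊢
          omega
        · obtain ⟨c, a1, a2, a3⟩ := exists_change g _ _ h (fun hh => hb.2 (hh.mpr hb.1))
          have := cell_sep hk hD a1 a2
          rw [← hDdef] at this
          refine ⟨c, a3, ?_⟩
          generalize ((c : ℕ) + 1) * D = θ at this ⊢
          generalize 2 ^ (j : ℕ) = P at hfl ⊢
          omega
      refine le_trans (le_of_eq ?_) (single_le_sum (fun c _ => hnn c) (mem_univ c))
      rw [if_pos hc1, if_pos hc2, mul_one]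
    · rw [if_neg hb]; exact sum_nonneg fun c _ => hnn c
  have h2 : ∀ j : Fin m, ∑ o : Fin H × (Fin m → Bool),
      (if g (cell hk o) ∧ ¬ g (cell hk (o.1, fl j o.2)) then (1 : ℝ) else 0) ≤
      2 * 2 ^ (j : ℕ) * ∑ c : Fin k, (if ¬ (g c ↔ g (nxt c)) then (1 : ℝ) else 0) := by
    intro j
    refine (sum_le_sum fun o _ => h1 j o).trans ?_
    rw [sum_comm, mul_sum]
    refine sum_le_sum fun c _ => ?_
    rw [← mul_sum, mul_comm]
    refine mul_le_mul_of_nonneg_right ?_ (by split_ifs <;> norm_num)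
    rw [sum_boole]
    have := card_le_of_cval (H := H) (m := m) (fun o => (c + 1) * D - 2 ^ (j : ℕ) ≤ cval o ∧
      cval o < (c + 1) * D + 2 ^ (j : ℕ)) _ _ (fun o ho => ho)
    have h3 : (c + 1) * D + 2 ^ (j : ℕ) - ((c + 1) * D - 2 ^ (j : ℕ)) ≤ 2 * 2 ^ (j : ℕ) := by
      generalize ((c : ℕ) + 1) * D = θ
      generalize 2 ^ (j : ℕ) = P
      omega
    exact_mod_cast this.trans h3
  rw [sum_comm]
  refine (sum_le_sum fun j _ => h2 j).trans ?_
  rw [← sum_mul, ← mul_sum]
  refine mul_le_mul_of_nonneg_right (mul_le_mul_of_nonneg_left ?_ (by norm_num))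
    (sum_nonneg fun c _ => by split_ifs <;> norm_num)
  rw [Fin.sum_univ_eq_sum_range (fun j => (2 : ℝ) ^ j) m, geom_sum_eq (by norm_num)]
  linarith

end Pool.Agent.H71Z.KK
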