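import Mathlib

namespace Pool.Agent.H71Z.KK

/-- The number of edges of the grid on `[k]^n` (vertices at `ℓ¹`-distance one) with exactly one
endpoint in `A`, counted as pairs `(x, y)` with `x ∈ A` and `y ∉ A`. -/
def gridBoundary {k n : ℕ} (A : Finset (Fin n → Fin k)) : ℕ :=
  ((A ×ˢ Aᶜ).filter (fun p => ∑ i, |((p.1 i : ℕ) : ℤ) - ((p.2 i : ℕ) : ℤ)| = 1)).card

/-- The minimum over `r ∈ {1, …, n}` of `a ^ (1 - 1 / r) * r * k ^ (n / r - 1)`. -/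
noncomputable def minBoundary (k n : ℕ) (a : ℝ) : ℝ :=
  sInf {t : ℝ | ∃ r : ℕ, 1 ≤ r ∧ r ≤ n ∧
    t = a ^ (1 - 1 / (r : ℝ)) * r * (k : ℝ) ^ ((n : ℝ) / r - 1)}

end Pool.Agent.H71Z.KK
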