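import Pool.Agent.H71Z.KK.Main
import Pool.Agent.H71Z.KK.GridA
import Pool.Agent.H71Z.KK.GridB
import Pool.Agent.H71Z.KK.GridDefs

/-! Transfer from the cube to the grid. -/

set_option linter.unusedSectionVars false

namespace Pool.Agent.H71Z.KK

open Finset

lemma step_adj {k n : ℕ} (y : Fin n → Fin k) (i : Fin n)
    (h : Function.update y i (nxt (y i)) ≠ y) :
    ((nxt (y i) : ℕ) = y i + 1) := by
  by_contra hn
  apply h
  have : nxt (y i) = y i := Fin.ext (by have := (y i).2; simp only [nxt] at hn ⊢; omega)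
  rw [this]; simp

lemma step_dist {k n : ℕ} (y : Fin n → Fin k) (i : Fin n)
    (h : Function.update y i (nxt (y i)) ≠ y) :
    ∑ j, |((y j : ℕ) : ℤ) - ((Function.update y i (nxt (y i)) j : ℕ) : ℤ)| = 1 := by
  rw [Fintype.sum_eq_single i (fun j hj => by rw [Function.update_of_ne hj]; simp)]
  rw [Function.update_self, step_adj y i h]
  push_cast; simp

lemma step_inj {k n : ℕ} (y : Fin n → Fin k) (i i' : Fin n)
    (h : Function.update y i (nxt (y i)) ≠ y)
    (he : Function.update y i (nxt (y i)) = Function.update y i' (nxt (y i'))) : i = i' := by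
  by_contra hn
  have h1 := congrFun he i
  rw [Function.update_self, Function.update_of_ne hn] at h1
  have h2 := step_adj y i h
  rw [h1] at h2; omega

lemma changes_le {k n : ℕ} (A : Finset (Fin n → Fin k)) :
    ∑ i : Fin n, ∑ y : Fin n → Fin k,
      (if ¬ (y ∈ A ↔ Function.update y i (nxt (y i)) ∈ A) then (1 : ℝ) else 0)
      ≤ 2 * gridBoundary A := by
  have e : ∀ (i : Fin n) (y : Fin n → Fin k),
      (if ¬ (y ∈ A ↔ Function.update y i (nxt (y i)) ∈ A) then (1 : ℝ) else 0)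
      = (if y ∈ A ∧ Function.update y i (nxt (y i)) ∉ A then (1 : ℝ) else 0)
        + (if y ∉ A ∧ Function.update y i (nxt (y i)) ∈ A then (1 : ℝ) else 0) := by
    intro i y
    by_cases h1 : y ∈ A <;> by_cases h2 : Function.update y i (nxt (y i)) ∈ A <;> simp [h1, h2]
  simp only [e, sum_add_distrib]
  rw [← Fintype.sum_prod_type', ← Fintype.sum_prod_type', sum_boole, sum_boole]
  have h1 : (univ.filter fun p : Fin n × (Fin n → Fin k) =>
      p.2 ∈ A ∧ Function.update p.2 p.1 (nxt (p.2 p.1)) ∉ A).card ≤ gridBoundary A := by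
    refine card_le_card_of_injOn (fun p => (p.2, Function.update p.2 p.1 (nxt (p.2 p.1)))) ?_ ?_
    · intro p hp
      have hp' := (mem_filter.mp (mem_coe.mp hp)).2
      refine mem_coe.mpr (mem_filter.mpr ⟨mem_product.mpr ⟨hp'.1, mem_compl.mpr hp'.2⟩, ?_⟩)
      exact step_dist _ _ fun h => hp'.2 (by rw [h]; exact hp'.1)
    · intro p hp p' _ h
      have hp' := (mem_filter.mp (mem_coe.mp hp)).2
      obtain ⟨i, y⟩ := p
      obtain ⟨i', y'⟩ := p'
      simp only [Prod.mk.injEq] at h hp' ⊢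
      obtain ⟨rfl, h2⟩ := h
      exact ⟨step_inj _ _ _ (fun h => hp'.2 (by rw [h]; exact hp'.1)) h2, rfl⟩
  have h2 : (univ.filter fun p : Fin n × (Fin n → Fin k) =>
      p.2 ∉ A ∧ Function.update p.2 p.1 (nxt (p.2 p.1)) ∈ A).card ≤ gridBoundary A := by
    refine card_le_card_of_injOn (fun p => (Function.update p.2 p.1 (nxt (p.2 p.1)), p.2)) ?_ ?_
    · intro p hp
      have hp' := (mem_filter.mp (mem_coe.mp hp)).2
      refine mem_coe.mpr (mem_filter.mpr ⟨mem_product.mpr ⟨hp'.2, mem_compl.mpr hp'.1⟩, ?_⟩)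
      simp only [abs_sub_comm]
      have := step_dist p.2 p.1 fun h => hp'.1 (by rw [← h]; exact hp'.2)
      simpa only [abs_sub_comm] using this
    · intro p hp p' _ h
      have hp' := (mem_filter.mp (mem_coe.mp hp)).2
      obtain ⟨i, y⟩ := p
      obtain ⟨i', y'⟩ := p'
      simp only [Prod.mk.injEq] at h hp' ⊢
      obtain ⟨h2, rfl⟩ := h
      exact ⟨step_inj _ _ _ (fun h => hp'.1 (by rw [← h]; exact hp'.2)) h2, rfl⟩
  have h1' := (Nat.cast_le (α := ℝ)).mpr h1
  have h2' := (Nat.cast_le (α := ℝ)).mpr h2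
  linarith

/-- Block indices and bits of all coordinates together. -/
def joinEquiv (n H m : ℕ) : (Fin n → Fin H) × (Fin n × Fin m → Bool) ≃
    (Fin n → Fin H × (Fin m → Bool)) where
  toFun p i := (p.1 i, fun j => p.2 (i, j))
  invFun ω := (fun i => (ω i).1, fun q => (ω q.1).2 q.2)
  left_inv _ := rfl
  right_inv _ := rfl

/-- The preimage of `A` in the cube attached to the block indices `τ`. -/
def pull {n H m k : ℕ} (hk : 0 < k) (A : Finset (Fin n → Fin k)) (τ : Fin n → Fin H) :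
    Finset (Fin n × Fin m → Bool) :=
  univ.filter fun β => (fun i => cell hk (joinEquiv n H m (τ, β) i)) ∈ A

lemma sum_card_pull {n H m k : ℕ} (hk : 0 < k) (hD : 0 < H * 2 ^ m / k)
    (A : Finset (Fin n → Fin k)) :
    ((H * 2 ^ m / k : ℕ) : ℝ) ^ n * A.card ≤ ∑ τ : Fin n → Fin H, ((pull (m := m) hk A τ).card : ℝ) := by
  have e : ∑ τ : Fin n → Fin H, ((pull (m := m) hk A τ).card : ℝ)
      = ∑ ω : Fin n → Fin H × (Fin m → Bool), (if (fun i => cell hk (ω i)) ∈ A then (1 : ℝ) else 0) := by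
    rw [← Equiv.sum_comp (joinEquiv n H m), Fintype.sum_prod_type]
    exact sum_congr rfl fun τ _ => by rw [sum_boole, pull]
  have h := sum_comp_eq (fun _ : Fin n => cell (H := H) (m := m) hk) (fun _ => univ)
    (fun x => if x ∈ A then (1 : ℝ) else 0)
  rw [Fintype.piFinset_univ] at h
  rw [e, h]
  calc _ = ∑ x : Fin n → Fin k, (if x ∈ A then (1 : ℝ) else 0) * ((H * 2 ^ m / k : ℕ) : ℝ) ^ n := by
        rw [← sum_mul, sum_boole, mul_comm]; simp
    _ ≤ _ := sum_le_sum fun x _ => mul_le_mul_of_nonneg_left (by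
        calc ((H * 2 ^ m / k : ℕ) : ℝ) ^ n = ∏ _i : Fin n, ((H * 2 ^ m / k : ℕ) : ℝ) := by simp
          _ ≤ _ := prod_le_prod (fun _ _ => Nat.cast_nonneg _) fun i _ =>
            Nat.cast_le.mpr (cell_fiber_ge hk hD (x i))) (by split_ifs <;> norm_num)

lemma sum_comp_le {n H m k : ℕ} (hk : 0 < k) (hD : 0 < H * 2 ^ m / k)
    (G : (Fin n → Fin k) → ℝ) (hG : ∀ x, 0 ≤ G x) :
    ∑ ω : Fin n → Fin H × (Fin m → Bool), G (fun i => cell hk (ω i))
      ≤ (((H * 2 ^ m / k : ℕ) : ℝ) + k) ^ n * ∑ x, G x := by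
  have h := sum_comp_eq (fun _ : Fin n => cell (H := H) (m := m) hk) (fun _ => univ) G
  rw [Fintype.piFinset_univ] at h
  rw [h, mul_sum]
  refine sum_le_sum fun x _ => ?_
  rw [mul_comm]
  refine mul_le_mul_of_nonneg_right ?_ (hG x)
  calc _ ≤ ∏ _i : Fin n, (((H * 2 ^ m / k : ℕ) : ℝ) + k) :=
        prod_le_prod (fun _ _ => Nat.cast_nonneg _) fun i _ => by
          exact_mod_cast cell_fiber_le hk hD (x i)
    _ = _ := by simp

lemma join_fl {n H m : ℕ} (τ : Fin n → Fin H) (β : Fin n × Fin m → Bool) (i : Fin n) (j : Fin m) :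
    joinEquiv n H m (τ, fl (i, j) β) = Function.update (joinEquiv n H m (τ, β)) i
      ((joinEquiv n H m (τ, β) i).1, fl j (joinEquiv n H m (τ, β) i).2) := by
  funext i'
  by_cases h : i' = i
  · subst h
    rw [Function.update_self]
    refine Prod.ext rfl ?_
    funext j'
    by_cases h' : j' = j
    · subst h'; simp [joinEquiv]
    · simp only [joinEquiv, Equiv.coe_fn_mk]
      rw [fl_ne h', fl_ne (by simp [h'])]
  · rw [Function.update_of_ne h]
    refine Prod.ext rfl ?_
    funext j'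
    simp only [joinEquiv, Equiv.coe_fn_mk]
    rw [fl_ne (by simp [h])]

lemma comp_update' {n k : ℕ} {Ω : Type*} (ψ : Ω → Fin k) (ω : Fin n → Ω) (i : Fin n) (o : Ω) :
    (fun i' => ψ (Function.update ω i o i')) = Function.update (fun i' => ψ (ω i')) i (ψ o) := by
  funext i'
  by_cases h : i' = i
  · subst h; simp
  · simp [h]

lemma sum_bd_pull {n H m k : ℕ} (hk : 0 < k) (hD : 0 < H * 2 ^ m / k)
    (A : Finset (Fin n → Fin k)) :
    (H : ℝ) * ∑ τ : Fin n → Fin H, ((((pull (m := m) hk A τ) ×ˢ (univ : Finset (Fin n × Fin m))).filter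
        (fun p => fl p.2 p.1 ∉ pull hk A τ)).card : ℝ)
      ≤ 4 * k * (((H * 2 ^ m / k : ℕ) : ℝ) + k) ^ n * gridBoundary A := by
  set F : Fin n → (Fin n → Fin H × (Fin m → Bool)) → ℝ := fun i ω => ∑ j : Fin m,
    (if (fun i' => cell hk (ω i')) ∈ A ∧
      (fun i' => cell hk (Function.update ω i ((ω i).1, fl j (ω i).2) i')) ∉ A then (1 : ℝ) else 0)
    with hF
  have e : ∑ τ : Fin n → Fin H, ((((pull (m := m) hk A τ) ×ˢ (univ : Finset (Fin n × Fin m))).filter
        (fun p => fl p.2 p.1 ∉ pull hk A τ)).card : ℝ) = ∑ i, ∑ ω, F i ω := by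
    rw [sum_comm, ← Equiv.sum_comp (joinEquiv n H m), Fintype.sum_prod_type]
    refine sum_congr rfl fun τ _ => ?_
    rw [card_filter, sum_product]
    push_cast
    rw [pull, sum_filter]
    refine sum_congr rfl fun β _ => ?_
    simp only [hF, ← join_fl, mem_filter, mem_univ, true_and]
    rw [Fintype.sum_prod_type]
    split_ifs with h
    · simp [h]
    · simp [h]
  have hi : ∀ i, (H : ℝ) * ∑ ω, F i ω ≤ 2 * k * (((H * 2 ^ m / k : ℕ) : ℝ) + k) ^ n *
      ∑ y : Fin n → Fin k,
        (if ¬ (y ∈ A ↔ Function.update y i (nxt (y i)) ∈ A) then (1 : ℝ) else 0) := by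
    intro i
    have h1 := sum_update (F i) i
    have h2 : ∀ ω : Fin n → Fin H × (Fin m → Bool), ∑ o, F i (Function.update ω i o) ≤
        2 * 2 ^ m * ∑ c : Fin k, (if ¬ (Function.update (fun i' => cell hk (ω i')) i c ∈ A ↔
          Function.update (fun i' => cell hk (ω i')) i (nxt c) ∈ A) then (1 : ℝ) else 0) := by
      intro ω
      refine le_trans (le_of_eq ?_) (cell_changes hk hD
        (fun u => Function.update (fun i' => cell hk (ω i')) i u ∈ A))
      refine sum_congr rfl fun o _ => ?_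
      simp only [hF, Function.update_self, Function.update_idem, comp_update']
    have h3 := sum_le_sum fun ω (_ : ω ∈ univ) => h2 ω
    rw [h1, ← mul_sum] at h3
    have h4 := sum_comp_le (n := n) hk hD (fun x => ∑ c : Fin k,
      (if ¬ (Function.update x i c ∈ A ↔ Function.update x i (nxt c) ∈ A) then (1 : ℝ) else 0))
      (fun x => sum_nonneg fun c _ => by split_ifs <;> norm_num)
    have h5 := sum_update (fun y : Fin n → Fin k =>
      (if ¬ (y ∈ A ↔ Function.update y i (nxt (y i)) ∈ A) then (1 : ℝ) else 0)) i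
    simp only [Function.update_self, Function.update_idem, Fintype.card_fin] at h5
    rw [h5] at h4
    have h6 := h3.trans (mul_le_mul_of_nonneg_left h4 (by positivity))
    have hc : (Fintype.card (Fin H × (Fin m → Bool)) : ℝ) = 2 ^ m * H := by simp [mul_comm]
    rw [hc] at h6
    refine le_of_mul_le_mul_left ?_ (by positivity : (0 : ℝ) < 2 ^ m)
    linarith
  rw [e, mul_sum]
  refine (sum_le_sum fun i _ => hi i).trans ?_
  rw [← mul_sum]
  have := mul_le_mul_of_nonneg_left (changes_le A)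
    (by positivity : (0 : ℝ) ≤ 2 * k * (((H * 2 ^ m / k : ℕ) : ℝ) + k) ^ n)
  linarith

lemma count_agree {n H m k : ℕ} (hk : 0 < k) (A : Finset (Fin n → Fin k)) (τ : Fin n → Fin H)
    (S : Finset (Fin n × Fin m)) (β0 : Fin n × Fin m → Bool) :
    (((pull (m := m) hk A τ).filter fun β => ∀ q ∈ S, β q = β0 q).card : ℝ) =
      ∑ x ∈ A, ∏ i, (((univ.filter fun b : Fin m → Bool =>
        ∀ j ∈ univ.filter (fun j => (i, j) ∈ S), b j = β0 (i, j)).filter
          fun b => cell hk (τ i, b) = x i).card : ℝ) := by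
  have h := sum_comp_eq (fun (i : Fin n) (b : Fin m → Bool) => cell hk (τ i, b))
    (fun i => univ.filter fun b : Fin m → Bool =>
      ∀ j ∈ univ.filter (fun j => (i, j) ∈ S), b j = β0 (i, j))
    (fun x => if x ∈ A then (1 : ℝ) else 0)
  simp only [ite_mul, one_mul, zero_mul] at h
  rw [← sum_filter (s := univ) (fun x => x ∈ A), filter_univ_mem, sum_boole] at h
  rw [← h]
  congr 1
  refine card_bij (fun β _ => fun i j => β (i, j)) ?_ ?_ ?_
  · intro β hβ
    simp only [pull, mem_filter, mem_univ, true_and, Fintype.mem_piFinset] at hβ ⊢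
    exact ⟨fun i j hj => hβ.2 _ hj, hβ.1⟩
  · intro β _ β' _ h
    funext q
    exact congrFun (congrFun h q.1) q.2
  · intro b hb
    refine ⟨fun q => b q.1 q.2, ?_, rfl⟩
    simp only [pull, mem_filter, mem_univ, true_and, Fintype.mem_piFinset] at hb ⊢
    exact ⟨hb.2, fun q hq => hb.1 q.1 q.2 hq⟩

lemma sum_card_rows {n m : ℕ} (S : Finset (Fin n × Fin m)) :
    ∑ i, (univ.filter (fun j => (i, j) ∈ S)).card = S.card := by
  simp only [card_filter]
  rw [← Fintype.sum_prod_type' (fun i j => if (i, j) ∈ S then 1 else 0), ← card_filter]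
  simp

lemma pow_ratio_le {n : ℕ} {x : ℝ} (hx : 0 ≤ x) (h : n * x ≤ 1 / 10) : (1 + x) ^ n ≤ 10 / 9 := by
  calc (1 + x) ^ n ≤ Real.exp x ^ n :=
        pow_le_pow_left₀ (by linarith) (by linarith [Real.add_one_le_exp x]) n
    _ = Real.exp (n * x) := (Real.exp_nat_mul x n).symm
    _ ≤ Real.exp (1 / 10) := Real.exp_le_exp.mpr h
    _ ≤ 10 / 9 := by
        have h1 := Real.add_one_le_exp (-(1 / 10 : ℝ))
        have h2 : Real.exp (1 / 10) * Real.exp (-(1 / 10 : ℝ)) = 1 := by
          rw [← Real.exp_add]; simp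
        nlinarith [Real.exp_pos (1 / 10 : ℝ)]

theorem grid_core {ε : ℝ} (hε : 0 < ε) : ∃ K : ℝ, 0 < K ∧
    ∀ (n k H : ℕ), 0 < n → 0 < k → 0 < H → ∀ A : Finset (Fin n → Fin k), A.Nonempty → ∀ s : ℝ,
      5 * k * (gridBoundary A : ℝ) ≤ s * H * A.card →
      ∃ T : Fin n → Finset (Fin k), ∃ c : ℕ, (∀ i, (T i).Nonempty) ∧ (c : ℝ) ≤ K * s ∧
        (k : ℝ) ^ n ≤ (Fintype.piFinset T).card * ((if H = 1 then 1 else (4 * H : ℝ) ^ n) * 8 ^ c) ∧
        9 / 10 * Real.exp (-(ε * s)) ≤
          ((A ∩ Fintype.piFinset T).card : ℝ) / ((Fintype.piFinset T).card : ℝ) := by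
  obtain ⟨K, hK, Hc⟩ := cube_count hε
  refine ⟨K, hK, fun n k H hn hk hH A hA s hs => ?_⟩
  obtain ⟨m, hm⟩ : ∃ m : ℕ, 10 * n * k * k ≤ 2 ^ m := ⟨_, (Nat.lt_two_pow_self).le⟩
  have hD1 : 10 * n * k ≤ H * 2 ^ m / k := by
    rw [Nat.le_div_iff_mul_le hk]
    exact hm.trans (Nat.le_mul_of_pos_left _ hH)
  have hD : 0 < H * 2 ^ m / k := lt_of_lt_of_le (by positivity) hD1
  have hkD : k * (H * 2 ^ m / k) ≤ H * 2 ^ m := Nat.mul_div_le _ _
  have h1 := sum_card_pull (n := n) hk hD A
  have h2 := sum_bd_pull (n := n) hk hD A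
  have hfib := cell_fiber_le (H := H) (m := m) hk hD
  generalize H * 2 ^ m / k = D at hD hD1 hkD h1 h2 hfib
  have hD' : (0 : ℝ) < D := by exact_mod_cast hD
  have hk' : (0 : ℝ) < k := by exact_mod_cast hk
  have hH' : (0 : ℝ) < H := by exact_mod_cast hH
  have hn' : (1 : ℝ) ≤ n := by exact_mod_cast hn
  have hD1' : 10 * (n : ℝ) * k ≤ D := by exact_mod_cast hD1
  have hkD' : (k : ℝ) * D ≤ H * 2 ^ m := by exact_mod_cast hkD
  have hkleD : (k : ℝ) ≤ D := by nlinarith
  have hcard : (0 : ℝ) < A.card := by exact_mod_cast hA.card_pos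
  have hl : (1 + (k : ℝ) / D) ^ n ≤ 10 / 9 := pow_ratio_le (by positivity) (by
    rw [← mul_div_assoc, div_le_iff₀ hD']; linarith)
  have hDk : ((D : ℝ) + k) ^ n ≤ 10 / 9 * D ^ n := by
    rw [show (D : ℝ) + k = (1 + k / D) * D by field_simp, mul_pow]
    exact mul_le_mul_of_nonneg_right hl (by positivity)
  have hs0 : 0 ≤ s := by
    have : 0 ≤ s * (H * A.card) := le_trans (by positivity) (hs.trans (le_of_eq (by ring)))
    exact nonneg_of_mul_nonneg_left this (by positivity)
  have h3 : ∑ τ : Fin n → Fin H, ((((pull (m := m) hk A τ) ×ˢ (univ : Finset (Fin n × Fin m))).filter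
        (fun p => fl p.2 p.1 ∉ pull hk A τ)).card : ℝ)
      ≤ ∑ τ : Fin n → Fin H, s * ((pull (m := m) hk A τ).card : ℝ) := by
    rw [← mul_sum]
    refine le_trans ?_ (mul_le_mul_of_nonneg_left h1 hs0)
    refine le_of_mul_le_mul_left (h2.trans ?_) hH'
    have b1 := mul_le_mul_of_nonneg_left hDk
      (by positivity : (0 : ℝ) ≤ 4 * k * (gridBoundary A : ℝ))
    have b2 := mul_le_mul_of_nonneg_left hs (by positivity : (0 : ℝ) ≤ (D : ℝ) ^ n)
    have b3 : (0 : ℝ) ≤ (D : ℝ) ^ n * (k * (gridBoundary A : ℝ)) := by positivity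
    linarith
  obtain ⟨τ, hτ, hτs⟩ : ∃ τ : Fin n → Fin H, (pull (m := m) hk A τ).Nonempty ∧
      ((((pull (m := m) hk A τ) ×ˢ (univ : Finset (Fin n × Fin m))).filter
        (fun p => fl p.2 p.1 ∉ pull hk A τ)).card : ℝ) ≤ s * ((pull (m := m) hk A τ).card : ℝ) := by
    by_contra hc
    push Not at hc
    obtain ⟨τ0, hτ0⟩ : ∃ τ : Fin n → Fin H, (pull (m := m) hk A τ).Nonempty := by
      by_contra hn2
      push Not at hn2
      simp only [hn2, card_empty, Nat.cast_zero, sum_const_zero] at h1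
      have : (0 : ℝ) < (D : ℝ) ^ n * A.card := by positivity
      linarith
    refine absurd h3 (not_le.mpr (sum_lt_sum (fun τ _ => ?_) ⟨τ0, mem_univ _, hc τ0 hτ0⟩))
    rcases (pull (m := m) hk A τ).eq_empty_or_nonempty with h | h
    · rw [h]; simp
    · exact (hc τ h).le
  obtain ⟨S, β0, -, hS, hden⟩ := Hc (Fin n × Fin m) _ hτ s hτs
  set R : Fin n → Finset (Fin m) := fun i => univ.filter (fun j => (i, j) ∈ S) with hR
  set W : Fin n → Finset (Fin m → Bool) := fun i => univ.filter fun b : Fin m → Bool =>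
    ∀ j ∈ R i, b j = β0 (i, j) with hW
  set ν : Fin n → Fin k → ℝ := fun i u =>
    (((W i).filter fun b => cell hk (τ i, b) = u).card : ℝ) * (2 ^ (R i).card / 2 ^ m) with hν
  have hν0 : ∀ i u, 0 ≤ ν i u := fun i u => by simp only [hν]; positivity
  have hν1 : ∀ i, ∑ u, ν i u = 1 := by
    intro i
    simp only [hν]
    rw [← sum_mul, ← Nat.cast_sum, ← card_eq_sum_card_fiberwise (fun _ _ => mem_univ _)]
    have := card_subcube (R i) (fun j => β0 (i, j))
    rw [Fintype.card_fin] at this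
    rw [← mul_div_assoc, div_eq_one_iff_eq (by positivity), mul_comm]
    refine Eq.trans ?_ this
    simp only [hW]
    congr
  have hνb : ∀ i u, ν i u ≤ ((D : ℝ) + k) * (2 ^ (R i).card / 2 ^ m) := by
    intro i u
    refine mul_le_mul_of_nonneg_right ?_ (by positivity)
    have : ((W i).filter fun b => cell hk (τ i, b) = u).card ≤
        (univ.filter fun o : Fin H × (Fin m → Bool) => cell hk o = u).card :=
      card_le_card_of_injOn (fun b => (τ i, b)) (fun b hb => by
        simpa using (mem_filter.mp (mem_coe.mp hb)).2) (fun b _ b' _ h => (Prod.mk.inj h).2)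
    exact_mod_cast this.trans (hfib u)
  have hpm : Real.exp (-(ε * s)) ≤ pmass A ν := by
    have e1 := count_agree hk A τ S β0
    have e2 : pmass A ν = (((pull (m := m) hk A τ).filter fun β => ∀ q ∈ S, β q = β0 q).card : ℝ)
        * (2 ^ S.card / 2 ^ Fintype.card (Fin n × Fin m)) := by
      rw [e1, pmass, sum_mul]
      refine sum_congr rfl fun x _ => ?_
      simp only [hν]
      rw [prod_mul_distrib, prod_div_distrib, prod_pow_eq_pow_sum, sum_card_rows]
      simp [← pow_mul, mul_comm, hW, hR]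
    rw [e2, ← mul_div_assoc, le_div_iff₀ (by positivity), mul_comm (Nat.cast _)]
    exact hden
  obtain ⟨T, hT, hle⟩ := replace A ν hν0 (1 + (k : ℝ) / D) (by positivity)
    (fun i T => T.Nonempty ∧
      (k : ℝ) ≤ T.card * ((if H = 1 then 1 else (4 * H : ℝ)) * 8 ^ (R i).card)) (by
    intro i g hg
    by_cases hsp : H = 1 ∧ (R i).card = 0
    · refine ⟨univ, ⟨⟨⟨0, hk⟩, mem_univ _⟩, by simp [hsp.1, hsp.2]⟩, ?_⟩
      rw [← mul_div_assoc, mul_sum, sum_div]
      refine sum_le_sum fun u _ => ?_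
      rw [mul_div_right_comm]
      refine mul_le_mul_of_nonneg_right ((hνb i u).trans ?_) (hg u)
      rw [hsp.2, card_univ, Fintype.card_fin, pow_zero, mul_one_div,
        div_le_div_iff₀ (by positivity) hk']
      rw [hsp.1] at hkD'
      have : ((D : ℝ) + k) * k = (1 + k / D) * (k * D) := by field_simp
      rw [this]
      exact mul_le_mul_of_nonneg_left (by simpa using hkD') (by positivity)
    · obtain ⟨T, hT1, hT2, hT3⟩ := top_set_real (ν i) g (hν0 i) (hν1 i) _ (hνb i)
      have hTc : (0 : ℝ) < T.card := by exact_mod_cast hT1.card_pos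
      refine ⟨T, ⟨hT1, ?_⟩, ?_⟩
      · have b1 : (k : ℝ) * (((D : ℝ) + k) * (2 ^ (R i).card / 2 ^ m)) ≤ 2 * H * 2 ^ (R i).card := by
          rw [← mul_assoc, ← mul_div_assoc, div_le_iff₀ (by positivity)]
          have : (k : ℝ) * (D + k) ≤ 2 * (H * 2 ^ m) := by nlinarith
          have := mul_le_mul_of_nonneg_right this (by positivity : (0 : ℝ) ≤ 2 ^ (R i).card)
          linarith
        have b2 : (k : ℝ) ≤ T.card * (4 * H * 2 ^ (R i).card) := by
          have c1 := mul_le_mul_of_nonneg_left hT2 hk'.le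
          have c2 := mul_le_mul_of_nonneg_left b1 (by positivity : (0 : ℝ) ≤ 2 * T.card)
          linarith
        refine b2.trans (mul_le_mul_of_nonneg_left ?_ hTc.le)
        have b3 : (2 : ℝ) ^ (R i).card ≤ 8 ^ (R i).card :=
          pow_le_pow_left₀ (by norm_num) (by norm_num) _
        split_ifs with h
        · have hc : (R i).card ≠ 0 := fun h0 => hsp ⟨h, h0⟩
          obtain ⟨c, hc⟩ := Nat.exists_eq_succ_of_ne_zero hc
          rw [h, hc, pow_succ, pow_succ]
          have : (2 : ℝ) ^ c ≤ 8 ^ c := pow_le_pow_left₀ (by norm_num) (by norm_num) _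
          push_cast; linarith
        · exact mul_le_mul_of_nonneg_left b3 (by positivity)
      · have b1 : ∑ u, ν i u * g u ≤ (∑ u ∈ T, g u) / T.card := by rwa [le_div_iff₀ hTc]
        have b2 : 0 ≤ (∑ u ∈ T, g u) / T.card := div_nonneg (sum_nonneg fun u _ => hg u) hTc.le
        have b3 : 0 ≤ (k : ℝ) / D * ((∑ u ∈ T, g u) / T.card) := by positivity
        linarith)
  refine ⟨T, S.card, fun i => (hT i).1, hS, ?_, ?_⟩
  · calc (k : ℝ) ^ n = ∏ _i : Fin n, (k : ℝ) := by simp
      _ ≤ ∏ i, ((T i).card * ((if H = 1 then 1 else (4 * H : ℝ)) * 8 ^ (R i).card)) :=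
          prod_le_prod (fun _ _ => hk'.le) fun i _ => (hT i).2
      _ = _ := by
          rw [prod_mul_distrib, prod_mul_distrib, prod_pow_eq_pow_sum, sum_card_rows,
            Fintype.card_piFinset]
          push_cast
          split_ifs <;> simp
  · rw [Fintype.card_fin] at hle
    have b1 : (0 : ℝ) ≤ ((A ∩ Fintype.piFinset T).card : ℝ) / ((Fintype.piFinset T).card : ℝ) := by
      positivity
    have b2 := mul_le_mul_of_nonneg_right hl b1
    linarith

end Pool.Agent.H71Z.KK
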