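import Pool.Agent.H71Z.KK.GridC

/-! The density increment statement on the grid. -/

namespace Pool.Agent.H71Z.KK

open Finset

lemma minBoundary_le {k n r : ℕ} {a : ℝ} (ha : 0 ≤ a) (h1 : 1 ≤ r) (h2 : r ≤ n) :
    minBoundary k n a ≤ a ^ (1 - 1 / (r : ℝ)) * r * (k : ℝ) ^ ((n : ℝ) / r - 1) := by
  refine csInf_le ⟨0, ?_⟩ ⟨r, h1, h2, rfl⟩
  rintro t ⟨r, -, -, rfl⟩
  positivity

lemma term_eq {k n r : ℕ} {a : ℝ} (ha : 0 < a) (hk : 0 < k) (hr : 1 ≤ r) :
    (k : ℝ) * (a ^ (1 - 1 / (r : ℝ)) * r * (k : ℝ) ^ ((n : ℝ) / r - 1))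
      = a * r * Real.exp (- Real.log (a / (k : ℝ) ^ n) / r) := by
  have hk' : (0 : ℝ) < k := by exact_mod_cast hk
  have hr' : (0 : ℝ) < r := by exact_mod_cast hr
  rw [Real.rpow_sub ha, Real.rpow_sub hk', Real.rpow_one, Real.rpow_one,
    Real.rpow_def_of_pos ha, Real.rpow_def_of_pos hk', Real.log_div ha.ne' (by positivity),
    Real.log_pow, show -(Real.log a - n * Real.log k) / r
      = Real.log k * (n / r) - Real.log a * (1 / r) by field_simp; ring, Real.exp_sub]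
  field_simp

theorem grid_incr (L : ℝ) (hL : 0 < L) : ∃ L' : ℝ, 0 < L' ∧
    ∀ k n : ℕ, 0 < k → 0 < n → ∀ A : Finset (Fin n → Fin k),
      (A.card : ℝ) / (k : ℝ) ^ n ≤ 1 / 2 →
      (gridBoundary A : ℝ) ≤ L * minBoundary k n A.card →
      ∃ S : Fin n → Finset (Fin k), (Fintype.piFinset S).Nonempty ∧
        ((A.card : ℝ) / (k : ℝ) ^ n) ^ L' ≤ ((Fintype.piFinset S).card : ℝ) / (k : ℝ) ^ n ∧
        (1 + 1 / 4) * ((A.card : ℝ) / (k : ℝ) ^ n) ≤
          ((A ∩ Fintype.piFinset S).card : ℝ) / ((Fintype.piFinset S).card : ℝ) := by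
  obtain ⟨K, hK, Hc⟩ := grid_core (ε := 1 / (90 * L)) (by positivity)
  refine ⟨4 + 135 * K * L, by positivity, fun k n hk hn A hα hb => ?_⟩
  have hk' : (0 : ℝ) < k := by exact_mod_cast hk
  have hn' : (0 : ℝ) < n := by exact_mod_cast hn
  rcases A.eq_empty_or_nonempty with rfl | hA
  · refine ⟨fun _ => univ, Fintype.piFinset_nonempty.mpr fun _ => ⟨⟨0, hk⟩, mem_univ _⟩, ?_, by simp⟩
    rw [card_empty, Nat.cast_zero, zero_div, Real.zero_rpow (by positivity)]
    positivity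
  have hcard : (0 : ℝ) < A.card := by exact_mod_cast hA.card_pos
  have hα0 : 0 < (A.card : ℝ) / (k : ℝ) ^ n := by positivity
  obtain ⟨lam, hlam⟩ : ∃ lam, lam = - Real.log ((A.card : ℝ) / (k : ℝ) ^ n) := ⟨_, rfl⟩
  have hexp : (A.card : ℝ) / (k : ℝ) ^ n = Real.exp (-lam) := by
    rw [hlam, neg_neg, Real.exp_log hα0]
  have hlam1 : 1 / 2 ≤ lam := by
    have := Real.add_one_le_exp (-lam)
    linarith
  have hterm : ∀ r : ℕ, 1 ≤ r → r ≤ n →
      (k : ℝ) * gridBoundary A ≤ L * (A.card * r * Real.exp (lam / r)) := by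
    intro r h1 h2
    have b1 := hb.trans (mul_le_mul_of_nonneg_left (minBoundary_le hcard.le h1 h2) hL.le)
    have b2 := mul_le_mul_of_nonneg_left b1 hk'.le
    have b3 := term_eq (n := n) hcard hk h1
    rw [← hlam] at b3
    rw [← b3]
    linarith
  obtain ⟨H, hH, hH1, hH2⟩ : ∃ H : ℕ, 0 < H ∧
      5 * k * (gridBoundary A : ℝ) ≤ 45 * L * lam * H * A.card ∧
      (if H = 1 then 1 else (4 * H : ℝ) ^ n) ≤ Real.exp (4 * lam) := by
    rcases le_or_gt lam n with h | h
    · refine ⟨1, one_pos, ?_, ?_⟩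
      · have r1 : 1 ≤ ⌈lam⌉₊ := Nat.one_le_iff_ne_zero.mpr (Nat.ceil_pos.mpr (by linarith)).ne'
        have r2 : ⌈lam⌉₊ ≤ n := Nat.ceil_le.mpr h
        have r3 : (⌈lam⌉₊ : ℝ) < lam + 1 := Nat.ceil_lt_add_one (by linarith)
        have r4 : lam ≤ ⌈lam⌉₊ := Nat.le_ceil _
        have r5 : Real.exp (lam / ⌈lam⌉₊) ≤ 3 :=
          (Real.exp_le_exp.mpr (div_le_one_of_le₀ r4 (by positivity))).trans
            (Real.exp_one_lt_d9.le.trans (by norm_num))
        have r6 : (⌈lam⌉₊ : ℝ) * Real.exp (lam / ⌈lam⌉₊) ≤ (3 * lam) * 3 :=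
          mul_le_mul (by linarith) r5 (Real.exp_pos _).le (by linarith)
        have r7 := mul_le_mul_of_nonneg_left r6 (mul_nonneg hL.le hcard.le)
        have := hterm _ r1 r2
        push_cast
        linarith
      · rw [if_pos rfl]; exact Real.one_le_exp (by linarith)
    · have e1 : 1 ≤ Real.exp (lam / n) := Real.one_le_exp (by positivity)
      have r3 : (⌈Real.exp (lam / n)⌉₊ : ℝ) < Real.exp (lam / n) + 1 :=
        Nat.ceil_lt_add_one (by linarith)
      have r4 : Real.exp (lam / n) ≤ ⌈Real.exp (lam / n)⌉₊ := Nat.le_ceil _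
      refine ⟨⌈Real.exp (lam / n)⌉₊, Nat.ceil_pos.mpr (by linarith), ?_, ?_⟩
      · have r6 : (n : ℝ) * Real.exp (lam / n) ≤ lam * ⌈Real.exp (lam / n)⌉₊ :=
          mul_le_mul h.le r4 (Real.exp_pos _).le (by linarith)
        have r7 := mul_le_mul_of_nonneg_left r6 (mul_nonneg hL.le hcard.le)
        have r8 : (0 : ℝ) ≤ L * A.card * (lam * ⌈Real.exp (lam / n)⌉₊) :=
          mul_nonneg (mul_nonneg hL.le hcard.le) (mul_nonneg (by linarith) (Nat.cast_nonneg _))
        have := hterm n hn le_rfl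
        linarith
      · split_ifs
        · exact Real.one_le_exp (by linarith)
        · have e8 : (8 : ℝ) ≤ Real.exp 3 := by
            have := Real.add_one_le_exp 1
            rw [show (3 : ℝ) = 1 + 1 + 1 by norm_num, Real.exp_add, Real.exp_add]
            nlinarith
          calc (4 * (⌈Real.exp (lam / n)⌉₊ : ℝ)) ^ n ≤ (Real.exp 3 * Real.exp (lam / n)) ^ n :=
                pow_le_pow_left₀ (by positivity) (by nlinarith) n
            _ = Real.exp (n * (3 + lam / n)) := by rw [← Real.exp_add, Real.exp_nat_mul]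
            _ ≤ _ := Real.exp_le_exp.mpr (by
                rw [mul_add, mul_div_cancel₀ _ hn'.ne']; linarith)
  obtain ⟨T, c, hT, hc, hsz, hden⟩ := Hc n k H hn hk hH A hA (45 * L * lam) hH1
  refine ⟨T, Fintype.piFinset_nonempty.mpr hT, ?_, ?_⟩
  · have e8 : (8 : ℝ) ≤ Real.exp 3 := by
      have := Real.add_one_le_exp 1
      rw [show (3 : ℝ) = 1 + 1 + 1 by norm_num, Real.exp_add, Real.exp_add]
      nlinarith
    have b1 : (8 : ℝ) ^ c ≤ Real.exp (135 * K * L * lam) := by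
      calc (8 : ℝ) ^ c ≤ Real.exp 3 ^ c := pow_le_pow_left₀ (by norm_num) e8 c
        _ = Real.exp (c * 3) := (Real.exp_nat_mul 3 c).symm
        _ ≤ _ := Real.exp_le_exp.mpr (by linarith)
    have b2 := mul_le_mul hH2 b1 (by positivity) (Real.exp_pos _).le
    rw [← Real.exp_add] at b2
    have b3 := hsz.trans (mul_le_mul_of_nonneg_left b2 (Nat.cast_nonneg _))
    rw [hexp, ← Real.exp_mul, le_div_iff₀ (by positivity)]
    have b4 := mul_le_mul_of_nonneg_left b3 (Real.exp_pos (-lam * (4 + 135 * K * L))).le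
    have b5 : Real.exp (-lam * (4 + 135 * K * L)) * Real.exp (4 * lam + 135 * K * L * lam) = 1 := by
      rw [← Real.exp_add, ← Real.exp_zero]; congr 1; ring
    calc _ ≤ _ := b4
      _ = (Fintype.piFinset T).card * (Real.exp (-lam * (4 + 135 * K * L)) *
          Real.exp (4 * lam + 135 * K * L * lam)) := by ring
      _ = _ := by rw [b5, mul_one]
  · refine le_trans ?_ hden
    rw [show 1 / (90 * L) * (45 * L * lam) = lam / 2 by field_simp; norm_num]
    have b1 : Real.exp (-(lam / 2)) ^ 2 = (A.card : ℝ) / (k : ℝ) ^ n := by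
      rw [hexp, ← Real.exp_nat_mul]; congr 1; push_cast; ring
    refine (abs_le_of_sq_le_sq' ?_ (by positivity)).2
    rw [mul_pow (9 / 10), b1]
    nlinarith

end Pool.Agent.H71Z.KK
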