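import Mathlib

/-! Scalar inequalities. -/

namespace Pool.Agent.H71Z.KK

open Real

lemma rpow_lower {t p : ℝ} (ht : 0 ≤ t) (hp0 : 0 < p) (hp : p ≤ 2) :
    t ^ 2 * (1 - (2 - p) * (t - 1)) ≤ t ^ p := by
  rcases ht.eq_or_lt with rfl | ht
  · rw [Real.zero_rpow hp0.ne']; simp
  have h1 : t ^ p = t ^ 2 * Real.exp (-(2 - p) * Real.log t) := by
    rw [Real.rpow_def_of_pos ht, show t ^ 2 = Real.exp (2 * Real.log t) by
      rw [show (2 : ℝ) * Real.log t = Real.log t + Real.log t by ring, Real.exp_add,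
        Real.exp_log ht]; ring, ← Real.exp_add]
    congr 1; ring
  rw [h1]
  refine mul_le_mul_of_nonneg_left ?_ (by positivity)
  have h2 := Real.add_one_le_exp (-(2 - p) * Real.log t)
  have h3 := Real.log_le_sub_one_of_pos ht
  nlinarith

lemma rpow_upper {t p : ℝ} (ht : 0 ≤ t) (hp0 : 0 ≤ p) (hp : p ≤ 2) :
    t ^ p ≤ t ^ 2 + (2 - p) := by
  have h := Real.geom_mean_le_arith_mean2_weighted (w₁ := p / 2) (w₂ := 1 - p / 2)
    (p₁ := t ^ 2) (p₂ := 1) (by linarith) (by linarith) (by positivity) zero_le_one (by ring)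
  rw [Real.one_rpow, mul_one, ← Real.rpow_natCast, ← Real.rpow_mul ht] at h
  have e : ((2 : ℕ) : ℝ) * (p / 2) = p := by push_cast; ring
  rw [e, Real.rpow_natCast] at h
  nlinarith [sq_nonneg t]

/-- One-function two-point hypercontractivity. -/
lemma two_point_one {ρ p a b : ℝ} (hp1 : 1 ≤ p) (hp2 : p ≤ 2) (hρ : ρ ≤ 1 - 2 * (2 - p))
    (ha : 0 ≤ a) (hb : 0 ≤ b) :
    ((a + b) / 2) ^ 2 + ρ * ((a - b) / 2) ^ 2 ≤ (((a ^ p + b ^ p) / 2) ^ (1 / p)) ^ 2 := by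
  have hp0 : 0 < p := by linarith
  rcases (add_nonneg ha hb).eq_or_lt with h0 | h0
  · have ha0 : a = 0 := by linarith
    have hb0 : b = 0 := by linarith
    subst ha0 hb0
    simp; positivity
  set m := (a + b) / 2 with hm
  have hmpos : 0 < m := by positivity
  set β := (a - b) / (a + b) with hβ
  have ea : a = m * (1 + β) := by rw [hm, hβ]; field_simp; ring
  have eb : b = m * (1 - β) := by rw [hm, hβ]; field_simp; ring
  have h1 : 0 ≤ 1 + β := by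
    by_contra hn; have : m * (1 + β) < 0 := mul_neg_of_pos_of_neg hmpos (not_le.mp hn); linarith
  have h2 : 0 ≤ 1 - β := by
    by_contra hn; have : m * (1 - β) < 0 := mul_neg_of_pos_of_neg hmpos (not_le.mp hn); linarith
  have ed : (a - b) / 2 = m * β := by rw [hm, hβ]; field_simp
  have l1 := rpow_lower h1 hp0 hp2
  have l2 := rpow_lower h2 hp0 hp2
  set Y := ((1 + β) ^ p + (1 - β) ^ p) / 2 with hY
  have hY1 : 1 + (1 - 2 * (2 - p)) * β ^ 2 ≤ Y := by rw [hY]; nlinarith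
  have hρ' : ρ * β ^ 2 ≤ (1 - 2 * (2 - p)) * β ^ 2 := mul_le_mul_of_nonneg_right hρ (sq_nonneg _)
  have hsum : (a ^ p + b ^ p) / 2 = m ^ p * Y := by
    rw [ea, eb, Real.mul_rpow hmpos.le h1, Real.mul_rpow hmpos.le h2, hY]; ring
  have hYnn : 0 ≤ Y := by positivity
  have hY0 : 1 ≤ Y := by
    have b1 := one_add_mul_self_le_rpow_one_add (s := β) (by linarith) hp1
    have b2 := one_add_mul_self_le_rpow_one_add (s := -β) (by linarith) hp1
    rw [← sub_eq_add_neg] at b2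
    rw [hY]; linarith
  have hroot : (m ^ p * Y) ^ (1 / p) = m * Y ^ (1 / p) := by
    rw [Real.mul_rpow (by positivity) hYnn, ← Real.rpow_mul hmpos.le, mul_one_div_cancel hp0.ne',
      Real.rpow_one]
  have hsq : Y ≤ (Y ^ (1 / p)) ^ 2 := by
    rw [← Real.rpow_natCast, ← Real.rpow_mul hYnn]
    conv_lhs => rw [← Real.rpow_one Y]
    refine Real.rpow_le_rpow_of_exponent_le hY0 ?_
    rw [div_mul_eq_mul_div, le_div_iff₀ hp0]; push_cast; linarith
  rw [hsum, hroot, ed, mul_pow, mul_pow]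
  have : m ^ 2 * (1 + ρ * β ^ 2) ≤ m ^ 2 * (Y ^ (1 / p)) ^ 2 :=
    mul_le_mul_of_nonneg_left (by linarith) (sq_nonneg _)
  linarith

/-- Two-function two-point hypercontractivity. -/
lemma two_point {ρ p a b c d : ℝ} (hp1 : 1 ≤ p) (hp2 : p ≤ 2) (hρ0 : 0 ≤ ρ)
    (hρ : ρ ≤ 1 - 2 * (2 - p)) (ha : 0 ≤ a) (hb : 0 ≤ b) (hc : 0 ≤ c) (hd : 0 ≤ d) :
    (a * ((1 + ρ) / 2 * c + (1 - ρ) / 2 * d) + b * ((1 + ρ) / 2 * d + (1 - ρ) / 2 * c)) / 2 ≤
      ((a ^ p + b ^ p) / 2) ^ (1 / p) * ((c ^ p + d ^ p) / 2) ^ (1 / p) := by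
  have h1 := two_point_one hp1 hp2 hρ ha hb
  have h2 := two_point_one hp1 hp2 hρ hc hd
  set X := ((a ^ p + b ^ p) / 2) ^ (1 / p)
  set Y := ((c ^ p + d ^ p) / 2) ^ (1 / p)
  have hX : 0 ≤ X := by positivity
  have hY : 0 ≤ Y := by positivity
  set m := (a + b) / 2
  set δ := (a - b) / 2
  set m' := (c + d) / 2
  set δ' := (c - d) / 2
  have e : (a * ((1 + ρ) / 2 * c + (1 - ρ) / 2 * d) + b * ((1 + ρ) / 2 * d + (1 - ρ) / 2 * c)) / 2
      = m * m' + ρ * (δ * δ') := by simp only [m, m', δ, δ']; ring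
  rw [e]
  refine abs_le_of_sq_le_sq' ?_ (mul_nonneg hX hY) |>.2
  have cs : (m * m' + ρ * (δ * δ')) ^ 2 ≤ (m ^ 2 + ρ * δ ^ 2) * (m' ^ 2 + ρ * δ' ^ 2) := by
    nlinarith [mul_nonneg hρ0 (sq_nonneg (m * δ' - m' * δ))]
  calc _ ≤ _ := cs
    _ ≤ X ^ 2 * Y ^ 2 := mul_le_mul h1 h2 (by positivity) (by positivity)
    _ = _ := by ring

lemma mul_log_le_aux {a m : ℝ} (ha : 0 ≤ a) (hm : 0 < m) :
    a * Real.log a - a * Real.log m ≤ a * (a / m - 1) := by
  rcases ha.eq_or_lt with rfl | ha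
  · simp
  have := Real.log_le_sub_one_of_pos (div_pos ha hm)
  rw [Real.log_div ha.ne' hm.ne'] at this
  nlinarith

/-- Two-point entropy bound. -/
lemma two_point_ent {a b K : ℝ} (ha : 0 ≤ a) (hb : 0 ≤ b) (hK0 : 0 ≤ K)
    (hK : (a - b) ^ 2 ≤ K * (2 * (a + b))) :
    (a * Real.log a + b * Real.log b) / 2 - (a + b) / 2 * Real.log ((a + b) / 2) ≤ K := by
  rcases (add_nonneg ha hb).eq_or_lt with h0 | h0
  · have ha0 : a = 0 := by linarith
    have hb0 : b = 0 := by linarith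
    subst ha0 hb0
    simpa using hK0
  have hm : 0 < (a + b) / 2 := by positivity
  have h1 := mul_log_le_aux ha hm
  have h2 := mul_log_le_aux hb hm
  have e : a * (a / ((a + b) / 2) - 1) + b * (b / ((a + b) / 2) - 1) = (a - b) ^ 2 / (a + b) := by
    field_simp; ring
  have h3 : (a - b) ^ 2 / (a + b) ≤ 2 * K := by
    rw [div_le_iff₀ h0]; linarith
  linarith

lemma mgf_two_point {ρ θ : ℝ} (hρ0 : 0 ≤ ρ) (hρ1 : ρ ≤ 1) (hθ : |θ| ≤ 1 / 2) :
    ((1 + ρ) * Real.exp (θ * (1 - ρ) - θ ^ 2) + (1 - ρ) * Real.exp (θ * (-1 - ρ) - θ ^ 2)) / 2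
      ≤ 1 := by
  have hθ' := abs_le.mp hθ
  have a1 : |θ * (1 - ρ)| ≤ 1 := by
    rw [abs_mul, abs_of_nonneg (by linarith : 0 ≤ 1 - ρ)]; nlinarith [abs_nonneg θ]
  have a2 : |θ * (-1 - ρ)| ≤ 1 := by
    rw [abs_mul, abs_of_nonpos (by linarith : -1 - ρ ≤ 0)]; nlinarith [abs_nonneg θ]
  have b1 := (abs_le.mp (Real.abs_exp_sub_one_sub_id_le a1)).2
  have b2 := (abs_le.mp (Real.abs_exp_sub_one_sub_id_le a2)).2
  have c := Real.add_one_le_exp (θ ^ 2)
  rw [Real.exp_sub, Real.exp_sub]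
  have hpos := Real.exp_pos (θ ^ 2)
  rw [← mul_div_assoc, ← mul_div_assoc, ← add_div, div_div, div_le_one (by positivity)]
  have d1 := mul_le_mul_of_nonneg_left b1 (by linarith : 0 ≤ 1 + ρ)
  have d2 := mul_le_mul_of_nonneg_left b2 (by linarith : 0 ≤ 1 - ρ)
  nlinarith [sq_nonneg θ, mul_nonneg (sq_nonneg θ) (sq_nonneg ρ)]

lemma gibbs (p l : ℝ) (hp : 0 ≤ p) : p * l ≤ p * Real.exp l - p := by
  have := Real.add_one_le_exp l
  nlinarith

lemma scaled_small {k γ R U V a b : ℝ} (hk0 : 0 < k) (hk1 : k ≤ 1) (hγ0 : 0 ≤ γ) (hR : 0 ≤ R)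
    (hγ1 : γ * (1 + 2 * R ^ 3) ≤ k / 32) (hV : |V - 1 - U| ≤ k / 64 * |U|)
    (u1 : a ≤ V ^ 2 + γ) (l2 : U ^ 2 - γ * R ^ 3 ≤ b) :
    a ≤ (1 + k) * b + (1 + k / 16) * (U + V) := by
  have hu := abs_nonneg U
  have hU2 := neg_abs_le U
  have hUU : U ^ 2 = |U| ^ 2 := (sq_abs U).symm
  obtain ⟨e, rfl⟩ : ∃ e, V = 1 + U + e := ⟨V - 1 - U, by ring⟩
  have he1 : |e| ≤ k / 64 * |U| := by rwa [show 1 + U + e - 1 - U = e by ring] at hV
  have he2 := abs_le.mp he1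
  have he3 : e ^ 2 ≤ (k / 64 * |U|) ^ 2 := sq_le_sq' he2.1 he2.2
  have he4 : e * U ≤ k / 64 * U ^ 2 := by
    calc e * U ≤ |e * U| := le_abs_self _
      _ = |e| * |U| := abs_mul _ _
      _ ≤ k / 64 * |U| * |U| := mul_le_mul_of_nonneg_right he1 hu
      _ = k / 64 * U ^ 2 := by rw [hUU]; ring
  have he5 : e ^ 2 ≤ k / 64 * U ^ 2 := by
    rw [mul_pow, ← hUU] at he3
    have h : (k / 64) ^ 2 ≤ k / 64 := by nlinarith
    exact he3.trans (mul_le_mul_of_nonneg_right h (sq_nonneg U))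
  have he6 : (1 - k / 16) * e ≤ k / 64 * |U| := by
    calc (1 - k / 16) * e ≤ (1 - k / 16) * (k / 64 * |U|) :=
          mul_le_mul_of_nonneg_left he2.2 (by linarith)
      _ ≤ 1 * (k / 64 * |U|) := mul_le_mul_of_nonneg_right (by linarith) (by positivity)
      _ = _ := one_mul _
  have hq : 0 ≤ k * (|U| - 3 / 16) ^ 2 := by positivity
  have hkU : k * (-|U|) ≤ k * U := mul_le_mul_of_nonneg_left hU2 hk0.le
  have hkU2 : 0 ≤ k * U ^ 2 := by positivity
  have hkU3 : 0 ≤ k * |U| := by positivity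
  have hq' : k * (|U| - 3 / 16) ^ 2 = k * U ^ 2 - 3 / 8 * (k * |U|) + 9 / 256 * k := by
    rw [hUU]; ring
  have key : (1 + U + e) ^ 2 + k / 32 ≤ (1 + k) * U ^ 2 + (1 + k / 16) * (U + (1 + U + e)) := by
    have e1 : (1 + k) * U ^ 2 + (1 + k / 16) * (U + (1 + U + e)) - ((1 + U + e) ^ 2 + k / 32)
        = k * U ^ 2 + k / 32 + 1 / 8 * (k * U) - (1 - k / 16) * e - 2 * (e * U) - e ^ 2 := by ring
    have e2 : k * (-|U|) = -(k * |U|) := by ring
    have e3 : k / 64 * |U| = 1 / 64 * (k * |U|) := by ring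
    have e4 : k / 64 * U ^ 2 = 1 / 64 * (k * U ^ 2) := by ring
    rw [e2] at hkU; rw [e3] at he6; rw [e4] at he4 he5
    linarith
  have h3 : (1 + k) * (U ^ 2 - γ * R ^ 3) ≤ (1 + k) * b :=
    mul_le_mul_of_nonneg_left l2 (by linarith)
  have h5 : 0 ≤ γ * R ^ 3 := by positivity
  have h4 : k * (γ * R ^ 3) ≤ 1 * (γ * R ^ 3) := mul_le_mul_of_nonneg_right hk1 h5
  have e5 : (1 + k) * (U ^ 2 - γ * R ^ 3) = (1 + k) * U ^ 2 - γ * R ^ 3 - k * (γ * R ^ 3) := by ring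
  have e6 : γ * (1 + 2 * R ^ 3) = γ + 2 * (γ * R ^ 3) := by ring
  linarith

lemma scaled_large {k q S U V : ℝ} (hk0 : 0 < k) (hk1 : k ≤ 1) (hq1 : 3 / 2 ≤ q) (hq2 : q ≤ 2)
    (hS1 : 32 ≤ S) (hSk : S * k = 32) (hUR : S ^ 2 ≤ |U|) (hV : |V - 1 - U| ≤ k / 64 * |U|) :
    |V| ^ q ≤ (1 + k) * |U| ^ q + (1 + k / 16) * (U + V) := by
  have hq0 : 0 < q := by linarith
  have hV' := abs_le.mp hV
  have hu := abs_nonneg U
  have hU1 := le_abs_self U
  have hU2 := neg_abs_le U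
  have hR1 : 1 ≤ S ^ 2 := by nlinarith
  have hU1' : 1 ≤ |U| := le_trans hR1 hUR
  have hSpos : 0 < S := by linarith
  have hRk : 16 ≤ k * S ^ 2 := by
    have : k * S ^ 2 = (S * k) * S := by ring
    rw [this, hSk]; linarith
  have hkU : 16 ≤ k * |U| := le_trans hRk (mul_le_mul_of_nonneg_left hUR hk0.le)
  have hkU1 : k * |U| ≤ 1 * |U| := mul_le_mul_of_nonneg_right hk1 hu
  have e3 : k / 64 * |U| = 1 / 64 * (k * |U|) := by ring
  rw [e3] at hV'
  have hVle : |V| ≤ (1 + k / 8) * |U| := by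
    have e4 : (1 + k / 8) * |U| = |U| + 1 / 8 * (k * |U|) := by ring
    rw [abs_le, e4]; constructor <;> linarith [hV'.1, hV'.2]
  have h1 : |V| ^ q ≤ (1 + k / 2) * |U| ^ q := by
    calc |V| ^ q ≤ ((1 + k / 8) * |U|) ^ q := Real.rpow_le_rpow (abs_nonneg _) hVle hq0.le
      _ = (1 + k / 8) ^ q * |U| ^ q := Real.mul_rpow (by linarith) hu
      _ ≤ (1 + k / 2) * |U| ^ q := by
          refine mul_le_mul_of_nonneg_right ?_ (by positivity)
          calc (1 + k / 8) ^ q ≤ (1 + k / 8) ^ (2 : ℝ) :=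
                Real.rpow_le_rpow_of_exponent_le (by linarith) hq2
            _ = (1 + k / 8) ^ 2 := by rw [← Real.rpow_natCast]; norm_num
            _ ≤ 1 + k / 2 := by nlinarith
  have h2 : S * |U| ≤ |U| ^ q := by
    have e1 : |U| ^ q = |U| ^ (q - 1) * |U| := by
      rw [Real.rpow_sub_one (by linarith)]; field_simp
    rw [e1]
    refine mul_le_mul_of_nonneg_right ?_ hu
    calc S = (S ^ 2) ^ (1 / 2 : ℝ) := by
          rw [← Real.rpow_natCast, ← Real.rpow_mul hSpos.le]; norm_num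
      _ ≤ |U| ^ (1 / 2 : ℝ) := Real.rpow_le_rpow (by linarith) hUR (by norm_num)
      _ ≤ |U| ^ (q - 1) := Real.rpow_le_rpow_of_exponent_le hU1' (by linarith)
  have h3 : 32 * |U| ≤ k * |U| ^ q := by
    have := mul_le_mul_of_nonneg_left h2 hk0.le
    rwa [show k * (S * |U|) = (S * k) * |U| by ring, hSk] at this
  have h4 : -(U + V) ≤ 3 * |U| := by linarith [hV'.1]
  have h5 : (1 + k / 16) * (-(U + V)) ≤ (1 + k / 16) * (3 * |U|) :=
    mul_le_mul_of_nonneg_left h4 (by linarith)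
  have e5 : (1 + k / 16) * (-(U + V)) = -((1 + k / 16) * (U + V)) := by ring
  have e6 : (1 + k / 16) * (3 * |U|) = 3 * |U| + 3 / 16 * (k * |U|) := by ring
  have e7 : (1 + k / 2) * |U| ^ q = |U| ^ q + 1 / 2 * (k * |U| ^ q) := by ring
  have e8 : (1 + k) * |U| ^ q = |U| ^ q + k * |U| ^ q := by ring
  linarith

/-- The scale-free inequality behind the contraction of gradients. -/
lemma scaled {k : ℝ} (hk0 : 0 < k) (hk1 : k ≤ 1) :
    ∃ γ : ℝ, 0 < γ ∧ γ ≤ 1 / 2 ∧ ∀ q : ℝ, 2 - γ ≤ q → q ≤ 2 → ∀ U V : ℝ,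
      |V - 1 - U| ≤ k / 64 * |U| → |V| ^ q ≤ (1 + k) * |U| ^ q + (1 + k / 16) * (U + V) := by
  obtain ⟨S, hS⟩ : ∃ S : ℝ, S = 32 / k := ⟨_, rfl⟩
  have hS1 : 32 ≤ S := by rw [hS, le_div_iff₀ hk0]; linarith
  have hSk : S * k = 32 := by rw [hS]; field_simp
  obtain ⟨R, hR⟩ : ∃ R : ℝ, R = S ^ 2 := ⟨_, rfl⟩
  have hR1 : 1 ≤ R := by rw [hR]; nlinarith
  have hR3 : 0 ≤ R ^ 3 := by positivity
  have hγ : k / 32 / (1 + 2 * R ^ 3) ≤ 1 / 2 := by
    rw [div_le_iff₀ (by positivity)]; linarith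
  refine ⟨k / 32 / (1 + 2 * R ^ 3), by positivity, hγ, ?_⟩
  intro q hq1 hq2 U V hV
  have hγ0 : 0 ≤ 2 - q := by linarith
  have hγ1 : (2 - q) * (1 + 2 * R ^ 3) ≤ k / 32 := by
    rw [← le_div_iff₀ (by positivity)]; linarith
  have hq0 : 0 < q := by linarith
  have hu := abs_nonneg U
  rcases le_total |U| R with hUR | hUR
  · have u1 := rpow_upper (abs_nonneg V) hq0.le hq2
    have l1 := rpow_lower hu hq0 hq2
    rw [sq_abs] at u1 l1
    have hUU : U ^ 2 = |U| ^ 2 := (sq_abs U).symm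
    have l2 : U ^ 2 - (2 - q) * R ^ 3 ≤ |U| ^ q := by
      have : U ^ 2 * (|U| - 1) ≤ R ^ 3 := by
        have h1 : U ^ 2 ≤ R ^ 2 := by rw [hUU]; exact pow_le_pow_left₀ hu hUR 2
        calc U ^ 2 * (|U| - 1) ≤ U ^ 2 * R := mul_le_mul_of_nonneg_left (by linarith) (sq_nonneg _)
          _ ≤ R ^ 2 * R := mul_le_mul_of_nonneg_right h1 (by linarith)
          _ = R ^ 3 := by ring
      have h2 := mul_le_mul_of_nonneg_left this hγ0
      have e : U ^ 2 * (1 - (2 - q) * (|U| - 1)) = U ^ 2 - (2 - q) * (U ^ 2 * (|U| - 1)) := by ring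
      linarith
    exact scaled_small hk0 hk1 hγ0 (by linarith) hγ1 hV u1 l2
  · exact scaled_large hk0 hk1 (by linarith) hq2 hS1 hSk (hR ▸ hUR) hV

/-- The homogeneous form of `scaled`. -/
lemma unscaled {k : ℝ} (hk0 : 0 < k) (hk1 : k ≤ 1) :
    ∃ γ : ℝ, 0 < γ ∧ γ ≤ 1 / 2 ∧ ∀ q : ℝ, 2 - γ ≤ q → q ≤ 2 → ∀ z u v : ℝ,
      |v - z - u| ≤ k / 64 * |u| →
        |v| ^ q ≤ (1 + k) * |u| ^ q + (1 + k / 16) * (|z| ^ q / z) * (u + v) := by
  obtain ⟨γ, hγ0, hγ1, H⟩ := scaled hk0 hk1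
  refine ⟨γ, hγ0, hγ1, fun q hq1 hq2 z u v h => ?_⟩
  have hq0 : 0 < q := by linarith
  rcases eq_or_ne z 0 with rfl | hz
  · simp only [div_zero, mul_zero, zero_mul, add_zero]
    have h' := abs_le.mp h
    have hu := abs_nonneg u
    have hVle : |v| ≤ (1 + k / 64) * |u| := by
      have := le_abs_self u
      have := neg_abs_le u
      rw [abs_le]; constructor <;> linarith
    calc |v| ^ q ≤ ((1 + k / 64) * |u|) ^ q := Real.rpow_le_rpow (abs_nonneg _) hVle hq0.le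
      _ = (1 + k / 64) ^ q * |u| ^ q := Real.mul_rpow (by linarith) hu
      _ ≤ (1 + k) * |u| ^ q := by
          refine mul_le_mul_of_nonneg_right ?_ (by positivity)
          calc (1 + k / 64) ^ q ≤ (1 + k / 64) ^ (2 : ℝ) :=
                Real.rpow_le_rpow_of_exponent_le (by linarith) hq2
            _ = (1 + k / 64) ^ 2 := by rw [← Real.rpow_natCast]; norm_num
            _ ≤ 1 + k := by nlinarith
  have hz' : 0 < |z| := abs_pos.mpr hz
  have hzq : 0 < |z| ^ q := Real.rpow_pos_of_pos hz' q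
  have h1 := H q hq1 hq2 (u / z) (v / z) (by
    rw [show v / z - 1 - u / z = (v - z - u) / z by field_simp, abs_div, abs_div,
      ← mul_div_assoc]
    exact div_le_div_of_nonneg_right h hz'.le)
  rw [abs_div, abs_div, Real.div_rpow (abs_nonneg _) hz'.le,
    Real.div_rpow (abs_nonneg _) hz'.le, div_le_iff₀ hzq] at h1
  refine h1.trans (le_of_eq ?_)
  field_simp

lemma tilt_bound {R s : ℝ} (hR : 0 < R) (hs0 : 0 ≤ s) (hs1 : s ≤ 1) :
    |(R ^ (1 + s) - 1) / (R ^ (1 + s) + 1) - (R - 1) / (R + 1)| ≤ 2 * s * |(R - 1) / (R + 1)| := by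
  have hP : 0 < R ^ s := Real.rpow_pos_of_pos hR s
  rw [Real.rpow_add hR, Real.rpow_one]
  set P := R ^ s with hPdef
  have hRP : 0 < R * P := mul_pos hR hP
  have e : (R * P - 1) / (R * P + 1) - (R - 1) / (R + 1)
      = (2 * (R * (P - 1)) / (R * P + 1)) / (R + 1) := by
    field_simp; ring
  rw [e, abs_div, abs_div (R - 1), ← mul_div_assoc]
  refine div_le_div_of_nonneg_right ?_ (abs_nonneg _)
  rw [abs_div, abs_of_pos (by linarith : 0 < R * P + 1), div_le_iff₀ (by linarith)]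
  rcases le_total 1 R with h | h
  · have hP1 : 1 ≤ P := Real.one_le_rpow h hs0
    have hb : P ≤ 1 + s * (R - 1) := by
      have := rpow_one_add_le_one_add_mul_self (s := R - 1) (p := s) (by linarith) hs0 hs1
      rwa [show 1 + (R - 1) = R by ring] at this
    rw [abs_of_nonneg (by nlinarith : 0 ≤ 2 * (R * (P - 1))), abs_of_nonneg (by linarith)]
    have h1 : R * (P - 1) ≤ R * (s * (R - 1)) := mul_le_mul_of_nonneg_left (by linarith) hR.le
    have h2 : 0 ≤ s * (R - 1) := mul_nonneg hs0 (by linarith)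
    have h3 : R ≤ R * P + 1 := by nlinarith
    nlinarith
  · have hP1 : P ≤ 1 := Real.rpow_le_one hR.le h hs0
    have hb : P⁻¹ ≤ 1 + s * (R⁻¹ - 1) := by
      have hR1 : 0 < R⁻¹ := inv_pos.mpr hR
      have := rpow_one_add_le_one_add_mul_self (s := R⁻¹ - 1) (p := s) (by linarith) hs0 hs1
      rwa [show 1 + (R⁻¹ - 1) = R⁻¹ by ring, Real.inv_rpow hR.le] at this
    have hb2 : R * (1 - P) ≤ s * (1 - R) := by
      have h1 : 1 - P ≤ P⁻¹ - 1 := by
        have : P * P⁻¹ = 1 := mul_inv_cancel₀ hP.ne'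
        have h4 : 0 < P⁻¹ := inv_pos.mpr hP
        nlinarith [sq_nonneg (1 - P)]
      have h2 : R * (1 - P) ≤ R * (s * (R⁻¹ - 1)) := mul_le_mul_of_nonneg_left (by linarith) hR.le
      have h3 : R * R⁻¹ = 1 := mul_inv_cancel₀ hR.ne'
      calc _ ≤ _ := h2
        _ = s * (R * R⁻¹ - R) := by ring
        _ = _ := by rw [h3]
    rw [abs_of_nonpos (by nlinarith : 2 * (R * (P - 1)) ≤ 0), abs_of_nonpos (by linarith)]
    have h2 : 0 ≤ s * (1 - R) := mul_nonneg hs0 (by linarith)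
    nlinarith

lemma abs_ratio_le_one {y : ℝ} (hy : 0 < y) : |(y - 1) / (y + 1)| ≤ 1 := by
  rw [abs_div, abs_of_pos (by linarith : 0 < y + 1), div_le_one (by linarith), abs_le]
  constructor <;> linarith

lemma edge_big {δ u v w z a : ℝ} (hδ0 : 0 < δ) (hu1 : |u| ≤ 1) (hz1 : |z| ≤ 1) (hv1 : |v| ≤ 1)
    (hid : v = z + w - w * (z * v)) (hw3 : |w| ≤ 3 * |u|) (hzδ : δ < |z|) (ha : a ≤ |v|) :
    a ≤ (if 0 ≤ z then 2 else -2) * (u + v) + 500 / δ ^ 2 * u ^ 2 := by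
  have hu' := abs_le.mp hu1
  have hv' := abs_le.mp hv1
  have hC : 0 ≤ 500 / δ ^ 2 * u ^ 2 := by positivity
  by_cases hsmall : |u| ≤ δ / 10
  · have h1 : |v - z| ≤ 6 * |u| := by
      have e : v - z = w * (1 - z * v) := by linarith
      rw [e, abs_mul]
      have h5 : |z| * |v| ≤ 1 := mul_le_one₀ hz1 (abs_nonneg _) hv1
      have : |1 - z * v| ≤ 2 := by
        calc |1 - z * v| ≤ |1| + |z * v| := abs_sub _ _
          _ ≤ 2 := by rw [abs_one, abs_mul]; linarith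
      calc |w| * |1 - z * v| ≤ (3 * |u|) * 2 :=
            mul_le_mul hw3 this (abs_nonneg _) (by positivity)
        _ = _ := by ring
    have h2 := abs_le.mp h1
    have h3 := le_abs_self u
    have h4 := neg_abs_le u
    split_ifs with hz0
    · rw [abs_of_nonneg hz0] at hzδ
      have hv0 : 0 ≤ v := by linarith [h2.1]
      rw [abs_of_nonneg hv0] at ha
      linarith [h2.1]
    · have hz0' : z < 0 := not_le.mp hz0
      rw [abs_of_neg hz0'] at hzδ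
      have hv0 : v ≤ 0 := by linarith [h2.2]
      rw [abs_of_nonpos hv0] at ha
      linarith [h2.2]
  · have h1 : δ / 10 ≤ |u| := (not_le.mp hsmall).le
    have h2 : (δ / 10) ^ 2 ≤ u ^ 2 := by
      rw [← sq_abs u]; exact pow_le_pow_left₀ (by positivity) h1 2
    have h3 : 5 ≤ 500 / δ ^ 2 * u ^ 2 := by
      calc (5 : ℝ) = 500 / δ ^ 2 * (δ / 10) ^ 2 := by field_simp; norm_num
        _ ≤ _ := mul_le_mul_of_nonneg_left h2 (by positivity)
    split_ifs <;> linarith [hu'.1, hu'.2, hv'.1, hv'.2]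

lemma edge_small {k s u v w z : ℝ} (hs1 : s ≤ k / 256) (hv1 : |v| ≤ 1)
    (hid : v = z + w - w * (z * v)) (hw3 : |w| ≤ 3 * |u|) (ht : |w - u| ≤ 2 * s * |u|)
    (hzδ : |z| ≤ k / 384) : |v - z - u| ≤ k / 64 * |u| := by
  have hun := abs_nonneg u
  have e : v - z - u = (w - u) - w * (z * v) := by linarith
  have h1 : |w * (z * v)| ≤ 3 * |u| * (k / 384) := by
    rw [abs_mul, abs_mul]
    refine mul_le_mul hw3 ?_ (by positivity) (by positivity)
    calc |z| * |v| ≤ |z| * 1 := mul_le_mul_of_nonneg_left hv1 (abs_nonneg _)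
      _ ≤ _ := by linarith
  have h2 : 2 * s * |u| ≤ 2 * (k / 256) * |u| :=
    mul_le_mul_of_nonneg_right (by linarith) hun
  calc |v - z - u| ≤ |w - u| + |w * (z * v)| := by rw [e]; exact abs_sub _ _
    _ ≤ 2 * (k / 256) * |u| + 3 * |u| * (k / 384) := by linarith
    _ = k / 64 * |u| := by ring

/-- The relative difference of `y` and `1`. -/
noncomputable def rel (y : ℝ) : ℝ := (y - 1) / (y + 1)

/-- The inequality on one edge with both ends in the set. -/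
lemma edge_ineq {k : ℝ} (hk0 : 0 < k) (hk1 : k ≤ 1) :
    ∃ γ C : ℝ, 0 < γ ∧ γ ≤ 1 / 2 ∧ 0 < C ∧ ∀ q : ℝ, 2 - γ ≤ q → q ≤ 2 → ∃ μ : ℝ → ℝ,
      ∀ ω R : ℝ, 0 < ω → 0 < R →
        |rel (ω * R ^ (1 / (q - 1)))| ^ q ≤
          (1 + k) * |rel R| ^ q + μ ω * (rel R + rel (ω * R ^ (1 / (q - 1)))) + C * rel R ^ 2 := by
  obtain ⟨γ, hγ0, hγ1, H⟩ := unscaled hk0 hk1
  have hδ0 : 0 < k / 384 := by positivity
  refine ⟨min γ (k / 512), 500 / (k / 384) ^ 2, lt_min hγ0 (by positivity),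
    (min_le_left _ _).trans hγ1, by positivity, fun q hq1 hq2 => ?_⟩
  have hq1' : 2 - γ ≤ q := le_trans (by linarith [min_le_left γ (k / 512)]) hq1
  have hq3 : 2 - k / 512 ≤ q := le_trans (by linarith [min_le_right γ (k / 512)]) hq1
  refine ⟨fun ω => if |rel ω| ≤ k / 384 then (1 + k / 16) * (|rel ω| ^ q / rel ω)
    else if 0 ≤ rel ω then 2 else -2, fun ω R hω hR => ?_⟩
  have hq0 : 1 / 2 ≤ q - 1 := by linarith
  obtain ⟨s, hs⟩ : ∃ s : ℝ, s = 1 / (q - 1) - 1 := ⟨_, rfl⟩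
  have hs0 : 0 ≤ s := by
    rw [hs, sub_nonneg, le_div_iff₀ (by linarith)]; linarith
  have hs1 : s ≤ k / 256 := by
    rw [hs, sub_le_iff_le_add, div_le_iff₀ (by linarith)]; nlinarith
  have er : 1 / (q - 1) = 1 + s := by rw [hs]; ring
  rw [er]
  have ht : |rel (R ^ (1 + s)) - rel R| ≤ 2 * s * |rel R| := tilt_bound hR hs0 (by linarith)
  have hy : 0 < R ^ (1 + s) := Real.rpow_pos_of_pos hR _
  generalize R ^ (1 + s) = y at ht hy ⊢
  have hu1 : |rel R| ≤ 1 := abs_ratio_le_one hR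
  have hz1 : |rel ω| ≤ 1 := abs_ratio_le_one hω
  have hv1 : |rel (ω * y)| ≤ 1 := abs_ratio_le_one (mul_pos hω hy)
  have hid : rel (ω * y) = rel ω + rel y - rel y * (rel ω * rel (ω * y)) := by
    have := mul_pos hω hy
    unfold rel; field_simp; ring
  simp only
  generalize rel R = u at *
  generalize rel y = w at *
  generalize rel ω = z at *
  generalize rel (ω * y) = v at *
  have hun := abs_nonneg u
  have hw3 : |w| ≤ 3 * |u| := by
    have h2 : 2 * s * |u| ≤ 2 * |u| := mul_le_mul_of_nonneg_right (by linarith) hun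
    calc |w| = |u + (w - u)| := by ring_nf
      _ ≤ |u| + |w - u| := abs_add_le _ _
      _ ≤ 3 * |u| := by linarith
  have hC : 0 ≤ 500 / (k / 384) ^ 2 * u ^ 2 := by positivity
  have huq : 0 ≤ (1 + k) * |u| ^ q := by positivity
  have hvq : |v| ^ q ≤ |v| := by
    rcases (abs_nonneg v).eq_or_lt with h | h
    · rw [← h, Real.zero_rpow (by linarith)]
    · conv_rhs => rw [← Real.rpow_one |v|]
      exact Real.rpow_le_rpow_of_exponent_ge h hv1 (by linarith)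
  by_cases hzδ : |z| ≤ k / 384
  · rw [if_pos hzδ]
    have := H q hq1' hq2 z u v (edge_small hs1 hv1 hid hw3 ht hzδ)
    linarith
  · rw [if_neg hzδ]
    have := edge_big hδ0 hu1 hz1 hv1 hid hw3 (not_le.mp hzδ) hvq
    linarith

end Pool.Agent.H71Z.KK
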