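import Pool.Agent.H71Z.KK.Basic
import Pool.Agent.H71Z.KK.Scalar

/-! Hypercontractivity and the logarithmic Sobolev inequality on the cube. -/

set_option linter.unusedSectionVars false

namespace Pool.Agent.H71Z.KK

open Finset

variable {ι : Type*} [Fintype ι] [DecidableEq ι]

/-- Correlation `ρ` on `U` and `1` elsewhere. -/
def onU (U : Finset ι) (ρ : ℝ) : ι → ℝ := fun j => if j ∈ U then ρ else 1

lemma onU_insert {U : Finset ι} {i : ι} (hi : i ∉ U) (ρ : ℝ) :
    Function.update (onU (insert i U) ρ) i 1 = onU U ρ := by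
  funext j
  by_cases h : j = i
  · subst h; simp [onU, hi]
  · simp [onU, h]

lemma hc_aux {ρ p : ℝ} (hp1 : 1 ≤ p) (hp2 : p ≤ 2) (hρ0 : 0 ≤ ρ) (hρ : ρ ≤ 1 - 2 * (2 - p))
    (U : Finset ι) : ∀ f g : (ι → Bool) → ℝ, (∀ x, 0 ≤ f x) → (∀ x, 0 ≤ g x) →
      E (fun x => f x * T (onU U ρ) g x) ≤
        E (fun x => (T (off U) (fun y => f y ^ p) x) ^ (1 / p) *
          (T (off U) (fun y => g y ^ p) x) ^ (1 / p)) := by
  have hp0 : 0 < p := by linarith
  have hρ1 : ρ ≤ 1 := by linarith
  induction U using Finset.induction_on with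
  | empty =>
    intro f g hf hg
    have : onU (∅ : Finset ι) ρ = fun _ => 1 := by funext j; simp [onU]
    rw [this, off_empty]
    refine le_of_eq (E_congr fun x => ?_)
    rw [T_one, T_one, T_one, one_div, Real.rpow_rpow_inv (hf x) hp0.ne',
      Real.rpow_rpow_inv (hg x) hp0.ne']
  | insert i U hi ih =>
    intro f g hf hg
    set Φ : (ι → Bool) → ℝ := fun x => (T (off U) (fun y => f y ^ p) x) ^ (1 / p) with hΦ
    set Γ : (ι → Bool) → ℝ := fun x => (T (off U) (fun y => g y ^ p) x) ^ (1 / p) with hΓ
    have hTf : ∀ x, 0 ≤ T (off U) (fun y => f y ^ p) x := fun x =>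
      T_nonneg (off_nonneg U) (off_le_one U) (fun y => Real.rpow_nonneg (hf y) p) x
    have hTg : ∀ x, 0 ≤ T (off U) (fun y => g y ^ p) x := fun x =>
      T_nonneg (off_nonneg U) (off_le_one U) (fun y => Real.rpow_nonneg (hg y) p) x
    have hΦ0 : ∀ x, 0 ≤ Φ x := fun x => Real.rpow_nonneg (hTf x) _
    have hΓ0 : ∀ x, 0 ≤ Γ x := fun x => Real.rpow_nonneg (hTg x) _
    have h1 := ih f g hf hg
    have h2 := ih f (fun y => g (fl i y)) hf (fun y => hg _)
    have h2' : E (fun x => f x * T (onU U ρ) g (fl i x)) ≤ E (fun x => Φ x * Γ (fl i x)) := by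
      refine le_trans (le_of_eq (E_congr fun x => by rw [T_fl])) (h2.trans (le_of_eq ?_))
      refine E_congr fun x => ?_
      simp only [hΦ, hΓ]
      rw [T_fl i (off U) (fun y => g y ^ p) x]
    have h3 : E (fun x => f x * T (onU (insert i U) ρ) g x) =
        (1 + ρ) / 2 * E (fun x => f x * T (onU U ρ) g x)
          + (1 - ρ) / 2 * E (fun x => f x * T (onU U ρ) g (fl i x)) := by
      rw [← E_const_mul, ← E_const_mul, ← E_add]
      refine E_congr fun x => ?_
      rw [T_step i, onU_insert hi]
      simp only [onU, mem_insert, true_or, if_true]; ring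
    have h4 : (1 + ρ) / 2 * E (fun x => Φ x * Γ x) + (1 - ρ) / 2 * E (fun x => Φ x * Γ (fl i x))
        = E (fun x => Φ x * ((1 + ρ) / 2 * Γ x + (1 - ρ) / 2 * Γ (fl i x))) := by
      rw [← E_const_mul, ← E_const_mul, ← E_add]
      exact E_congr fun x => by ring
    rw [h3]
    calc _ ≤ (1 + ρ) / 2 * E (fun x => Φ x * Γ x)
          + (1 - ρ) / 2 * E (fun x => Φ x * Γ (fl i x)) :=
          add_le_add (mul_le_mul_of_nonneg_left h1 (by linarith))
            (mul_le_mul_of_nonneg_left h2' (by linarith))
      _ = _ := h4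
      _ = _ := (E_symm i _).symm
      _ ≤ _ := E_mono fun x => by
          have t := two_point hp1 hp2 hρ0 hρ (hΦ0 x) (hΦ0 (fl i x)) (hΓ0 x) (hΓ0 (fl i x))
          simp only [fl_fl]
          refine t.trans (le_of_eq ?_)
          rw [T_off_insert hi, T_off_insert hi]
          simp only [hΦ, hΓ, one_div]
          rw [Real.rpow_inv_rpow (hTf _) hp0.ne', Real.rpow_inv_rpow (hTf _) hp0.ne',
            Real.rpow_inv_rpow (hTg _) hp0.ne', Real.rpow_inv_rpow (hTg _) hp0.ne']

lemma T_off_univ (f : (ι → Bool) → ℝ) (x : ι → Bool) : T (off univ) f x = E f := by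
  unfold T ker off
  simp

/-- Hypercontractivity. -/
theorem hypercontr {ρ p : ℝ} (hp1 : 1 ≤ p) (hp2 : p ≤ 2) (hρ0 : 0 ≤ ρ) (hρ : ρ ≤ 1 - 2 * (2 - p))
    (f g : (ι → Bool) → ℝ) (hf : ∀ x, 0 ≤ f x) (hg : ∀ x, 0 ≤ g x) :
    E (fun x => f x * T (fun _ => ρ) g x) ≤
      (E (fun y => f y ^ p)) ^ (1 / p) * (E (fun y => g y ^ p)) ^ (1 / p) := by
  have h := hc_aux hp1 hp2 hρ0 hρ univ f g hf hg
  have : onU (univ : Finset ι) ρ = fun _ => ρ := by funext j; simp [onU]
  rw [this] at h
  simp only [T_off_univ, E_const] at h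
  exact h

lemma lsi_aux (g : (ι → Bool) → ℝ) (U : Finset ι) :
    E (fun x => g x ^ 2 * Real.log (g x ^ 2))
      - E (fun x => T (off U) (fun y => g y ^ 2) x * Real.log (T (off U) (fun y => g y ^ 2) x))
      ≤ ∑ i ∈ U, E (fun x => (g x - g (fl i x)) ^ 2) := by
  induction U using Finset.induction_on with
  | empty => simp [off_empty, T_one]
  | insert i U hi ih =>
    rw [sum_insert hi]
    set H : (ι → Bool) → ℝ := T (off U) (fun y => g y ^ 2) with hH
    have hH0 : ∀ x, 0 ≤ H x := fun x =>
      T_nonneg (off_nonneg U) (off_le_one U) (fun y => sq_nonneg _) x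
    have h1 : E (fun x => H x * Real.log (H x))
        - E (fun x => T (off (insert i U)) (fun y => g y ^ 2) x *
          Real.log (T (off (insert i U)) (fun y => g y ^ 2) x))
        ≤ E (fun x => (g x - g (fl i x)) ^ 2) := by
      rw [← E_symm i (fun x => H x * Real.log (H x)), ← E_sub,
        ← E_T (off U) (fun x => (g x - g (fl i x)) ^ 2)]
      refine E_mono fun x => ?_
      rw [T_off_insert hi]
      refine two_point_ent (hH0 x) (hH0 _)
        (T_nonneg (off_nonneg U) (off_le_one U) (fun y => sq_nonneg _) x) ?_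
      have cs := E_cs (fun y => ker (off U) x y) (fun y => g y - g (fl i y))
        (fun y => g y + g (fl i y)) (fun y => ker_nonneg (off_nonneg U) (off_le_one U) x y)
      have e1 : H x - H (fl i x) =
          E (fun y => ker (off U) x y * ((g y - g (fl i y)) * (g y + g (fl i y)))) := by
        rw [hH, T_fl, ← T_sub]
        exact E_congr fun y => by ring
      have e2 : E (fun y => ker (off U) x y * (g y + g (fl i y)) ^ 2) ≤ 2 * (H x + H (fl i x)) := by
        rw [hH, T_fl, ← T_add, ← T_const_mul]
        exact T_mono (off_nonneg U) (off_le_one U)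
          (f := fun y => (g y + g (fl i y)) ^ 2) (fun y => by
            nlinarith [sq_nonneg (g y - g (fl i y))]) x
      rw [e1]
      exact cs.trans (mul_le_mul_of_nonneg_left e2
        (T_nonneg (off_nonneg U) (off_le_one U) (fun y => sq_nonneg _) x))
    linarith

lemma T_off_inv (U : Finset ι) (f : (ι → Bool) → ℝ) (x y : ι → Bool)
    (h : ∀ j, j ∉ U → x j = y j) : T (off U) f x = T (off U) f y :=
  T_congr_off (off_zero U) f h

/-- Logarithmic Sobolev inequality in the coordinates of `U`. -/
theorem lsi (g : (ι → Bool) → ℝ) (U : Finset ι) :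
    E (fun x => g x ^ 2 * Real.log (g x ^ 2))
      - E (fun x => g x ^ 2 * Real.log (T (off U) (fun y => g y ^ 2) x))
      ≤ ∑ i ∈ U, E (fun x => (g x - g (fl i x)) ^ 2) := by
  have h := lsi_aux g U
  have e := E_mul_off (U := U) (fun x => Real.log (T (off U) (fun y => g y ^ 2) x))
    (fun y => g y ^ 2) (fun x y hxy => by rw [T_off_inv U _ x y hxy])
  simp only [mul_comm (Real.log _)] at e
  rw [e]; exact h

/-- Indicator of a set of vertices. -/
def ind (A : Finset (ι → Bool)) (x : ι → Bool) : ℝ := if x ∈ A then 1 else 0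

/-- Indicator that `x` is in `A` and its neighbour in direction `i` is not. -/
def piv (A : Finset (ι → Bool)) (i : ι) (x : ι → Bool) : ℝ :=
  if x ∈ A ∧ fl i x ∉ A then 1 else 0

lemma ind_nonneg (A : Finset (ι → Bool)) (x : ι → Bool) : 0 ≤ ind A x := by
  unfold ind; split_ifs <;> norm_num

lemma ind_le_one (A : Finset (ι → Bool)) (x : ι → Bool) : ind A x ≤ 1 := by
  unfold ind; split_ifs <;> norm_num

lemma ind_sq (A : Finset (ι → Bool)) (x : ι → Bool) : ind A x ^ 2 = ind A x := by
  unfold ind; split_ifs <;> norm_num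

lemma piv_nonneg (A : Finset (ι → Bool)) (i : ι) (x : ι → Bool) : 0 ≤ piv A i x := by
  unfold piv; split_ifs <;> norm_num

lemma T_ind_pos (A : Finset (ι → Bool)) (U : Finset ι) {x : ι → Bool} (hx : x ∈ A) :
    0 < T (off U) (ind A) x := by
  refine E_pos (fun y => mul_nonneg (ker_nonneg (off_nonneg U) (off_le_one U) x y)
    (ind_nonneg A y)) (x := x) ?_
  have := one_le_ker_diag (off_nonneg U) x
  simp only [ind, hx, if_true]; linarith

/-- Edge-isoperimetric inequality in the subcubes spanned by `U`. -/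
lemma iso_off (A : Finset (ι → Bool)) (U : Finset ι) :
    - E (fun x => ind A x * Real.log (T (off U) (ind A) x)) ≤ 2 * ∑ i ∈ U, E (piv A i) := by
  have h := lsi (ind A) U
  simp only [ind_sq] at h
  have e1 : E (fun x => ind A x * Real.log (ind A x)) = 0 := by
    rw [← E_const (Ω := ι → Bool) 0]
    refine E_congr fun x => ?_
    unfold ind; split_ifs <;> simp
  have e2 : ∀ i, E (fun x => (ind A x - ind A (fl i x)) ^ 2) = 2 * E (piv A i) := by
    intro i
    have : E (fun x => (ind A x - ind A (fl i x)) ^ 2)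
        = E (fun x => piv A i x + piv A i (fl i x)) := by
      refine E_congr fun x => ?_
      simp only [ind, piv, fl_fl]
      by_cases h1 : x ∈ A <;> by_cases h2 : fl i x ∈ A <;> simp [h1, h2]
    rw [this, E_add, E_fl]; ring
  simp only [e1, e2, ← mul_sum] at h
  have e3 : (fun x => ind A x * Real.log (T (off U) (fun y => ind A y) x))
      = fun x => ind A x * Real.log (T (off U) (ind A) x) := rfl
  rw [e3] at h
  linarith

lemma weight_vertex (A : Finset (ι → Bool)) (w : (ι → Bool) → ℝ) (hw0 : ∀ x, 0 ≤ w x)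
    (hw : ∀ x ∈ A, 0 < w x) (U : Finset ι) :
    2 * E (fun x => ind A x * Real.log (w x)) - 2 * ∑ i ∈ U, E (piv A i)
      ≤ E (fun x => w x * T (off U) w x) - E (ind A) := by
  set a : (ι → Bool) → ℝ := T (off U) (ind A) with ha
  have hinv : ∀ x y : ι → Bool, (∀ j, j ∉ U → x j = y j) → (a x)⁻¹ = (a y)⁻¹ :=
    fun x y h => by rw [ha, T_off_inv U _ x y h]
  have hk := ker_nonneg (off_nonneg U) (off_le_one U)
  have key : ∀ x y, ind A x * (a x)⁻¹ * (ker (off U) x y * ind A y) *
      (Real.log (w x) + Real.log (w y) + Real.log (a x)) ≤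
      w x * (ker (off U) x y * w y) - ind A x * (a x)⁻¹ * (ker (off U) x y * ind A y) := by
    intro x y
    by_cases hx : x ∈ A
    · by_cases hy : y ∈ A
      · have hax : 0 < a x := T_ind_pos A U hx
        have g := gibbs (ind A x * (a x)⁻¹ * (ker (off U) x y * ind A y))
          (Real.log (w x) + Real.log (w y) + Real.log (a x))
          (mul_nonneg (mul_nonneg (ind_nonneg _ _) (inv_nonneg.mpr hax.le))
            (mul_nonneg (hk x y) (ind_nonneg _ _)))
        rw [Real.exp_add, Real.exp_add, Real.exp_log (hw x hx), Real.exp_log (hw y hy),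
          Real.exp_log hax] at g
        refine g.trans (le_of_eq ?_)
        simp only [ind, hx, hy, if_true]
        field_simp
      · simp only [ind, hy, if_false, mul_zero, zero_mul, sub_zero]
        exact mul_nonneg (hw0 x) (mul_nonneg (hk x y) (hw0 y))
    · simp only [ind, hx, if_false, zero_mul, sub_zero]
      exact mul_nonneg (hw0 x) (mul_nonneg (hk x y) (hw0 y))
  have hia : ∀ x, ind A x * (a x)⁻¹ * a x = ind A x := by
    intro x
    by_cases hx : x ∈ A
    · have hax : 0 < a x := T_ind_pos A U hx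
      field_simp
    · simp [ind, hx]
  have s1 := E_mono fun x => E_mono (key x)
  have r1 : E (fun x => E (fun y => w x * (ker (off U) x y * w y)
      - ind A x * (a x)⁻¹ * (ker (off U) x y * ind A y)))
      = E (fun x => w x * T (off U) w x) - E (ind A) := by
    rw [← E_sub]
    refine E_congr fun x => ?_
    rw [E_sub, E_const_mul, E_const_mul]
    exact congrArg _ (hia x)
  have l1 : E (fun x => E (fun y => ind A x * (a x)⁻¹ * (ker (off U) x y * ind A y) *
      (Real.log (w x) + Real.log (w y) + Real.log (a x))))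
      = E (fun x => ind A x * Real.log (w x)) + E (fun x => ind A x * Real.log (a x))
        + E (fun x => ind A x * (a x)⁻¹ * T (off U) (fun y => ind A y * Real.log (w y)) x) := by
    rw [← E_add, ← E_add]
    refine E_congr fun x => ?_
    have : E (fun y => ind A x * (a x)⁻¹ * (ker (off U) x y * ind A y) *
        (Real.log (w x) + Real.log (w y) + Real.log (a x)))
        = (ind A x * (a x)⁻¹ * (Real.log (w x) + Real.log (a x))) * a x
          + ind A x * (a x)⁻¹ * T (off U) (fun y => ind A y * Real.log (w y)) x := by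
      rw [ha]
      unfold T
      rw [← E_const_mul, ← E_const_mul, ← E_add]
      exact E_congr fun y => by ring
    rw [this]
    have h2 := hia x
    calc _ = (ind A x * (a x)⁻¹ * a x) * (Real.log (w x) + Real.log (a x))
          + ind A x * (a x)⁻¹ * T (off U) (fun y => ind A y * Real.log (w y)) x := by ring
      _ = _ := by rw [h2]; ring
  have l2 : E (fun x => ind A x * (a x)⁻¹ * T (off U) (fun y => ind A y * Real.log (w y)) x)
      = E (fun x => ind A x * Real.log (w x)) := by
    rw [T_selfadj]
    refine E_congr fun x => ?_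
    have := T_off_mul (U := U) (fun x => (a x)⁻¹) (ind A) hinv x
    simp only [mul_comm (ind A _) (a _)⁻¹]
    rw [this]
    have h2 := hia x
    calc _ = (ind A x * (a x)⁻¹ * a x) * Real.log (w x) := by rw [ha]; ring
      _ = _ := by rw [h2]
  have i1 := iso_off A U
  rw [r1, l1, l2] at s1
  linarith

lemma weight_affine (A : Finset (ι → Bool)) (w : (ι → Bool) → ℝ) (hw0 : ∀ x, 0 ≤ w x)
    (hw : ∀ x ∈ A, 0 < w x) (V : Finset ι) : ∀ r : ι → ℝ, (∀ j, 0 ≤ r j) → (∀ j, r j ≤ 1) →
      (∀ j, j ∉ V → r j = 0 ∨ r j = 1) →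
    2 * E (fun x => ind A x * Real.log (w x)) - 2 * ∑ i, (1 - r i) * E (piv A i)
      ≤ E (fun x => w x * T r w x) - E (ind A) := by
  induction V using Finset.induction_on with
  | empty =>
    intro r _ _ h
    have hr : r = off (univ.filter fun j => r j = 0) := by
      funext j
      rcases h j (by simp) with h' | h' <;> simp [off, h']
    have := weight_vertex A w hw0 hw (univ.filter fun j => r j = 0)
    rw [← hr] at this
    refine le_trans (le_of_eq ?_) this
    congr 2
    rw [sum_filter]
    refine sum_congr rfl fun j _ => ?_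
    rcases h j (by simp) with h' | h' <;> simp [h']
  | insert i V hi ih =>
    intro r h0 h1 h
    have hup : ∀ t : ℝ, t = 0 ∨ t = 1 →
        2 * E (fun x => ind A x * Real.log (w x))
          - 2 * ∑ j, (1 - Function.update r i t j) * E (piv A j)
        ≤ E (fun x => w x * T (Function.update r i t) w x) - E (ind A) := by
      intro t ht
      refine ih _ (fun j => ?_) (fun j => ?_) (fun j hj => ?_)
      · by_cases hji : j = i
        · subst hji; rcases ht with rfl | rfl <;> simp
        · simp [hji, h0 j]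
      · by_cases hji : j = i
        · subst hji; rcases ht with rfl | rfl <;> simp
        · simp [hji, h1 j]
      · by_cases hji : j = i
        · subst hji; simpa using ht
        · simpa [hji] using h j (by simp [hji, hj])
    have a1 := mul_le_mul_of_nonneg_left (hup 1 (Or.inr rfl)) (h0 i)
    have a0 := mul_le_mul_of_nonneg_left (hup 0 (Or.inl rfl)) (sub_nonneg.mpr (h1 i))
    have e1 : E (fun x => w x * T r w x) = r i * E (fun x => w x * T (Function.update r i 1) w x)
        + (1 - r i) * E (fun x => w x * T (Function.update r i 0) w x) := by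
      rw [← E_const_mul, ← E_const_mul, ← E_add]
      exact E_congr fun x => by rw [T_affine i r]; ring
    have e2 : ∑ j, (1 - r j) * E (piv A j) =
        r i * ∑ j, (1 - Function.update r i 1 j) * E (piv A j)
        + (1 - r i) * ∑ j, (1 - Function.update r i 0 j) * E (piv A j) := by
      rw [mul_sum, mul_sum, ← sum_add_distrib]
      refine sum_congr rfl fun j _ => ?_
      by_cases hji : j = i
      · subst hji; simp
      · simp only [Function.update_of_ne hji]; ring
    rw [e1, e2]
    linarith

/-- A weight with small noise form has small mean logarithm on `A`. -/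
theorem weight_bound (A : Finset (ι → Bool)) (w : (ι → Bool) → ℝ) (hw0 : ∀ x, 0 ≤ w x)
    (hw : ∀ x ∈ A, 0 < w x) {ρ : ℝ} (h0 : 0 ≤ ρ) (h1 : ρ ≤ 1)
    (hQ : E (fun x => w x * T (fun _ => ρ) w x) ≤ E (ind A)) :
    E (fun x => ind A x * Real.log (w x)) ≤ (1 - ρ) * ∑ i, E (piv A i) := by
  have := weight_affine A w hw0 hw univ (fun _ => ρ) (fun _ => h0) (fun _ => h1)
    (fun j hj => absurd (mem_univ j) hj)
  rw [← mul_sum] at this
  linarith

end Pool.Agent.H71Z.KK
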