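import Pool.Agent.H71Z.KK.Tight

/-! Sets with small average sensitivity are dense in a subcube of small codimension. -/

set_option linter.unusedSectionVars false

namespace Pool.Agent.H71Z.KK

open Finset

lemma feas_log_bound {ι : Type*} [Fintype ι] [DecidableEq ι] {A : Finset (ι → Bool)}
    (hA : A.Nonempty) {ρ q : ℝ} (hq1 : 1 < q) (hq2 : q ≤ 2) (h0 : 0 ≤ ρ) (h1 : ρ ≤ 1)
    {w : (ι → Bool) → ℝ} (hw : Feas A ρ q w) (hpos : ∀ x ∈ A, 0 < w x) :
    E (fun x => ind A x * Real.log (w x)) ≤ (1 - ρ) * ∑ i, E (piv A i) := by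
  have hq0 : 0 < q := by linarith
  refine weight_bound A w hw.1 hpos h0 h1 ?_
  have h := hw.2.2 (ind A) (ind_nonneg A)
  have e1 : (fun x => w x * ind A x) = w := by
    funext x
    by_cases hx : x ∈ A
    · simp [ind, hx]
    · simp [hw.2.1 x hx]
  have e2 : (fun x => ind A x ^ q) = ind A := by
    funext x
    unfold ind; split_ifs
    · simp
    · exact Real.zero_rpow hq0.ne'
  rw [e1, e2] at h
  refine le_trans h ?_
  have hα1 : E (ind A) ≤ 1 := by
    rw [← E_const (Ω := ι → Bool) 1]; exact E_mono (ind_le_one A)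
  conv_rhs => rw [← Real.rpow_one (E (ind A))]
  refine Real.rpow_le_rpow_of_exponent_ge (E_ind_pos hA) hα1 ?_
  rw [le_div_iff₀ hq0]; linarith

lemma light_bound {b τ q : ℝ} (hb : 0 ≤ b) (hbτ : b ≤ τ) (hq0 : 0 < q) (hq : q ≤ 2) :
    (2 * b) ^ (2 / q) ≤ 2 * b * (2 * τ) ^ (2 / q - 1) := by
  have h1 : 0 ≤ 2 / q - 1 := by rw [sub_nonneg, le_div_iff₀ hq0]; linarith
  have e : (2 * b) ^ (2 / q) = 2 * b * (2 * b) ^ (2 / q - 1) := by
    rw [mul_comm (2 * b), ← Real.rpow_add_one' (by linarith) (by ring_nf; positivity)]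
    congr 1; ring
  rw [e]
  exact mul_le_mul_of_nonneg_left (Real.rpow_le_rpow (by linarith) (by linarith) h1) (by linarith)

theorem cube_main {ε : ℝ} (hε : 0 < ε) : ∃ K : ℝ, 0 < K ∧
    ∀ (ι : Type) [Fintype ι] [DecidableEq ι] (A : Finset (ι → Bool)), A.Nonempty → ∀ s : ℝ,
      ∑ i, E (piv A i) ≤ s * E (ind A) →
      ∃ S : Finset ι, ∃ x ∈ A, (S.card : ℝ) ≤ K * s ∧
        Real.exp (-(ε * s)) ≤ T (off Sᶜ) (ind A) x := by
  obtain ⟨η, hη0, hη1, hηε⟩ : ∃ η : ℝ, 0 < η ∧ η ≤ 1 / 2 ∧ 10 * η ≤ ε :=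
    ⟨min (ε / 10) (1 / 2), lt_min (by positivity) (by norm_num), min_le_right _ _,
      by linarith [min_le_left (ε / 10) (1 / 2)]⟩
  obtain ⟨γ, C, hγ0, hγ1, hC, Hμ⟩ := edge_ineq hη0 (by linarith)
  obtain ⟨q, hq1, hq2, hqγ, hqη⟩ : ∃ q : ℝ, 1 < q ∧ q < 2 ∧ 2 - γ ≤ q ∧ 2 - q ≤ η / 6 :=
    ⟨2 - min γ (η / 6), by linarith [min_le_left γ (η / 6)],
      by linarith [lt_min hγ0 (by positivity : 0 < η / 6)],
      by linarith [min_le_left γ (η / 6)], by linarith [min_le_right γ (η / 6)]⟩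
  obtain ⟨μ, hμ⟩ := Hμ q hqγ hq2.le
  have hq0 : 0 < q := by linarith
  obtain ⟨σ, hσ0, hσ1, hσ⟩ : ∃ σ : ℝ, 0 < σ ∧ σ < 1 ∧ 1 - σ * σ = η := by
    refine ⟨√(1 - η), Real.sqrt_pos.mpr (by linarith), ?_, ?_⟩
    · rw [Real.sqrt_lt' one_pos]; linarith
    · rw [Real.mul_self_sqrt (by linarith)]; ring
  obtain ⟨θ, hθ0, hθ⟩ : ∃ θ : ℝ, 0 < θ ∧ θ * (24 * C + 1) = η ^ 2 :=
    ⟨η ^ 2 / (24 * C + 1), by positivity, by field_simp⟩
  obtain ⟨B, hB0, hB⟩ : ∃ B : ℝ, 0 < B ∧ B * (θ * η ^ 2) = 3 * η :=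
    ⟨3 * η / (θ * η ^ 2), by positivity, by field_simp⟩
  have hexp : 0 < 2 / q - 1 := by rw [sub_pos, lt_div_iff₀ hq0]; linarith
  obtain ⟨τ, hτ0, hτ⟩ : ∃ τ : ℝ, 0 < τ ∧ (2 * τ) ^ (2 / q - 1) = η / (8 * B) := by
    refine ⟨(η / (8 * B)) ^ (2 / q - 1)⁻¹ / 2, by positivity, ?_⟩
    rw [mul_div_cancel₀ _ (two_ne_zero), Real.rpow_inv_rpow (by positivity) hexp.ne']
  have hc1 : θ * (24 * C / η ^ 2) ≤ 1 := by
    rw [← mul_div_assoc, div_le_one (by positivity)]; linarith
  have hc2 : θ / η ≤ η := by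
    rw [div_le_iff₀ hη0]; linarith [mul_pos hθ0 hC]
  have hc3 : 0 ≤ θ * (24 * C / η ^ 2) := by positivity
  refine ⟨B / τ, by positivity, ?_⟩
  intro ι _ _ A hA s hs
  have hα := E_ind_pos hA
  have hP0 : 0 ≤ ∑ i, E (piv A i) := sum_nonneg fun i _ => E_nonneg (piv_nonneg A i)
  have hs0 : 0 ≤ s := nonneg_of_mul_nonneg_left (hP0.trans hs) hα
  have hρ0 : 0 < σ * σ := mul_pos hσ0 hσ0
  have hρ1 : σ * σ < 1 := by linarith
  obtain ⟨w, hw, hpos, hopt⟩ := exists_opt hA hq1.le hq2.le hρ0.le (by linarith)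
  have hlog := feas_log_bound hA hq1 hq2.le hρ0.le hρ1.le hw hpos
  rw [hσ] at hlog
  obtain ⟨φ, hφ0, hφ1, hφ2, hφ3⟩ := hopt (fun x => (1 + θ * (24 * C / η ^ 2)) * Real.log (w x)
    + θ * ∑ i, ay i (mult A q μ w i) x + θ / η * ∑ i, piv A i x)
  have ht : Tight A σ q w φ := ⟨hσ0, hσ1, hq1, hq2.le, hw, hpos, hφ0, hφ1, hφ2⟩
  have split : ∀ p : (ι → Bool) → ℝ,
      E (fun x => p x * ((1 + θ * (24 * C / η ^ 2)) * Real.log (w x)
        + θ * ∑ i, ay i (mult A q μ w i) x + θ / η * ∑ i, piv A i x))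
      = (1 + θ * (24 * C / η ^ 2)) * E (fun x => p x * Real.log (w x))
        + θ * ∑ i, E (fun x => p x * ay i (mult A q μ w i) x)
        + θ / η * ∑ i, E (fun x => p x * piv A i x) := by
    intro p
    rw [← E_sum, ← E_sum, ← E_const_mul, ← E_const_mul, ← E_const_mul, ← E_add, ← E_add]
    refine E_congr fun x => ?_
    rw [← mul_sum, ← mul_sum]; ring
  rw [split (ind A), split (fun x => φ x ^ q)] at hφ3
  have e1 : ∀ i, E (fun x => ind A x * piv A i x) = E (piv A i) := fun i =>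
    E_congr fun x => by
      unfold ind piv
      by_cases h1 : x ∈ A <;> simp [h1]
  simp only [E_ind_ay_mult, e1, sum_const_zero, mul_zero, add_zero] at hφ3
  set f := ff w φ with hf
  set F := T (fun _ => σ * σ) f with hF
  set Λ := E (fun x => φ x ^ q * Real.log (w x)) with hΛ
  set β : ι → ℝ := fun i => E (fun x => sy i f x * sy i F x * |rg i f x| ^ q) with hβ
  have hF0 : ∀ x, 0 ≤ F x := fun x => (ht.F_pos x).le
  have hβ0 : ∀ i, 0 ≤ β i := fun i => E_nonneg fun x =>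
    mul_nonneg (mul_nonneg (sy_nonneg i ht.f0 x) (sy_nonneg i hF0 x))
      (Real.rpow_nonneg (abs_nonneg _) _)
  obtain ⟨hΛ0, hJ⟩ := ht.J_le (by linarith)
  have hen := energy hρ0 hρ1 ht.f0 ht.F_pos
  rw [hσ] at hen
  set J := E (fun x => f x * F x * (Real.log (f x) - Real.log (F x))) with hJdef
  set En := ∑ i, E (fun x => sy i f x * sy i F x * rg i F x ^ 2) with hEn
  set M := ∑ i, E (fun x => φ x ^ q * ay i (mult A q μ w i) x) with hM
  set V := ∑ i, E (fun x => φ x ^ q * piv A i x) with hV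
  have hsum : η ^ 2 * ∑ i, β i ≤ M + C * En + V / η := by
    rw [mul_sum, hM, hEn, hV, mul_sum, sum_div, ← sum_add_distrib, ← sum_add_distrib]
    refine sum_le_sum fun i _ => ?_
    have a1 := ht.edge_sum hη0.le hC.le μ hμ i
    have a2 := grad_contract hρ0.le hρ1.le hq1.le i ht.f0 ht.F_pos
    rw [hσ] at a1
    have a3 := mul_le_mul_of_nonneg_left a2 (by linarith : 0 ≤ 1 + η)
    have a4 : σ * σ = 1 - η := by linarith
    rw [a4] at a3
    rw [← a4] at a3
    have a5 : (1 + η) * (σ * σ * β i) = β i - η ^ 2 * β i := by rw [a4]; ring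
    simp only [hβ] at a5 ⊢
    linarith
  have hEn2 : C * En ≤ 24 * C / η ^ 2 * Λ := by
    have : En ≤ 24 / η ^ 2 * Λ := by
      rw [div_mul_eq_mul_div, le_div_iff₀ (by positivity)]; linarith
    calc C * En ≤ C * (24 / η ^ 2 * Λ) := mul_le_mul_of_nonneg_left this hC.le
      _ = _ := by ring
  have hR : (1 + θ * (24 * C / η ^ 2)) * E (fun x => ind A x * Real.log (w x))
      + θ / η * ∑ i, E (piv A i) ≤ E (ind A) * (3 * η * s) := by
    have b1 := mul_le_mul_of_nonneg_left hlog (by linarith : 0 ≤ 1 + θ * (24 * C / η ^ 2))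
    have b2 : (1 + θ * (24 * C / η ^ 2)) * (η * ∑ i, E (piv A i)) ≤ 2 * (η * ∑ i, E (piv A i)) :=
      mul_le_mul_of_nonneg_right (by linarith) (by positivity)
    have b3 := mul_le_mul_of_nonneg_right hc2 hP0
    have b4 := mul_le_mul_of_nonneg_left hs hη0.le
    linarith
  have hmain : Λ + θ * (η ^ 2 * ∑ i, β i) ≤ 3 * η * s := by
    have b1 := le_of_mul_le_mul_left (hφ3.trans hR) hα
    have b2 := mul_le_mul_of_nonneg_left (hsum.trans
      (by linarith : M + C * En + V / η ≤ M + 24 * C / η ^ 2 * Λ + V / η)) hθ0.le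
    have b3 : θ / η * V = θ * (V / η) := by ring
    linarith
  have hβs0 : 0 ≤ ∑ i, β i := sum_nonneg fun i _ => hβ0 i
  have hΛ1 : Λ ≤ 3 * η * s := by
    have : 0 ≤ θ * (η ^ 2 * ∑ i, β i) := by positivity
    linarith
  have hβs : ∑ i, β i ≤ B * s := by
    have : (θ * η ^ 2) * ∑ i, β i ≤ (θ * η ^ 2) * (B * s) := by
      have : (θ * η ^ 2) * (B * s) = B * (θ * η ^ 2) * s := by ring
      rw [this, hB]; linarith
    exact le_of_mul_le_mul_left this (by positivity)
  set S := univ.filter (fun i => τ ≤ β i) with hS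
  have hcard : (S.card : ℝ) ≤ B / τ * s := by
    rw [div_mul_eq_mul_div, le_div_iff₀ hτ0]
    calc (S.card : ℝ) * τ = ∑ _i ∈ S, τ := by simp
      _ ≤ ∑ i ∈ S, β i := sum_le_sum fun i hi => (mem_filter.mp hi).2
      _ ≤ ∑ i, β i := sum_le_sum_of_subset_of_nonneg (subset_univ _) fun i _ _ => hβ0 i
      _ ≤ _ := hβs
  have hd := density_bound hσ0.le hσ1.le A Sᶜ ht.f0 ht.fA ht.g_pos ht.F_pos ht.one
  have hlight : ∑ i ∈ Sᶜ, E (fun x => (T (fun _ => σ) f x - T (fun _ => σ) f (fl i x)) ^ 2)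
      ≤ η * s := by
    calc _ ≤ ∑ i ∈ Sᶜ, η / B * β i := sum_le_sum fun i hi => by
          have c1 := ht.e_bound i
          have c2 : β i ≤ τ := by
            have := mem_compl.mp hi
            simp only [hS, mem_filter, mem_univ, true_and, not_le] at this
            exact this.le
          have c3 := light_bound (hβ0 i) c2 hq0 hq2.le
          rw [hτ] at c3
          have c4 : η / B * β i = 4 * (2 * β i * (η / (8 * B))) := by field_simp; ring
          rw [c4]
          exact c1.trans (mul_le_mul_of_nonneg_left c3 (by norm_num))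
      _ ≤ ∑ i, η / B * β i := sum_le_sum_of_subset_of_nonneg (subset_univ _) fun i _ _ =>
          mul_nonneg (by positivity) (hβ0 i)
      _ = η / B * ∑ i, β i := by rw [mul_sum]
      _ ≤ η / B * (B * s) := mul_le_mul_of_nonneg_left hβs (by positivity)
      _ = η * s := by field_simp
  have hfin : - E (fun x => f x * F x * Real.log (T (off Sᶜ) (ind A) x)) ≤ ε * s := by
    have := mul_le_mul_of_nonneg_right hηε hs0
    linarith
  refine ⟨S, ?_⟩
  by_contra hcon
  push Not at hcon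
  obtain ⟨y, hy⟩ := ht.ex_pos
  have hyA : y ∈ A := by
    by_contra hn; rw [ht.fA y hn] at hy; exact lt_irrefl _ hy
  have hlt : ∀ x ∈ A, 0 < - Real.log (T (off Sᶜ) (ind A) x) - ε * s := by
    intro x hx
    have := Real.log_lt_log (T_ind_pos A Sᶜ hx) (hcon x hx hcard)
    rw [Real.log_exp] at this
    linarith
  have hpos2 := E_pos (f := fun x => f x * F x * (- Real.log (T (off Sᶜ) (ind A) x) - ε * s))
    (fun x => by
      by_cases hx : x ∈ A
      · exact mul_nonneg (mul_nonneg (ht.f0 x) (hF0 x)) (hlt x hx).le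
      · have : f x = 0 := ht.fA x hx
        rw [this]; simp)
    (x := y) (mul_pos (mul_pos hy (ht.F_pos y)) (hlt y hyA))
  have e : E (fun x => f x * F x * (- Real.log (T (off Sᶜ) (ind A) x) - ε * s))
      = - E (fun x => f x * F x * Real.log (T (off Sᶜ) (ind A) x))
        - ε * s * E (fun x => f x * F x) := by
    rw [← E_neg, ← E_const_mul, ← E_sub]; exact E_congr fun x => by ring
  have e' : E (fun x => f x * F x) = 1 := ht.one
  rw [e, e'] at hpos2
  linarith

section Count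

variable {ι : Type*} [Fintype ι] [DecidableEq ι]

lemma ker_off_compl (S : Finset ι) (x y : ι → Bool) :
    ker (off Sᶜ) x y = if ∀ i ∈ S, y i = x i then (2 : ℝ) ^ S.card else 0 := by
  split_ifs with h
  · unfold ker
    rw [← prod_filter_mul_prod_filter_not univ (fun i => i ∈ S)]
    have e1 : ∏ j ∈ univ.filter (fun i => i ∈ S), (1 + off Sᶜ j * (sg (x j) * sg (y j)))
        = ∏ _j ∈ univ.filter (fun i => i ∈ S), (2 : ℝ) :=
      prod_congr rfl fun j hj => by
        have hj' : j ∈ S := (mem_filter.mp hj).2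
        rw [h j hj', sg_mul_self]; simp [off, hj']; norm_num
    have e2 : ∏ j ∈ univ.filter (fun i => ¬ i ∈ S), (1 + off Sᶜ j * (sg (x j) * sg (y j))) = 1 :=
      prod_eq_one fun j hj => by
        have hj' : j ∉ S := (mem_filter.mp hj).2
        simp [off, hj']
    rw [e1, e2]; simp
  · by_contra hne
    exact h fun i hi => (ker_off_ne_zero hne i (by simpa using hi)).symm

lemma card_cube : (Fintype.card (ι → Bool) : ℝ) = 2 ^ Fintype.card ι := by simp

lemma T_off_compl_ind (A : Finset (ι → Bool)) (S : Finset ι) (x : ι → Bool) :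
    T (off Sᶜ) (ind A) x = 2 ^ S.card * ((A.filter fun y => ∀ i ∈ S, y i = x i).card : ℝ)
      / 2 ^ Fintype.card ι := by
  unfold T
  rw [E_congr (g := fun y => ind A y * ker (off Sᶜ) x y) (fun y => mul_comm _ _), E_ind_mul,
    card_cube]
  simp only [ker_off_compl]
  rw [← sum_filter, sum_const, nsmul_eq_mul, mul_comm]

lemma card_subcube (S : Finset ι) (x : ι → Bool) :
    2 ^ S.card * ((univ.filter fun y : ι → Bool => ∀ i ∈ S, y i = x i).card : ℝ)
      = 2 ^ Fintype.card ι := by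
  have h := T_off_compl_ind univ S x
  have e : ind (univ : Finset (ι → Bool)) = fun _ => 1 := by funext y; simp [ind]
  rw [e, T_const, eq_div_iff (by positivity), one_mul] at h
  exact h.symm

lemma sum_E_piv (A : Finset (ι → Bool)) :
    ∑ i, E (piv A i) = (((A ×ˢ (univ : Finset ι)).filter (fun p => fl p.2 p.1 ∉ A)).card : ℝ)
      / 2 ^ Fintype.card ι := by
  have e : ∀ i, E (piv A i) = E (fun x => ind A x * if fl i x ∉ A then 1 else 0) := fun i =>
    E_congr fun x => by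
      unfold ind piv
      by_cases h1 : x ∈ A <;> simp [h1]
  simp only [e, E_ind_mul, card_cube]
  rw [← sum_div, card_filter, sum_product_right]
  push_cast
  rfl

end Count

/-- Counting form of the main theorem. -/
theorem cube_count {ε : ℝ} (hε : 0 < ε) : ∃ K : ℝ, 0 < K ∧
    ∀ (ι : Type) [Fintype ι] [DecidableEq ι] (A : Finset (ι → Bool)), A.Nonempty → ∀ s : ℝ,
      (((A ×ˢ (univ : Finset ι)).filter (fun p => fl p.2 p.1 ∉ A)).card : ℝ) ≤ s * A.card →
      ∃ S : Finset ι, ∃ x ∈ A, (S.card : ℝ) ≤ K * s ∧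
        Real.exp (-(ε * s)) * 2 ^ Fintype.card ι ≤
          2 ^ S.card * ((A.filter fun y => ∀ i ∈ S, y i = x i).card : ℝ) := by
  obtain ⟨K, hK, H⟩ := cube_main hε
  refine ⟨K, hK, fun ι _ _ A hA s hs => ?_⟩
  obtain ⟨S, x, hx, h1, h2⟩ := H ι A hA s (by
    rw [sum_E_piv, E_ind, card_cube, ← mul_div_assoc]
    exact div_le_div_of_nonneg_right hs (by positivity))
  refine ⟨S, x, hx, h1, ?_⟩
  rwa [T_off_compl_ind, le_div_iff₀ (by positivity)] at h2

end Pool.Agent.H71Z.KK
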