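import Pool.Agent.H71Z.KK.Ineq

/-! The optimal change of density on a set of vertices. -/

set_option linter.unusedSectionVars false

namespace Pool.Agent.H71Z.KK

open Finset

variable {ι : Type*} [Fintype ι] [DecidableEq ι]

/-- The quadratic form of the noise operator. -/
noncomputable def Q (ρ : ℝ) (g : (ι → Bool) → ℝ) : ℝ := E (fun x => g x * T (fun _ => ρ) g x)

/-- Weights on `A` for which the noise form is bounded by the `q`-norm. -/
def Feas (A : Finset (ι → Bool)) (ρ q : ℝ) (w : (ι → Bool) → ℝ) : Prop :=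
  (∀ x, 0 ≤ w x) ∧ (∀ x, x ∉ A → w x = 0) ∧
    ∀ φ : (ι → Bool) → ℝ, (∀ x, 0 ≤ φ x) →
      Q ρ (fun x => w x * φ x) ≤ (E (fun x => φ x ^ q)) ^ (2 / q)

lemma continuous_Q {X : Type*} [TopologicalSpace X] (ρ : ℝ) {g : X → (ι → Bool) → ℝ}
    (h : ∀ x, Continuous fun t => g t x) : Continuous fun t => Q ρ (g t) := by
  unfold Q T
  exact continuous_E fun x => (h x).mul (continuous_E fun y => continuous_const.mul (h y))

lemma Q_smul (ρ c : ℝ) (g : (ι → Bool) → ℝ) : Q ρ (fun x => c * g x) = c ^ 2 * Q ρ g := by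
  unfold Q
  rw [← E_const_mul]
  exact E_congr fun x => by rw [T_const_mul]; ring

lemma feas_ind (A : Finset (ι → Bool)) {ρ q : ℝ} (hq1 : 1 ≤ q) (hq2 : q ≤ 2) (hρ0 : 0 ≤ ρ)
    (hρ : ρ ≤ 1 - 2 * (2 - q)) : Feas A ρ q (ind A) := by
  refine ⟨ind_nonneg A, fun x hx => by simp [ind, hx], fun φ hφ => ?_⟩
  have hρ1 : ρ ≤ 1 := by linarith
  have h := hypercontr hq1 hq2 hρ0 hρ φ φ hφ hφ
  have hE : 0 ≤ E (fun y => φ y ^ q) := E_nonneg fun y => Real.rpow_nonneg (hφ y) q
  have hle : ∀ x, ind A x * φ x ≤ φ x := fun x => by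
    have := mul_le_mul_of_nonneg_right (ind_le_one A x) (hφ x); linarith
  have hnn : ∀ x, 0 ≤ ind A x * φ x := fun x => mul_nonneg (ind_nonneg A x) (hφ x)
  calc Q ρ (fun x => ind A x * φ x) ≤ E (fun x => φ x * T (fun _ => ρ) φ x) :=
        E_mono fun x => mul_le_mul (hle x) (T_mono (fun _ => hρ0) (fun _ => hρ1) hle x)
          (T_nonneg (fun _ => hρ0) (fun _ => hρ1) hnn x) (hφ x)
    _ ≤ _ := h
    _ = _ := by
        rw [← Real.rpow_add' hE (by positivity)]; congr 1; ring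

lemma feas_bound {A : Finset (ι → Bool)} {ρ q : ℝ} (hq1 : 1 ≤ q) (hρ0 : 0 ≤ ρ) (hρ1 : ρ ≤ 1)
    {w : (ι → Bool) → ℝ} (hw : Feas A ρ q w) (x : ι → Bool) :
    w x ≤ (Fintype.card (ι → Bool) : ℝ) := by
  have hN := card_pos' (Ω := ι → Bool)
  set N := (Fintype.card (ι → Bool) : ℝ)
  set φ : (ι → Bool) → ℝ := fun y => if y = x then 1 else 0 with hφ
  have hφ0 : ∀ y, 0 ≤ φ y := fun y => by simp only [hφ]; split_ifs <;> norm_num
  have h := hw.2.2 φ hφ0
  have h1 : (E (fun y => φ y ^ q)) ^ (2 / q) ≤ 1 := by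
    refine Real.rpow_le_one (E_nonneg fun y => Real.rpow_nonneg (hφ0 y) q) ?_ (by positivity)
    rw [← E_const (Ω := ι → Bool) 1]
    refine E_mono fun y => Real.rpow_le_one (hφ0 y) ?_ (by linarith)
    simp only [hφ]; split_ifs <;> norm_num
  have hg : ∀ y, 0 ≤ w y * φ y := fun y => mul_nonneg (hw.1 y) (hφ0 y)
  have hT : ∀ y, 0 ≤ T (fun _ => ρ) (fun y => w y * φ y) y :=
    T_nonneg (fun _ => hρ0) (fun _ => hρ1) hg
  have h2 := single_le_E (f := fun y => w y * φ y * T (fun _ => ρ) (fun y => w y * φ y) y)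
    (fun y => mul_nonneg (hg y) (hT y)) x
  have h3 := single_le_E (f := fun y => ker (fun _ => ρ) x y * (w y * φ y))
    (fun y => mul_nonneg (ker_nonneg (fun _ => hρ0) (fun _ => hρ1) x y) (hg y)) x
  have h4 := one_le_ker_diag (r := fun _ : ι => ρ) (fun _ => hρ0) x
  have hφx : φ x = 1 := by simp [hφ]
  simp only [hφx, mul_one] at h2 h3
  have h5 : w x ≤ N * T (fun _ => ρ) (fun y => w y * φ y) x := by
    refine le_trans ?_ h3
    have := mul_le_mul_of_nonneg_right h4 (hw.1 x); linarith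
  have h6 : w x * T (fun _ => ρ) (fun y => w y * φ y) x ≤ N := by
    refine h2.trans ?_
    have := mul_le_mul_of_nonneg_left (h.trans h1) hN.le
    rw [mul_one] at this
    exact this
  have h7 : w x * w x ≤ N * N := by
    calc w x * w x ≤ w x * (N * T (fun _ => ρ) (fun y => w y * φ y) x) :=
          mul_le_mul_of_nonneg_left h5 (hw.1 x)
      _ = N * (w x * T (fun _ => ρ) (fun y => w y * φ y) x) := by ring
      _ ≤ N * N := mul_le_mul_of_nonneg_left h6 hN.le
  exact (abs_le_of_sq_le_sq' (by nlinarith) hN.le).2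

lemma feas_compact (A : Finset (ι → Bool)) {ρ q : ℝ} (hq1 : 1 ≤ q) (hρ0 : 0 ≤ ρ) (hρ1 : ρ ≤ 1) :
    IsCompact {w : (ι → Bool) → ℝ | Feas A ρ q w} := by
  have hc : IsClosed {w : (ι → Bool) → ℝ | Feas A ρ q w} := by
    unfold Feas
    simp only [Set.ofPred_and, Set.ofPred_forall]
    refine IsClosed.inter (isClosed_iInter fun x => isClosed_le continuous_const
      (continuous_apply x)) (IsClosed.inter (isClosed_iInter fun x => isClosed_iInter fun _ =>
        isClosed_eq (continuous_apply x) continuous_const)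
      (isClosed_iInter fun φ => isClosed_iInter fun _ => isClosed_le ?_ continuous_const))
    exact continuous_Q ρ fun x => (continuous_apply x).mul continuous_const
  refine (isCompact_Icc (a := (0 : (ι → Bool) → ℝ))
    (b := fun _ => (Fintype.card (ι → Bool) : ℝ))).of_isClosed_subset hc ?_
  intro w hw
  exact ⟨fun x => hw.1 x, fun x => feas_bound hq1 hρ0 hρ1 hw x⟩

lemma sphere_compact {q : ℝ} (hq1 : 1 ≤ q) :
    IsCompact {φ : (ι → Bool) → ℝ | (∀ x, 0 ≤ φ x) ∧ E (fun x => φ x ^ q) = 1} := by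
  have hc : IsClosed {φ : (ι → Bool) → ℝ | (∀ x, 0 ≤ φ x) ∧ E (fun x => φ x ^ q) = 1} := by
    simp only [Set.ofPred_and, Set.ofPred_forall]
    refine IsClosed.inter (isClosed_iInter fun x => isClosed_le continuous_const
      (continuous_apply x)) (isClosed_eq ?_ continuous_const)
    exact continuous_E fun x => (continuous_apply x).rpow_const fun _ => Or.inr (by linarith)
  refine (isCompact_Icc (a := (0 : (ι → Bool) → ℝ))
    (b := fun _ => (Fintype.card (ι → Bool) : ℝ))).of_isClosed_subset hc ?_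
  intro φ hφ
  refine ⟨fun x => hφ.1 x, fun x => ?_⟩
  have h1 := single_le_E (f := fun x => φ x ^ q) (fun y => Real.rpow_nonneg (hφ.1 y) q) x
  rw [hφ.2, mul_one] at h1
  have hN : (1 : ℝ) ≤ (Fintype.card (ι → Bool) : ℝ) := by exact_mod_cast Fintype.card_pos
  rcases le_total (φ x) 1 with h | h
  · exact h.trans hN
  · refine le_trans ?_ h1
    conv_lhs => rw [← Real.rpow_one (φ x)]
    exact Real.rpow_le_rpow_of_exponent_le h hq1

lemma E_ind_mul (A : Finset (ι → Bool)) (h : (ι → Bool) → ℝ) :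
    E (fun x => ind A x * h x) = (∑ x ∈ A, h x) / (Fintype.card (ι → Bool) : ℝ) := by
  unfold E ind
  congr 1
  simp only [ite_mul, one_mul, zero_mul]
  rw [← sum_filter]; simp

lemma E_ind (A : Finset (ι → Bool)) :
    E (ind A) = (A.card : ℝ) / (Fintype.card (ι → Bool) : ℝ) := by
  have := E_ind_mul A (fun _ => 1)
  simpa using this

lemma E_ind_pos {A : Finset (ι → Bool)} (hA : A.Nonempty) : 0 < E (ind A) := by
  obtain ⟨x, hx⟩ := hA
  exact E_pos (ind_nonneg A) (x := x) (by simp [ind, hx])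

lemma perturb {A : Finset (ι → Bool)} {ρ q : ℝ} (hq1 : 1 ≤ q)
    {w : (ι → Bool) → ℝ} (hw : Feas A ρ q w) (k : (ι → Bool) → ℝ) {M : ℝ} (hM : ∀ x, k x ≤ M)
    (hn : ¬ Feas A ρ q (fun x => w x * Real.exp (k x))) :
    ∃ φ : (ι → Bool) → ℝ, (∀ x, 0 ≤ φ x) ∧ E (fun x => φ x ^ q) = 1 ∧
      1 - 2 * M ≤ Q ρ (fun x => w x * φ x) ∧ 0 ≤ E (fun x => φ x ^ q * k x) := by
  have hq0 : 0 < q := by linarith
  have hex : ∃ φ : (ι → Bool) → ℝ, (∀ x, 0 ≤ φ x) ∧
      (E (fun x => φ x ^ q)) ^ (2 / q) < Q ρ (fun x => w x * Real.exp (k x) * φ x) := by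
    by_contra hc
    push Not at hc
    exact hn ⟨fun x => mul_nonneg (hw.1 x) (Real.exp_pos _).le,
      fun x hx => by simp [hw.2.1 x hx], hc⟩
  obtain ⟨φ, hφ0, hφ⟩ := hex
  set ψ : (ι → Bool) → ℝ := fun x => Real.exp (k x) * φ x with hψ
  have hψ0 : ∀ x, 0 ≤ ψ x := fun x => mul_nonneg (Real.exp_pos _).le (hφ0 x)
  have hQ : Q ρ (fun x => w x * Real.exp (k x) * φ x) = Q ρ (fun x => w x * ψ x) := by
    congr 1; funext x; simp only [hψ]; ring
  rw [hQ] at hφ
  have hφq : ∀ x, φ x ^ q = ψ x ^ q * Real.exp (-q * k x) := fun x => by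
    simp only [hψ]
    rw [Real.mul_rpow (Real.exp_pos _).le (hφ0 x), ← Real.exp_mul, mul_comm (Real.exp _),
      mul_assoc, ← Real.exp_add]
    simp [mul_comm]
  simp only [hφq] at hφ
  set X := E (fun x => ψ x ^ q) with hX
  set Y := E (fun x => ψ x ^ q * Real.exp (-q * k x)) with hY
  have hψq : ∀ x, 0 ≤ ψ x ^ q := fun x => Real.rpow_nonneg (hψ0 x) q
  have hX0 : 0 ≤ X := E_nonneg hψq
  have hY0 : 0 ≤ Y := E_nonneg fun x => mul_nonneg (hψq x) (Real.exp_pos _).le
  have hfe := hw.2.2 ψ hψ0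
  have hYX : Y < X := by
    by_contra hc
    have := Real.rpow_le_rpow hX0 (not_lt.mp hc) (by positivity : 0 ≤ 2 / q)
    linarith
  have hXpos : 0 < X := lt_of_le_of_lt hY0 hYX
  set c := X ^ (-(1 / q)) with hc
  have hcpos : 0 < c := Real.rpow_pos_of_pos hXpos _
  have hcq : c ^ q = X⁻¹ := by
    rw [hc, ← Real.rpow_mul hX0, show -(1 / q) * q = -1 by field_simp, Real.rpow_neg_one]
  have hc2 : c ^ 2 * X ^ (2 / q) = 1 := by
    rw [hc, ← Real.rpow_natCast, ← Real.rpow_mul hX0, ← Real.rpow_add hXpos]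
    rw [show -(1 / q) * ((2 : ℕ) : ℝ) + 2 / q = 0 by push_cast; ring, Real.rpow_zero]
  have hcψ : ∀ x, (c * ψ x) ^ q = X⁻¹ * ψ x ^ q := fun x => by
    rw [Real.mul_rpow hcpos.le (hψ0 x), hcq]
  refine ⟨fun x => c * ψ x, fun x => mul_nonneg hcpos.le (hψ0 x), ?_, ?_, ?_⟩
  · simp only [hcψ]
    rw [E_const_mul, ← hX, inv_mul_cancel₀ hXpos.ne']
  · have e : Q ρ (fun x => w x * (c * ψ x)) = c ^ 2 * Q ρ (fun x => w x * ψ x) := by
      rw [← Q_smul]; congr 1; funext x; ring
    rw [e]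
    have h1 : X * Real.exp (-q * M) ≤ Y := by
      rw [hX, ← E_mul_const]
      refine E_mono fun x => mul_le_mul_of_nonneg_left (Real.exp_le_exp.mpr ?_) (hψq x)
      nlinarith [hM x]
    have h2 := Real.rpow_le_rpow (by positivity) h1 (by positivity : 0 ≤ 2 / q)
    rw [Real.mul_rpow hX0 (Real.exp_pos _).le, ← Real.exp_mul,
      show -q * M * (2 / q) = -(2 * M) by field_simp] at h2
    have h3 := Real.add_one_le_exp (-(2 * M))
    have h4 := mul_le_mul_of_nonneg_left (h2.trans hφ.le) (sq_nonneg c)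
    rw [← mul_assoc, hc2, one_mul] at h4
    linarith
  · simp only [hcψ, mul_assoc]
    rw [E_const_mul]
    refine mul_nonneg (inv_nonneg.mpr hX0) ?_
    have h1 : X - q * E (fun x => ψ x ^ q * k x) ≤ Y := by
      rw [hX, ← E_const_mul, ← E_sub]
      refine E_mono fun x => ?_
      have := mul_le_mul_of_nonneg_left (Real.add_one_le_exp (-q * k x)) (hψq x)
      linarith
    by_contra hc
    have := mul_neg_of_pos_of_neg hq0 (not_le.mp hc)
    linarith

/-- Existence of an optimal weight and its first-order optimality condition. -/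
theorem exists_opt {A : Finset (ι → Bool)} (hA : A.Nonempty) {ρ q : ℝ} (hq1 : 1 ≤ q) (hq2 : q ≤ 2)
    (hρ0 : 0 ≤ ρ) (hρ : ρ ≤ 1 - 2 * (2 - q)) :
    ∃ w : (ι → Bool) → ℝ, Feas A ρ q w ∧ (∀ x ∈ A, 0 < w x) ∧
      ∀ h : (ι → Bool) → ℝ, ∃ φ : (ι → Bool) → ℝ, (∀ x, 0 ≤ φ x) ∧ E (fun x => φ x ^ q) = 1 ∧
        Q ρ (fun x => w x * φ x) = 1 ∧
        E (ind A) * E (fun x => φ x ^ q * h x) ≤ E (fun x => ind A x * h x) := by
  have hρ1 : ρ ≤ 1 := by linarith
  have hq0 : 0 < q := by linarith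
  obtain ⟨w, hw, hmax⟩ := (feas_compact A hq1 hρ0 hρ1).exists_isMaxOn
    ⟨ind A, feas_ind A hq1 hq2 hρ0 hρ⟩ (f := fun w : (ι → Bool) → ℝ => ∏ x ∈ A, w x)
    (continuous_finsetProd _ fun x _ => continuous_apply x).continuousOn
  have hw' : Feas A ρ q w := hw
  have hP : 1 ≤ ∏ x ∈ A, w x := by
    have := hmax (feas_ind A hq1 hq2 hρ0 hρ)
    simp only [Set.mem_ofPred_eq] at this
    refine le_trans (le_of_eq ?_) this
    exact (prod_eq_one fun x hx => by simp [ind, hx]).symm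
  have hpos : ∀ x ∈ A, 0 < w x := by
    intro x hx
    refine lt_of_le_of_ne (hw'.1 x) fun h0 => ?_
    rw [prod_eq_zero hx h0.symm] at hP
    linarith
  refine ⟨w, hw', hpos, fun h => ?_⟩
  have hα := E_ind_pos hA
  have hN := card_pos' (Ω := ι → Bool)
  set c := E (fun x => ind A x * h x) / E (ind A) with hc
  set M := ∑ x, |c - h x| + 1 with hM
  have hM1 : ∀ x, c + 1 - h x ≤ M := fun x => by
    have := single_le_sum (f := fun x => |c - h x|) (fun y _ => abs_nonneg _) (mem_univ x)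
    linarith [le_abs_self (c - h x)]
  have hM0 : 1 ≤ M := by
    have : 0 ≤ ∑ x, |c - h x| := sum_nonneg fun y _ => abs_nonneg _
    linarith
  have hcard : (0 : ℝ) < A.card := by exact_mod_cast hA.card_pos
  have hsum : ∑ x ∈ A, h x = A.card * c := by
    rw [hc, E_ind_mul, E_ind]; field_simp
  have step : ∀ s : ℝ, 0 < s → s ≤ 1 → ∃ φ : (ι → Bool) → ℝ, (∀ x, 0 ≤ φ x) ∧
      E (fun x => φ x ^ q) = 1 ∧
      max (1 - Q ρ (fun x => w x * φ x)) (E (fun x => φ x ^ q * h x) - c) ≤ s * (2 * M) := by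
    intro s hs0 hs1
    have hn : ¬ Feas A ρ q (fun x => w x * Real.exp (s * (c + s - h x))) := by
      intro hf
      have := hmax hf
      simp only [Set.mem_ofPred_eq] at this
      rw [prod_mul_distrib, ← Real.exp_sum, ← mul_sum, sum_sub_distrib, hsum, sum_const,
        nsmul_eq_mul] at this
      have h1 : 1 < Real.exp (s * (A.card * (c + s) - A.card * c)) := by
        rw [Real.one_lt_exp_iff]
        have : (A.card : ℝ) * (c + s) - A.card * c = A.card * s := by ring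
        rw [this]; positivity
      nlinarith
    obtain ⟨φ, h0, h1, h2, h3⟩ := perturb hq1 hw' (fun x => s * (c + s - h x)) (M := s * M)
      (fun x => mul_le_mul_of_nonneg_left (by linarith [hM1 x]) hs0.le) hn
    refine ⟨φ, h0, h1, max_le (by linarith) ?_⟩
    have e : E (fun x => φ x ^ q * (s * (c + s - h x)))
        = s * ((c + s) * E (fun x => φ x ^ q) - E (fun x => φ x ^ q * h x)) := by
      rw [← E_const_mul (c + s), ← E_sub, ← E_const_mul]
      exact E_congr fun x => by ring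
    rw [e, h1] at h3
    have h4 := nonneg_of_mul_nonneg_right h3 hs0
    nlinarith
  obtain ⟨φ1, h10, h11, -⟩ := step 1 one_pos le_rfl
  obtain ⟨φ, hφ, hmin⟩ := (sphere_compact (ι := ι) hq1).exists_isMinOn ⟨φ1, h10, h11⟩
    (f := fun φ : (ι → Bool) → ℝ =>
      max (1 - Q ρ (fun x => w x * φ x)) (E (fun x => φ x ^ q * h x) - c))
    (Continuous.continuousOn (Continuous.max
      (continuous_const.sub (continuous_Q ρ fun x => continuous_const.mul (continuous_apply x)))
      ((continuous_E fun x => ((continuous_apply x).rpow_const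
        fun _ => Or.inr hq0.le).mul continuous_const).sub continuous_const)))
  have hG : max (1 - Q ρ (fun x => w x * φ x)) (E (fun x => φ x ^ q * h x) - c) ≤ 0 := by
    refine le_of_forall_pos_le_add fun ε hε => ?_
    obtain ⟨φ2, h20, h21, h22⟩ := step (min 1 (ε / (2 * M))) (lt_min one_pos (by positivity))
      (min_le_left _ _)
    have h1 := hmin (show φ2 ∈ _ from ⟨h20, h21⟩)
    simp only [Set.mem_ofPred_eq] at h1
    have h2 : min 1 (ε / (2 * M)) * (2 * M) ≤ ε := by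
      rw [← le_div_iff₀ (by positivity)]; exact min_le_right _ _
    linarith
  have hG1 := (max_le_iff.mp hG).1
  have hG2 := (max_le_iff.mp hG).2
  refine ⟨φ, hφ.1, hφ.2, le_antisymm ?_ (by linarith), ?_⟩
  · have := hw'.2.2 φ hφ.1
    rwa [hφ.2, Real.one_rpow] at this
  · have : E (fun x => φ x ^ q * h x) ≤ E (fun x => ind A x * h x) / E (ind A) := by linarith
    rwa [le_div_iff₀ hα, mul_comm] at this

end Pool.Agent.H71Z.KK
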