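import Pool.Agent.H71Z.KK.Opt
import Pool.Agent.H71Z.KK.Grad

/-! Extremal functions for an optimal weight. -/

set_option linter.unusedSectionVars false

namespace Pool.Agent.H71Z.KK

open Finset

variable {ι : Type*} [Fintype ι] [DecidableEq ι]

/-- `φ` is extremal for the feasible weight `w`. -/
structure Tight (A : Finset (ι → Bool)) (σ q : ℝ) (w φ : (ι → Bool) → ℝ) : Prop where
  s0 : 0 < σ
  s1 : σ < 1
  q1 : 1 < q
  q2 : q ≤ 2
  feas : Feas A (σ * σ) q w
  wpos : ∀ x ∈ A, 0 < w x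
  p0 : ∀ x, 0 ≤ φ x
  norm : E (fun x => φ x ^ q) = 1
  tight : Q (σ * σ) (fun x => w x * φ x) = 1

/-- The product of the weight and the test function. -/
def ff (w φ : (ι → Bool) → ℝ) (x : ι → Bool) : ℝ := w x * φ x

namespace Tight

variable {A : Finset (ι → Bool)} {σ q : ℝ} {w φ : (ι → Bool) → ℝ} (h : Tight A σ q w φ)
include h

lemma r0 : 0 < σ * σ := mul_pos h.s0 h.s0

lemma r1 : σ * σ < 1 := by nlinarith [h.s0, h.s1]

lemma f0 (x : ι → Bool) : 0 ≤ ff w φ x := mul_nonneg (h.feas.1 x) (h.p0 x)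

lemma fA (x : ι → Bool) (hx : x ∉ A) : ff w φ x = 0 := by simp [ff, h.feas.2.1 x hx]

lemma one : E (fun x => ff w φ x * T (fun _ => σ * σ) (ff w φ) x) = 1 := h.tight

lemma ex_pos : ∃ y, 0 < ff w φ y := by
  by_contra hc
  push Not at hc
  have h1 := h.one
  have : ∀ x, ff w φ x = 0 := fun x => le_antisymm (hc x) (h.f0 x)
  simp only [this, zero_mul, E_const] at h1
  exact zero_ne_one h1

lemma F_pos (x : ι → Bool) : 0 < T (fun _ => σ * σ) (ff w φ) x := by
  obtain ⟨y, hy⟩ := h.ex_pos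
  exact T_pos (fun _ => h.r0.le) (fun _ => h.r1) h.f0 hy x

lemma g_pos (x : ι → Bool) : 0 < T (fun _ => σ) (ff w φ) x := by
  obtain ⟨y, hy⟩ := h.ex_pos
  exact T_pos (fun _ => h.s0.le) (fun _ => h.s1) h.f0 hy x

lemma dual (ψ : (ι → Bool) → ℝ) (hψ : ∀ x, 0 ≤ ψ x) :
    (E (fun x => ψ x * (w x * T (fun _ => σ * σ) (ff w φ) x))) ^ 2
      ≤ (E (fun x => ψ x ^ q)) ^ (2 / q) := by
  have cs := E_cs (fun _ => 1) (T (fun _ => σ) (ff w ψ)) (T (fun _ => σ) (ff w φ))
    (fun _ => zero_le_one)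
  simp only [one_mul, sq] at cs
  rw [E_sq_T, E_sq_T, E_sq_T, h.one, mul_one] at cs
  have e : E (fun x => ψ x * (w x * T (fun _ => σ * σ) (ff w φ) x))
      = E (fun x => ff w ψ x * T (fun _ => σ * σ) (ff w φ) x) :=
    E_congr fun x => by rw [ff]; ring
  rw [e, sq]
  exact cs.trans (h.feas.2.2 ψ hψ)

lemma EL (x : ι → Bool) :
    φ x ^ q = (w x * T (fun _ => σ * σ) (ff w φ) x) ^ (q / (q - 1)) := by
  have hq1 := h.q1
  have hq0 : 0 < q := by linarith
  have hq' : 0 < q - 1 := by linarith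
  set b : (ι → Bool) → ℝ := fun x => w x * T (fun _ => σ * σ) (ff w φ) x with hb
  have hb0 : ∀ x, 0 ≤ b x := fun x => mul_nonneg (h.feas.1 x) (h.F_pos x).le
  have hc : q.HolderConjugate (q / (q - 1)) :=
    (Real.holderConjugate_iff_eq_conjExponent hq1).mpr rfl
  set X := E (fun x => b x ^ (q / (q - 1))) with hX
  have hX0 : 0 ≤ X := E_nonneg fun x => Real.rpow_nonneg (hb0 x) _
  have hd := h.dual (fun x => b x ^ (1 / (q - 1))) (fun x => Real.rpow_nonneg (hb0 x) _)
  have e1 : ∀ x, (b x ^ (1 / (q - 1))) ^ q = b x ^ (q / (q - 1)) := fun x => by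
    rw [← Real.rpow_mul (hb0 x)]; congr 1; field_simp
  have e2 : ∀ x, b x ^ (1 / (q - 1)) * b x = b x ^ (q / (q - 1)) := fun x => by
    rw [← Real.rpow_add_one' (hb0 x) (by positivity)]; congr 1; field_simp; ring
  simp only [e1] at hd
  have e3 : E (fun x => b x ^ (1 / (q - 1)) * (w x * T (fun _ => σ * σ) (ff w φ) x)) = X :=
    E_congr e2
  rw [e3, ← hX] at hd
  have hX1 : X ≤ 1 := by
    by_contra hn
    have hn' : 1 < X := not_le.mp hn
    have : X ^ (2 / q) < X ^ (2 : ℝ) :=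
      Real.rpow_lt_rpow_of_exponent_lt hn' (by rw [div_lt_iff₀ hq0]; linarith)
    rw [Real.rpow_two] at this
    linarith
  have hz := eq_zero_of_E_le
    (f := fun x => φ x ^ q / q + b x ^ (q / (q - 1)) / (q / (q - 1)) - φ x * b x)
    (fun x => sub_nonneg.mpr (Real.young_inequality_of_nonneg (h.p0 x) (hb0 x) hc)) (by
      rw [E_sub, E_add, E_div_const, E_div_const, h.norm, ← hX]
      have : E (fun x => φ x * b x) = 1 := by
        rw [← h.one]; exact E_congr fun x => by simp only [hb, ff]; ring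
      rw [this]
      have h1 : X / (q / (q - 1)) ≤ 1 / (q / (q - 1)) :=
        div_le_div_of_nonneg_right hX1 (by positivity)
      have h2 : 1 / q + 1 / (q / (q - 1)) = 1 := by field_simp; ring
      linarith) x
  exact (Real.young_inequality_eq_iff_of_nonneg (h.p0 x) (hb0 x) hc).mp (by linarith)

lemma phi_eq (x : ι → Bool) :
    φ x = (w x * T (fun _ => σ * σ) (ff w φ) x) ^ (1 / (q - 1)) := by
  have hq1 := h.q1
  have hq0 : 0 < q := by linarith
  have hq' : 0 < q - 1 := by linarith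
  have hb0 : 0 ≤ w x * T (fun _ => σ * σ) (ff w φ) x := mul_nonneg (h.feas.1 x) (h.F_pos x).le
  have : (φ x ^ q) ^ q⁻¹ = ((w x * T (fun _ => σ * σ) (ff w φ) x) ^ (q / (q - 1))) ^ q⁻¹ := by
    rw [h.EL x]
  rw [Real.rpow_rpow_inv (h.p0 x) hq0.ne', ← Real.rpow_mul hb0] at this
  rw [show (1 : ℝ) / (q - 1) = q / (q - 1) * q⁻¹ by field_simp]
  exact this

lemma nu_eq (x : ι → Bool) : φ x ^ q = ff w φ x * T (fun _ => σ * σ) (ff w φ) x := by
  have hq1 := h.q1
  have hq' : 0 < q - 1 := by linarith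
  have hb0 : 0 ≤ w x * T (fun _ => σ * σ) (ff w φ) x := mul_nonneg (h.feas.1 x) (h.F_pos x).le
  have e : ff w φ x * T (fun _ => σ * σ) (ff w φ) x
      = φ x * (w x * T (fun _ => σ * σ) (ff w φ) x) := by rw [ff]; ring
  rw [e, h.EL x]
  conv_rhs => rw [h.phi_eq x]
  rw [← Real.rpow_add_one' hb0 (by positivity)]
  congr 1; field_simp; ring

lemma phi_pos {x : ι → Bool} (hx : x ∈ A) : 0 < φ x := by
  rw [h.phi_eq x]
  exact Real.rpow_pos_of_pos (mul_pos (h.wpos x hx) (h.F_pos x)) _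

lemma f_pos {x : ι → Bool} (hx : x ∈ A) : 0 < ff w φ x := mul_pos (h.wpos x hx) (h.phi_pos hx)

lemma nu_zero {x : ι → Bool} (hx : x ∉ A) : φ x ^ q = 0 := by rw [h.nu_eq, h.fA x hx, zero_mul]

lemma ent_nonneg : 0 ≤ E (fun x => φ x ^ q * Real.log (φ x)) := by
  have hq0 : 0 < q := by linarith [h.q1]
  have key : ∀ x, - q * (φ x ^ q * Real.log (φ x)) ≤ 1 - φ x ^ q := by
    intro x
    by_cases hx : x ∈ A
    · have hp := Real.rpow_pos_of_pos (h.phi_pos hx) q
      have g := gibbs (φ x ^ q) (- Real.log (φ x ^ q)) hp.le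
      rw [Real.exp_neg, Real.exp_log hp, mul_inv_cancel₀ hp.ne', Real.log_rpow (h.phi_pos hx)] at g
      linarith
    · rw [h.nu_zero hx]; simp
  have := E_mono key
  rw [E_const_mul, E_sub, E_const, h.norm] at this
  by_contra hn
  have := mul_pos hq0 (neg_pos.mpr (not_le.mp hn))
  linarith

lemma ent_hc {p : ℝ} (hp1 : 1 ≤ p) (hp2 : p ≤ 2) (hρ : σ * σ ≤ 1 - 2 * (2 - p)) :
    (q / p - 1) * E (fun x => φ x ^ q * Real.log (φ x)) ≤ E (fun x => φ x ^ q * Real.log (w x)) := by
  have hq0 : 0 < q := by linarith [h.q1]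
  have hp0 : 0 < p := by linarith
  set g : (ι → Bool) → ℝ := fun x => φ x ^ (q / p) with hg
  have hg0 : ∀ x, 0 ≤ g x := fun x => Real.rpow_nonneg (h.p0 x) _
  have hc := hypercontr hp1 hp2 h.r0.le hρ g g hg0 hg0
  have e : ∀ x, g x ^ p = φ x ^ q := fun x => by
    simp only [hg]; rw [← Real.rpow_mul (h.p0 x)]; congr 1; field_simp
  simp only [e, h.norm, Real.one_rpow, mul_one] at hc
  set f := ff w φ with hf
  have hk := ker_nonneg (r := fun _ : ι => σ * σ) (fun _ => h.r0.le) (fun _ => h.r1.le)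
  set l : (ι → Bool) → ℝ := fun x => Real.log (g x) - Real.log (f x) with hl
  have key : ∀ x y, f x * (ker (fun _ => σ * σ) x y * f y) * (l x + l y) ≤
      g x * (ker (fun _ => σ * σ) x y * g y) - f x * (ker (fun _ => σ * σ) x y * f y) := by
    intro x y
    by_cases hx : x ∈ A
    · by_cases hy : y ∈ A
      · have gx : 0 < g x := Real.rpow_pos_of_pos (h.phi_pos hx) _
        have gy : 0 < g y := Real.rpow_pos_of_pos (h.phi_pos hy) _
        have fx : 0 < f x := h.f_pos hx
        have fy : 0 < f y := h.f_pos hy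
        have g1 := gibbs _ (l x + l y) (mul_nonneg fx.le (mul_nonneg (hk x y) fy.le))
        simp only [hl] at g1 ⊢
        rw [Real.exp_add, Real.exp_sub, Real.exp_sub, Real.exp_log gx, Real.exp_log gy,
          Real.exp_log fx, Real.exp_log fy] at g1
        refine g1.trans (le_of_eq ?_)
        field_simp
      · have : f y = 0 := h.fA y hy
        rw [this]
        simpa using mul_nonneg (hg0 x) (mul_nonneg (hk x y) (hg0 y))
    · have : f x = 0 := h.fA x hx
      rw [this]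
      simpa using mul_nonneg (hg0 x) (mul_nonneg (hk x y) (hg0 y))
  have s1 := E_mono fun x => E_mono (key x)
  have r1 : E (fun x => E (fun y => g x * (ker (fun _ => σ * σ) x y * g y)
      - f x * (ker (fun _ => σ * σ) x y * f y))) = E (fun x => g x * T (fun _ => σ * σ) g x) - 1 := by
    rw [← h.one, ← E_sub]
    refine E_congr fun x => ?_
    rw [E_sub, E_const_mul, E_const_mul]; rfl
  have l1 : E (fun x => E (fun y => f x * (ker (fun _ => σ * σ) x y * f y) * (l x + l y)))
      = E (fun x => f x * T (fun _ => σ * σ) f x * l x)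
        + E (fun x => f x * T (fun _ => σ * σ) (fun y => f y * l y) x) := by
    rw [← E_add]
    refine E_congr fun x => ?_
    unfold T
    rw [← E_const_mul, ← E_const_mul, ← E_mul_const, ← E_add]
    exact E_congr fun y => by ring
  have l2 : E (fun x => f x * T (fun _ => σ * σ) (fun y => f y * l y) x)
      = E (fun x => f x * T (fun _ => σ * σ) f x * l x) := by
    rw [T_selfadj]; exact E_congr fun x => by ring
  have l3 : E (fun x => f x * T (fun _ => σ * σ) f x * l x)
      = (q / p - 1) * E (fun x => φ x ^ q * Real.log (φ x))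
        - E (fun x => φ x ^ q * Real.log (w x)) := by
    rw [← E_const_mul, ← E_sub]
    refine E_congr fun x => ?_
    rw [hf, ← h.nu_eq x]
    by_cases hx : x ∈ A
    · simp only [hl, hg, hf, ff]
      rw [Real.log_rpow (h.phi_pos hx), Real.log_mul (h.wpos x hx).ne' (h.phi_pos hx).ne']; ring
    · rw [h.nu_zero hx]; simp
  rw [r1, l1, l2, l3] at s1
  linarith

lemma J_eq : E (fun x => ff w φ x * T (fun _ => σ * σ) (ff w φ) x *
      (Real.log (ff w φ x) - Real.log (T (fun _ => σ * σ) (ff w φ) x)))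
    = 2 * E (fun x => φ x ^ q * Real.log (w x))
      + (2 - q) * E (fun x => φ x ^ q * Real.log (φ x)) := by
  have hq' : 0 < q - 1 := by linarith [h.q1]
  rw [← E_const_mul, ← E_const_mul, ← E_add]
  refine E_congr fun x => ?_
  rw [← h.nu_eq x]
  by_cases hx : x ∈ A
  · have e := congrArg Real.log (h.phi_eq x)
    rw [Real.log_rpow (mul_pos (h.wpos x hx) (h.F_pos x)),
      Real.log_mul (h.wpos x hx).ne' (h.F_pos x).ne'] at e
    have e2 : Real.log (T (fun _ => σ * σ) (ff w φ) x)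
        = (q - 1) * Real.log (φ x) - Real.log (w x) := by
      rw [e]; field_simp; ring
    rw [e2, ff, Real.log_mul (h.wpos x hx).ne' (h.phi_pos hx).ne']; ring
  · rw [h.nu_zero hx]; simp

/-- With `2 - q` small, the entropy `J` is controlled by the mean of `log w`. -/
lemma J_le (hq : 2 - q ≤ (1 - σ * σ) / 6) :
    0 ≤ E (fun x => φ x ^ q * Real.log (w x)) ∧
    E (fun x => ff w φ x * T (fun _ => σ * σ) (ff w φ) x *
      (Real.log (ff w φ x) - Real.log (T (fun _ => σ * σ) (ff w φ) x)))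
      ≤ 3 * E (fun x => φ x ^ q * Real.log (w x)) := by
  have h0 := h.r0
  have h1 := h.r1
  have h2 := h.q2
  have hp0 : 0 < 2 - (1 - σ * σ) / 2 := by linarith
  have he := h.ent_hc (p := 2 - (1 - σ * σ) / 2) (by linarith) (by linarith) (by linarith)
  have hc : 2 - q ≤ q / (2 - (1 - σ * σ) / 2) - 1 := by
    rw [le_sub_iff_add_le, le_div_iff₀ hp0]; nlinarith
  have hD := h.ent_nonneg
  have h3 := mul_le_mul_of_nonneg_right hc hD
  have h4 := mul_nonneg (by linarith : 0 ≤ 2 - q) hD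
  rw [h.J_eq]
  constructor <;> linarith

/-- Small-set expansion bounds the gradient of the half-smoothed function. -/
lemma e_bound (i : ι) :
    E (fun x => (T (fun _ => σ) (ff w φ) x - T (fun _ => σ) (ff w φ) (fl i x)) ^ 2) ≤
      4 * (2 * E (fun x => sy i (ff w φ) x * sy i (T (fun _ => σ * σ) (ff w φ)) x *
        |rg i (ff w φ) x| ^ q)) ^ (2 / q) := by
  have hq0 : 0 < q := by linarith [h.q1]
  set f := ff w φ with hf
  have hs0 : ∀ _ : ι, 0 ≤ σ := fun _ => h.s0.le
  have hs1 : ∀ _ : ι, σ ≤ 1 := fun _ => h.s1.le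
  set G : (ι → Bool) → ℝ := fun x => f x * |rg i f x| with hG
  have hsyG : (fun y => |ay i f y|) = sy i G := by
    funext y
    rw [← sy_mul_rg i h.f0 y, abs_mul, abs_of_nonneg (sy_nonneg i h.f0 y)]
    simp only [hG, sy, rg_fl, abs_neg]; ring
  have a1 : ∀ x, (T (fun _ => σ) f x - T (fun _ => σ) f (fl i x)) ^ 2 ≤
      4 * ((T (fun _ => σ) G x ^ 2 + T (fun _ => σ) G (fl i x) ^ 2) / 2) := by
    intro x
    have b1 := abs_T_le hs0 hs1 (ay i f) x
    rw [hsyG, ← sy_T, ← ay_T] at b1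
    have b2 : ay i (T (fun _ => σ) f) x ^ 2 ≤ sy i (T (fun _ => σ) G) x ^ 2 :=
      sq_le_sq' (abs_le.mp b1).1 (abs_le.mp b1).2
    unfold ay sy at b2
    nlinarith [sq_nonneg (T (fun _ => σ) G x - T (fun _ => σ) G (fl i x))]
  have a2 := E_mono a1
  rw [E_const_mul, E_symm i (fun x => T (fun _ => σ) G x ^ 2)] at a2
  refine a2.trans (mul_le_mul_of_nonneg_left ?_ (by norm_num))
  have a3 := h.feas.2.2 (fun x => φ x * |rg i f x|) (fun x => mul_nonneg (h.p0 x) (abs_nonneg _))
  have a4 : E (fun x => T (fun _ => σ) G x ^ 2) = Q (σ * σ) (fun x => w x * (φ x * |rg i f x|)) := by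
    have : (fun x => w x * (φ x * |rg i f x|)) = G := by
      funext x; simp only [hG, hf, ff]; ring
    rw [this, Q, ← E_sq_T (fun _ => σ) G G]
    exact E_congr fun x => by ring
  rw [a4]
  refine a3.trans (Real.rpow_le_rpow (E_nonneg fun x =>
    Real.rpow_nonneg (mul_nonneg (h.p0 x) (abs_nonneg _)) _) ?_ (by positivity))
  refine le_trans (le_of_eq (E_congr fun x => ?_)) (nu_le_two i h.f0 (fun x => (h.F_pos x).le)
    (fun x => |rg i f x| ^ q) (fun x => Real.rpow_nonneg (abs_nonneg _) _)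
    (fun x => by rw [rg_fl, abs_neg]))
  rw [Real.mul_rpow (h.p0 x) (abs_nonneg _), h.nu_eq x]

end Tight

lemma rg_eq_rel (i : ι) (f : (ι → Bool) → ℝ) (x : ι → Bool) (h0 : 0 ≤ f x) (h1 : 0 < f (fl i x)) :
    rg i f x = rel (f x / f (fl i x)) := by
  unfold rg rel ay sy
  have : 0 < f x + f (fl i x) := by linarith
  field_simp

lemma sy_le_of_noise {ρ : ℝ} (h0 : 0 ≤ ρ) (h1 : ρ ≤ 1) (i : ι) {f : (ι → Bool) → ℝ}
    (hf : ∀ x, 0 ≤ f x) (x : ι → Bool) :
    (1 - ρ) * sy i (T (fun _ => ρ) f) x ≤ T (fun _ => ρ) f x := by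
  have b1 := abs_T_ay (r := fun _ => ρ) (fun _ => h0) (fun _ => h1) i f x
  have b2 := T_mono (r := fun _ => ρ) (fun _ => h0) (fun _ => h1) (abs_ay_le i hf) x
  rw [← ay_T] at b1
  have b3 : T (fun _ => ρ) (fun y => sy i f y) x = sy i (T (fun _ => ρ) f) x := (sy_T i _ f x).symm
  have b4 := mul_le_mul_of_nonneg_left b2 h0
  have b5 := (abs_le.mp b1).1
  have b6 : T (fun _ => ρ) f x = sy i (T (fun _ => ρ) f) x + ay i (T (fun _ => ρ) f) x := by
    unfold sy ay; ring
  have b7 : T (fun _ => ρ) (sy i f) x = sy i (T (fun _ => ρ) f) x := b3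
  rw [b7] at b4
  linarith

/-- The multiplier attached to the edge at `x` in direction `i`. -/
noncomputable def mult (A : Finset (ι → Bool)) (q : ℝ) (μ : ℝ → ℝ) (w : (ι → Bool) → ℝ) (i : ι)
    (x : ι → Bool) : ℝ :=
  if x ∈ A ∧ fl i x ∈ A then μ ((w x / w (fl i x)) ^ (1 + 1 / (q - 1))) else 0

lemma E_ind_ay_mult (A : Finset (ι → Bool)) (q : ℝ) (μ : ℝ → ℝ) (w : (ι → Bool) → ℝ) (i : ι) :
    E (fun x => ind A x * ay i (mult A q μ w i) x) = 0 := by
  refine E_antisymm i _ fun x => ?_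
  rw [ay_fl]
  unfold ind ay mult
  simp only [fl_fl]
  by_cases h1 : x ∈ A <;> by_cases h2 : fl i x ∈ A <;> simp [h1, h2]

lemma Tight.edge_sum {A : Finset (ι → Bool)} {σ q : ℝ} {w φ : (ι → Bool) → ℝ}
    (h : Tight A σ q w φ) {k C : ℝ} (hk : 0 ≤ k) (hC : 0 ≤ C) (μ : ℝ → ℝ)
    (hμ : ∀ ω R : ℝ, 0 < ω → 0 < R → |rel (ω * R ^ (1 / (q - 1)))| ^ q ≤
      (1 + k) * |rel R| ^ q + μ ω * (rel R + rel (ω * R ^ (1 / (q - 1)))) + C * rel R ^ 2)
    (i : ι) :
    E (fun x => sy i (ff w φ) x * sy i (T (fun _ => σ * σ) (ff w φ)) x * |rg i (ff w φ) x| ^ q) ≤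
      (1 + k) * E (fun x => sy i (ff w φ) x * sy i (T (fun _ => σ * σ) (ff w φ)) x *
          |rg i (T (fun _ => σ * σ) (ff w φ)) x| ^ q)
      + E (fun x => φ x ^ q * ay i (mult A q μ w i) x)
      + C * E (fun x => sy i (ff w φ) x * sy i (T (fun _ => σ * σ) (ff w φ)) x *
          rg i (T (fun _ => σ * σ) (ff w φ)) x ^ 2)
      + E (fun x => φ x ^ q * piv A i x) / (1 - σ * σ) := by
  have hq0 : 0 < q := by linarith [h.q1]
  have hη : 0 < 1 - σ * σ := by linarith [h.r1]
  set f := ff w φ with hf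
  set F := T (fun _ => σ * σ) f with hF
  have hF0 : ∀ x, 0 ≤ F x := fun x => (h.F_pos x).le
  have hnu : ∀ x, φ x ^ q = f x * F x := h.nu_eq
  have hm : ∀ x, 0 ≤ sy i f x * sy i F x := fun x =>
    mul_nonneg (sy_nonneg i h.f0 x) (sy_nonneg i hF0 x)
  have hard : ∀ x, f (fl i x) = 0 →
      sy i f x * sy i F x * |rg i f x| ^ q ≤ f x * F x / 2 / (1 - σ * σ) := by
    intro x hx
    have b1 : |rg i f x| ^ q ≤ 1 := Real.rpow_le_one (abs_nonneg _) (abs_rg_le i h.f0 x) hq0.le
    have b2 := sy_le_of_noise h.r0.le h.r1.le i h.f0 x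
    have b3 : sy i f x = f x / 2 := by rw [sy, hx, add_zero]
    calc _ ≤ sy i f x * sy i F x * 1 := mul_le_mul_of_nonneg_left b1 (hm x)
      _ ≤ _ := by
        rw [mul_one, le_div_iff₀ hη, b3]
        have := mul_le_mul_of_nonneg_left b2 (h.f0 x)
        linarith
  have key : ∀ x, sy i f x * sy i F x * |rg i f x| ^ q ≤
      (1 + k) * (sy i f x * sy i F x * |rg i F x| ^ q)
      + mult A q μ w i x * ay i (fun y => φ y ^ q) x
      + C * (sy i f x * sy i F x * rg i F x ^ 2)
      + (φ x ^ q * piv A i x + φ (fl i x) ^ q * piv A i (fl i x)) / 2 / (1 - σ * σ) := by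
    intro x
    have n1 : 0 ≤ (1 + k) * (sy i f x * sy i F x * |rg i F x| ^ q) :=
      mul_nonneg (by linarith) (mul_nonneg (hm x) (Real.rpow_nonneg (abs_nonneg _) _))
    have n2 : 0 ≤ C * (sy i f x * sy i F x * rg i F x ^ 2) :=
      mul_nonneg hC (mul_nonneg (hm x) (sq_nonneg _))
    by_cases h1 : x ∈ A <;> by_cases h2 : fl i x ∈ A
    · have hw1 := h.wpos x h1
      have hw2 := h.wpos _ h2
      have hF1 := h.F_pos x
      have hF2 := h.F_pos (fl i x)
      have hω : 0 < (w x / w (fl i x)) ^ (1 + 1 / (q - 1)) :=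
        Real.rpow_pos_of_pos (div_pos hw1 hw2) _
      have hin := hμ _ (F x / F (fl i x)) hω (div_pos hF1 hF2)
      have e1 : f x / f (fl i x) =
          (w x / w (fl i x)) ^ (1 + 1 / (q - 1)) * (F x / F (fl i x)) ^ (1 / (q - 1)) := by
        have c1 : f x = w x * (w x * F x) ^ (1 / (q - 1)) := by
          rw [← h.phi_eq x]; rfl
        have c2 : f (fl i x) = w (fl i x) * (w (fl i x) * F (fl i x)) ^ (1 / (q - 1)) := by
          rw [← h.phi_eq (fl i x)]; rfl
        rw [c1, c2, Real.rpow_add (div_pos hw1 hw2), Real.rpow_one,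
          Real.div_rpow hw1.le hw2.le, Real.div_rpow hF1.le hF2.le,
          Real.mul_rpow hw1.le hF1.le, Real.mul_rpow hw2.le hF2.le]
        have := Real.rpow_pos_of_pos hw2 (1 / (q - 1))
        have := Real.rpow_pos_of_pos hF2 (1 / (q - 1))
        field_simp
      rw [← e1, ← rg_eq_rel i f x (h.f0 x) (h.f_pos h2), ← rg_eq_rel i F x hF1.le hF2] at hin
      have hin2 := mul_le_mul_of_nonneg_left hin (hm x)
      have e2 : sy i f x * sy i F x * (rg i F x + rg i f x) = ay i (fun y => φ y ^ q) x := by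
        have d1 := sy_mul_rg i h.f0 x
        have d2 := sy_mul_rg i hF0 x
        calc _ = sy i f x * (sy i F x * rg i F x) + sy i F x * (sy i f x * rg i f x) := by ring
          _ = sy i f x * ay i F x + sy i F x * ay i f x := by rw [d2]; exact congrArg _ (congrArg _ d1)
          _ = _ := by simp only [ay, sy, hnu]; ring
      simp only [mult, piv, fl_fl, h1, h2, and_self, if_true, not_true, and_false, if_false,
        mul_zero, add_zero, zero_div]
      rw [← e2]
      linarith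
    · have := hard x (h.fA _ h2)
      simp only [mult, piv, fl_fl, h1, h2, and_false, if_false, not_false_iff, and_self, if_true,
        false_and, mul_zero, add_zero, mul_one, zero_mul]
      rw [hnu x]
      linarith
    · have := hard (fl i x) (by rw [fl_fl]; exact h.fA _ h1)
      rw [sy_fl, sy_fl, rg_fl, abs_neg] at this
      simp only [mult, piv, fl_fl, h1, h2, false_and, if_false, not_false_iff, and_self, if_true,
        mul_zero, zero_add, add_zero, mul_one, zero_mul]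
      rw [hnu (fl i x)]
      linarith
    · have := hard x (h.fA _ h2)
      have z : f x = 0 := h.fA _ h1
      rw [z, zero_mul, zero_div, zero_div] at this
      simp only [mult, piv, fl_fl, h1, h2, false_and, if_false, mul_zero, add_zero, zero_mul,
        zero_div]
      linarith
  have s := E_mono key
  rw [E_add, E_add, E_add, E_const_mul, E_const_mul, E_div_const,
    E_symm i (fun x => φ x ^ q * piv A i x)] at s
  have e : E (fun x => mult A q μ w i x * ay i (fun y => φ y ^ q) x)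
      = E (fun x => φ x ^ q * ay i (mult A q μ w i) x) := by
    rw [← E_symm i (fun x => mult A q μ w i x * ay i (fun y => φ y ^ q) x),
      ← E_symm i (fun x => φ x ^ q * ay i (mult A q μ w i) x)]
    refine E_congr fun x => ?_
    simp only [ay, fl_fl]; ring
  rw [e] at s
  exact s

end Pool.Agent.H71Z.KK
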